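import Mathlib

set_option autoImplicit false

namespace Pool.Agent.Work.MP_aac176_nt

open Real Finset

lemma one_prime_small {δ : ℝ} (hδ : 0 < δ) {p a : ℕ} (hp : 2 ≤ p) :
    ((a : ℝ) + 1) ≤ (1 + 1 / (δ * Real.log 2)) * ((p : ℝ) ^ a) ^ δ := by
  have hlog : 0 < Real.log 2 := Real.log_pos (by norm_num)
  set L : ℝ := δ * Real.log 2 with hL
  have hLpos : 0 < L := by positivity
  have h1 : (2 : ℝ) ^ ((a : ℝ) * δ) ≤ ((p : ℝ) ^ a) ^ δ := by
    have h2 : ((2 : ℝ) ^ a) ^ δ ≤ ((p : ℝ) ^ a) ^ δ := by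
      apply Real.rpow_le_rpow (by positivity) _ hδ.le
      apply pow_le_pow_left₀ (by norm_num)
      exact_mod_cast hp
    refine le_trans (le_of_eq ?_) h2
    rw [Real.rpow_mul (by norm_num), Real.rpow_natCast]
  have h3 : 1 + (a : ℝ) * L ≤ (2 : ℝ) ^ ((a : ℝ) * δ) := by
    rw [Real.rpow_def_of_pos (by norm_num)]
    have := Real.add_one_le_exp (Real.log 2 * ((a : ℝ) * δ))
    calc 1 + (a : ℝ) * L = Real.log 2 * ((a : ℝ) * δ) + 1 := by rw [hL]; ring
      _ ≤ _ := this
  have h4 : ((a : ℝ) + 1) ≤ (1 + 1 / L) * (1 + (a : ℝ) * L) := by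
    have : (1 + 1 / L) * (1 + (a : ℝ) * L) = 1 + (a : ℝ) * L + 1 / L + a := by
      field_simp
      ring
    rw [this]
    have : 0 ≤ (a : ℝ) * L := by positivity
    have : 0 ≤ 1 / L := by positivity
    linarith
  calc ((a : ℝ) + 1) ≤ (1 + 1 / L) * (1 + (a : ℝ) * L) := h4
    _ ≤ (1 + 1 / L) * (((p : ℝ) ^ a) ^ δ) := by
        apply mul_le_mul_of_nonneg_left (h3.trans h1) (by positivity)

lemma one_prime_large {δ : ℝ} (hδ : 0 < δ) {p a : ℕ} (hp : (2 : ℝ) ≤ (p : ℝ) ^ δ) :
    ((a : ℝ) + 1) ≤ ((p : ℝ) ^ a) ^ δ := by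
  have h1 : ((p : ℝ) ^ a) ^ δ = ((p : ℝ) ^ δ) ^ a := by
    rw [← Real.rpow_natCast, ← Real.rpow_natCast, ← Real.rpow_mul (by positivity),
      ← Real.rpow_mul (by positivity), mul_comm]
  rw [h1]
  have h2 : ((a : ℝ) + 1) ≤ (2 : ℝ) ^ a := by
    exact_mod_cast Nat.lt_two_pow_self (n := a)
  exact h2.trans (pow_le_pow_left₀ (by norm_num) hp a)

theorem divisor_bound (δ : ℝ) (hδ : 0 < δ) :
    ∃ C : ℝ, 1 ≤ C ∧ ∀ n : ℕ, n ≠ 0 → (n.divisors.card : ℝ) ≤ C * (n : ℝ) ^ δ := by
  have hlog : 0 < Real.log 2 := Real.log_pos (by norm_num)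
  set C1 : ℝ := 1 + 1 / (δ * Real.log 2) with hC1
  have hC1' : 1 ≤ C1 := by
    have : 0 ≤ 1 / (δ * Real.log 2) := by positivity
    rw [hC1]; linarith
  set K0 : ℕ := ⌈(2 : ℝ) ^ (1 / δ)⌉₊ with hK0
  refine ⟨C1 ^ K0, one_le_pow₀ hC1', ?_⟩
  intro n hn
  rw [Nat.card_divisors hn]
  push_cast
  have hfac : (n : ℝ) ^ δ = ∏ p ∈ n.primeFactors, ((p : ℝ) ^ (n.factorization p)) ^ δ := by
    conv_lhs => rw [← Nat.factorization_prod_pow_eq_self hn]
    rw [Finsupp.prod, Nat.support_factorization]
    push_cast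
    rw [Real.finset_prod_rpow]
    intro i _
    positivity
  rw [hfac]
  calc ∏ p ∈ n.primeFactors, ((n.factorization p : ℝ) + 1)
      ≤ ∏ p ∈ n.primeFactors, ((if p < K0 then C1 else 1) *
          ((p : ℝ) ^ (n.factorization p)) ^ δ) := by
        apply Finset.prod_le_prod
        · intro p _; positivity
        · intro p hp
          have hpp := Nat.prime_of_mem_primeFactors hp
          split_ifs with h
          · exact one_prime_small hδ hpp.two_le
          · rw [one_mul]
            apply one_prime_large hδ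
            push Not at h
            have h1 : (2 : ℝ) ^ (1 / δ) ≤ p := by
              refine (Nat.le_ceil _).trans ?_
              exact_mod_cast h
            calc (2 : ℝ) = ((2 : ℝ) ^ (1 / δ)) ^ δ := by
                  rw [← Real.rpow_mul (by norm_num)]
                  field_simp
                  simp
              _ ≤ (p : ℝ) ^ δ := by
                  apply Real.rpow_le_rpow (by positivity) h1 hδ.le
    _ = (∏ p ∈ n.primeFactors, (if p < K0 then C1 else 1)) *
          ∏ p ∈ n.primeFactors, ((p : ℝ) ^ (n.factorization p)) ^ δ := by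
        rw [Finset.prod_mul_distrib]
    _ ≤ C1 ^ K0 * ∏ p ∈ n.primeFactors, ((p : ℝ) ^ (n.factorization p)) ^ δ := by
        apply mul_le_mul_of_nonneg_right
        · rw [← Finset.prod_filter, Finset.prod_const]
          apply pow_le_pow_right₀ hC1'
          calc ((n.primeFactors).filter (fun p => p < K0)).card ≤ (Finset.range K0).card := by
                apply Finset.card_le_card
                intro p hp
                rw [Finset.mem_filter] at hp
                rw [Finset.mem_range]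
                exact hp.2
            _ = K0 := Finset.card_range K0
        · apply Finset.prod_nonneg
          intro p _
          positivity

end Pool.Agent.Work.MP_aac176_nt
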