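import Pool.Agent.Work.MP_aac176_nt.Energy

set_option autoImplicit false

namespace Pool.Agent.Work.MP_aac176_nt

open Real Finset

/-- ternary digits of points of the Cantor set. -/
lemma cantor_digits {x : ℝ} (hx : x ∈ cantorSet) (n : ℕ) :
    ∃ M ∈ dset n, (3 : ℝ) ^ n * x - 2 * M ∈ cantorSet := by
  induction n with
  | zero => exact ⟨0, by simp [dset], by simpa using hx⟩
  | succ n ih =>
    obtain ⟨M, hM, hy⟩ := ih
    rw [cantorSet_eq_union_halves] at hy
    rcases hy with ⟨y', hy', h⟩ | ⟨y', hy', h⟩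
    · refine ⟨3 * M, ?_, ?_⟩
      · rw [dset, Finset.mem_union, Finset.mem_image]
        left; exact ⟨M, hM, rfl⟩
      · have : (3 : ℝ) ^ (n + 1) * x - 2 * ((3 * M : ℕ) : ℝ) = y' := by
          simp only at h
          push_cast
          rw [pow_succ]
          linarith
        rw [this]; exact hy'
    · refine ⟨3 * M + 1, ?_, ?_⟩
      · rw [dset, Finset.mem_union, Finset.mem_image, Finset.mem_image]
        right; exact ⟨M, hM, rfl⟩
      · have : (3 : ℝ) ^ (n + 1) * x - 2 * ((3 * M + 1 : ℕ) : ℝ) = y' := by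
          simp only at h
          push_cast
          rw [pow_succ]
          linarith
        rw [this]; exact hy'

lemma cantor_thirds {y : ℝ} (hy : y ∈ cantorSet) : (0 ≤ y ∧ y ≤ 1 / 3) ∨ (2 / 3 ≤ y ∧ y ≤ 1) := by
  rw [cantorSet_eq_union_halves] at hy
  rcases hy with ⟨y', hy', h⟩ | ⟨y', hy', h⟩
  · have := cantorSet_subset_unitInterval hy'
    simp only at h
    left
    constructor <;> linarith [this.1, this.2]
  · have := cantorSet_subset_unitInterval hy'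
    simp only at h
    right
    constructor <;> linarith [this.1, this.2]

lemma norm_one_add_e (y : ℝ) : ‖1 + e y‖ ^ 2 = 2 + 2 * Real.cos (2 * π * y) := by
  unfold e
  rw [show (2 * π * y * Complex.I : ℂ) = ((2 * π * y : ℝ) : ℂ) * Complex.I by push_cast; ring]
  rw [Complex.exp_mul_I, Complex.sq_norm, Complex.normSq_apply]
  rw [← Complex.ofReal_cos, ← Complex.ofReal_sin]
  simp only [Complex.add_re, Complex.one_re, Complex.mul_re, Complex.ofReal_re, Complex.I_re,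
    Complex.ofReal_im, Complex.I_im, Complex.add_im, Complex.one_im, Complex.mul_im]
  have := Real.sin_sq_add_cos_sq (2 * π * y)
  nlinarith

lemma one_le_norm_of_cantor {y : ℝ} (hy : y ∈ cantorSet) : 1 ≤ ‖1 + e y‖ := by
  have hcos : -(1 / 2) ≤ Real.cos (2 * π * y) := by
    have hthird : Real.cos (2 * π / 3) = -(1 / 2) := by
      have : (2 * π / 3 : ℝ) = π - π / 3 := by ring
      rw [this, Real.cos_pi_sub, Real.cos_pi_div_three]
    have hpi := Real.pi_pos
    rcases cantor_thirds hy with ⟨h0, h1⟩ | ⟨h0, h1⟩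
    · rw [← hthird]
      apply Real.cos_le_cos_of_nonneg_of_le_pi
      · positivity
      · linarith
      · nlinarith
    · have : Real.cos (2 * π * y) = Real.cos (2 * π * (1 - y)) := by
        rw [show 2 * π * (1 - y) = 2 * π - 2 * π * y by ring, Real.cos_two_pi_sub]
      rw [this, ← hthird]
      apply Real.cos_le_cos_of_nonneg_of_le_pi
      · have : 0 ≤ 1 - y := by linarith
        positivity
      · linarith
      · nlinarith
  have h2 := norm_one_add_e y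
  have h3 : 1 ≤ ‖1 + e y‖ ^ 2 := by rw [h2]; linarith
  by_contra h
  push Not at h
  have := norm_nonneg (1 + e y)
  nlinarith

/-- values of the character along the orbit. -/
lemma e_orbit {x : ℝ} (hx : x ∈ cantorSet) (l : ℕ) :
    1 ≤ ‖1 + e ((3 : ℝ) ^ l * x)‖ := by
  obtain ⟨M, _, hy⟩ := cantor_digits hx l
  have h1 := one_le_norm_of_cantor hy
  have h2 : e ((3 : ℝ) ^ l * x) = e ((3 : ℝ) ^ l * x - 2 * M) := by
    have : (3 : ℝ) ^ l * x = ((3 : ℝ) ^ l * x - 2 * M) + ((2 * M : ℕ) : ℝ) := by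
      push_cast; ring
    conv_lhs => rw [this]
    rw [e_add, e_nat, mul_one]
  rw [h2]
  exact h1

/-- off-diagonal pairs. -/
def pairs : Finset (ℕ × ℕ) := ((range 8) ×ˢ (range 8)).filter (fun z => z.1 ≠ z.2)

lemma card_pairs : pairs.card = 56 := by decide

/-- signs. -/
noncomputable def sgn (z : ℕ × ℕ) : ℂ := -((-1) ^ (z.1 + z.2))

lemma norm_sgn (z : ℕ × ℕ) : ‖sgn z‖ = 1 := by
  unfold sgn
  rw [norm_neg, norm_pow]
  simp

/-- the polynomial `8 g`. -/
lemma gsum (y : ℝ) :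
    ∑ z ∈ pairs, sgn z * e (((z.1 : ℝ) - z.2) * y) =
      ((8 - ‖∑ a ∈ range 8, (-1 : ℂ) ^ a * e (a * y)‖ ^ 2 : ℝ) : ℂ) := by
  have h1 : ((‖∑ a ∈ range 8, (-1 : ℂ) ^ a * e (a * y)‖ ^ 2 : ℝ) : ℂ) =
      ∑ z ∈ (range 8) ×ˢ (range 8), (-1 : ℂ) ^ (z.1 + z.2) * e (((z.1 : ℝ) - z.2) * y) := by
    have h2 : ((‖∑ a ∈ range 8, (-1 : ℂ) ^ a * e (a * y)‖ ^ 2 : ℝ) : ℂ) =
        (∑ a ∈ range 8, (-1 : ℂ) ^ a * e (a * y)) *
          (starRingEnd ℂ) (∑ a ∈ range 8, (-1 : ℂ) ^ a * e (a * y)) := by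
      rw [Complex.mul_conj, Complex.normSq_eq_norm_sq]
    rw [h2, map_sum, Finset.sum_mul_sum, Finset.sum_product]
    apply Finset.sum_congr rfl
    intro a _
    apply Finset.sum_congr rfl
    intro b _
    simp only [map_mul, map_pow, map_neg, map_one, conj_e]
    have : e (((a : ℝ) - b) * y) = e (a * y) * e (-(b * y)) := by
      rw [← e_add]; congr 1; ring
    rw [this, pow_add]
    ring
  have h3 : ∑ z ∈ (range 8) ×ˢ (range 8), (-1 : ℂ) ^ (z.1 + z.2) * e (((z.1 : ℝ) - z.2) * y) =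
      ∑ z ∈ pairs, (-1 : ℂ) ^ (z.1 + z.2) * e (((z.1 : ℝ) - z.2) * y) + 8 := by
    rw [← Finset.sum_filter_add_sum_filter_not ((range 8) ×ˢ (range 8))
      (fun z : ℕ × ℕ => z.1 ≠ z.2)]
    congr 1
    have h4 : ∀ z ∈ ((range 8) ×ˢ (range 8)).filter (fun z : ℕ × ℕ => ¬ z.1 ≠ z.2),
        (-1 : ℂ) ^ (z.1 + z.2) * e (((z.1 : ℝ) - z.2) * y) = 1 := by
      intro z hz
      have := (Finset.mem_filter.mp hz).2
      push Not at this
      rw [this, sub_self, zero_mul, e_zero, mul_one, ← two_mul, pow_mul]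
      norm_num
    rw [Finset.sum_congr rfl h4]
    have h5 : (((range 8) ×ˢ (range 8)).filter (fun z : ℕ × ℕ => ¬ z.1 ≠ z.2)).card = 8 := by
      decide
    rw [Finset.sum_const, h5]
    norm_num
  have h6 : ∑ z ∈ pairs, sgn z * e (((z.1 : ℝ) - z.2) * y) =
      -∑ z ∈ pairs, (-1 : ℂ) ^ (z.1 + z.2) * e (((z.1 : ℝ) - z.2) * y) := by
    rw [← Finset.sum_neg_distrib]
    apply Finset.sum_congr rfl
    intro z _
    unfold sgn
    ring
  rw [h6]
  have h7 : ((8 - ‖∑ a ∈ range 8, (-1 : ℂ) ^ a * e (a * y)‖ ^ 2 : ℝ) : ℂ) =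
      8 - ((‖∑ a ∈ range 8, (-1 : ℂ) ^ a * e (a * y)‖ ^ 2 : ℝ) : ℂ) := by
    push_cast; ring
  rw [h7, h1, h3]
  ring

lemma geom_bound {y : ℝ} (hy : 1 ≤ ‖1 + e y‖) :
    ‖∑ a ∈ range 8, (-1 : ℂ) ^ a * e (a * y)‖ ≤ 2 := by
  have h1 : ∑ a ∈ range 8, (-1 : ℂ) ^ a * e (a * y) = ∑ a ∈ range 8, (-e y) ^ a := by
    apply Finset.sum_congr rfl
    intro a _
    rw [e_nat_mul, neg_pow (e y)]
  have hne : -e y ≠ 1 := by
    intro h
    have : 1 + e y = 0 := by rw [← h]; ring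
    rw [this, norm_zero] at hy
    linarith
  rw [h1, geom_sum_eq hne]
  have h2 : ‖-e y - 1‖ = ‖1 + e y‖ := by
    rw [← norm_neg]; congr 1; ring
  rw [norm_div, h2, div_le_iff₀ (by linarith)]
  have h3 : ‖(-e y) ^ 8 - 1‖ ≤ 2 := by
    refine (norm_sub_le _ _).trans ?_
    rw [norm_pow, norm_neg, norm_e]
    norm_num
  linarith

/-- the value of `8 g` is real and at least 4 along the orbit of a point of the Cantor set. -/
lemma gsum_cantor {x : ℝ} (hx : x ∈ cantorSet) (l : ℕ) :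
    ∃ c : ℝ, 4 ≤ c ∧ ∑ z ∈ pairs, sgn z * e (((z.1 : ℝ) - z.2) * ((3 : ℝ) ^ l * x)) = (c : ℂ) := by
  refine ⟨_, ?_, gsum _⟩
  have := geom_bound (e_orbit hx l)
  have h0 := norm_nonneg (∑ a ∈ range 8, (-1 : ℂ) ^ a * e (a * ((3 : ℝ) ^ l * x)))
  nlinarith

end Pool.Agent.Work.MP_aac176_nt
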