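import Pool.Agent.Work.MP_aac176_nt.Periods

set_option autoImplicit false

namespace Pool.Agent.Work.MP_aac176_nt

open Real Finset

open Classical in
/-- interpolation between the power sum and the number of denominators. -/
theorem combine (φ : ℝ) (hφ0 : 0 ≤ φ) (hφ1 : φ ≤ 1) (F : ℕ → ℕ → Prop)
    (hF : ∀ ε : ℝ, 0 < ε → ∃ C : ℝ, 0 < C ∧ ∀ j : ℕ,
      (((Finset.Ico (3 ^ j) (3 ^ (j + 1)) : Finset ℕ).filter (F j)).card : ℝ) ≤
        C * (3 : ℝ) ^ ((φ + ε) * (j : ℝ))) (ε : ℝ) (hε : 0 < ε) :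
    ∃ C : ℝ, ∀ j : ℕ,
      (({pq : ℕ × ℕ | 3 ^ j ≤ pq.2 ∧ pq.2 < 3 ^ (j + 1) ∧
          ((pq.1 : ℝ) / (pq.2 : ℝ)) ∈ cantorSet ∧ F j pq.2}.ncard : ℕ) : ℝ) ≤
        C * (3 : ℝ) ^ ((Real.log 2 / Real.log 3 + (1 - Real.log 2 / Real.log 3) * φ + ε) *
          (j : ℝ)) := by
  have hlog3 : 0 < Real.log 3 := Real.log_pos (by norm_num)
  have hlog2 : 0 < Real.log 2 := Real.log_pos (by norm_num)
  have hlt : Real.log 2 < Real.log 3 := Real.log_lt_log (by norm_num) (by norm_num)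
  set κ : ℝ := Real.log 2 / Real.log 3 with hκ
  have hκ0 : 0 < κ := by rw [hκ]; positivity
  have hκ1 : κ < 1 := by rw [hκ, div_lt_one hlog3]; exact hlt
  have hinv : Real.log 3 / Real.log 2 = 1 / κ := by rw [hκ]; field_simp
  set w : ℝ := min (κ + ε / 2) 1 with hw
  have hwκ : κ < w := by rw [hw]; exact lt_min (by linarith) hκ1
  have hw1 : w ≤ 1 := min_le_right _ _
  have hwε : w ≤ κ + ε / 2 := min_le_left _ _
  have hw0 : 0 < w := by linarith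
  set s : ℝ := 1 / w with hs
  have hs1 : 1 ≤ s := by rw [hs, le_div_iff₀ hw0]; linarith
  have hs2 : s < 1 / κ := by rw [hs]; exact one_div_lt_one_div_of_lt hκ0 hwκ
  obtain ⟨C1, hC10, hC1⟩ := power_sum s (by linarith) (by rw [hinv]; exact hs2) (ε / 2)
    (by linarith)
  obtain ⟨C2, hC20, hC2⟩ := hF (ε / 2) (by linarith)
  refine ⟨C2 + C1, ?_⟩
  intro j
  have h1 := pairs_le j (F j) {pq : ℕ × ℕ | 3 ^ j ≤ pq.2 ∧ pq.2 < 3 ^ (j + 1) ∧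
          ((pq.1 : ℝ) / (pq.2 : ℝ)) ∈ cantorSet ∧ F j pq.2} (fun pq hpq => hpq)
  set I : Finset ℕ := Finset.Ico (3 ^ j) (3 ^ (j + 1)) with hI
  have hI' : ∀ q ∈ I, 0 < q := by
    intro q hq
    rw [hI, Finset.mem_Ico] at hq
    exact lt_of_lt_of_le (by positivity) hq.1
  set Y : ℝ := (3 : ℝ) ^ ((1 - φ) * w * (j : ℝ)) with hY
  have hY0 : 0 < Y := by rw [hY]; positivity
  have h2 : ∀ q ∈ I, ((Sq q).card : ℝ) ≤ Y +
      Y ^ (-(s - 1)) * (({p : ℕ | (p : ℝ) / (q : ℝ) ∈ cantorSet}.ncard : ℕ) : ℝ) ^ s := by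
    intro q hq
    rw [ncard_eq (hI' q hq)]
    set b : ℝ := ((Sq q).card : ℝ) with hb
    have hb00 : 0 ≤ b := by rw [hb]; positivity
    rcases le_or_gt b Y with h | h
    · have : 0 ≤ Y ^ (-(s - 1)) * b ^ s := by positivity
      linarith
    · have hb0 : 0 < b := lt_trans hY0 h
      have h3 : b ^ s = b * b ^ (s - 1) := by
        nth_rewrite 2 [← Real.rpow_one b]
        rw [← Real.rpow_add hb0]
        congr 1
        ring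
      have h4 : Y ^ (s - 1) ≤ b ^ (s - 1) := Real.rpow_le_rpow hY0.le h.le (by linarith)
      have h5 : b ≤ Y ^ (-(s - 1)) * b ^ s := by
        rw [Real.rpow_neg hY0.le, h3, inv_mul_eq_div, le_div_iff₀ (by positivity)]
        exact mul_le_mul_of_nonneg_left h4 hb0.le
      linarith
  have h5 : ((∑ q ∈ I.filter (F j), (Sq q).card : ℕ) : ℝ) ≤
      C2 * (3 : ℝ) ^ ((φ + ε / 2) * (j : ℝ)) * Y +
      Y ^ (-(s - 1)) * (C1 * (3 : ℝ) ^ ((1 + ε / 2) * (j : ℝ))) := by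
    push_cast
    calc ∑ q ∈ I.filter (F j), ((Sq q).card : ℝ) ≤ ∑ q ∈ I.filter (F j), (Y + Y ^ (-(s - 1)) *
          (({p : ℕ | (p : ℝ) / (q : ℝ) ∈ cantorSet}.ncard : ℕ) : ℝ) ^ s) :=
          Finset.sum_le_sum (fun q hq => h2 q (Finset.mem_of_mem_filter q hq))
      _ = ((I.filter (F j)).card : ℝ) * Y + ∑ q ∈ I.filter (F j), Y ^ (-(s - 1)) *
          (({p : ℕ | (p : ℝ) / (q : ℝ) ∈ cantorSet}.ncard : ℕ) : ℝ) ^ s := by
          rw [Finset.sum_add_distrib, Finset.sum_const, nsmul_eq_mul]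
      _ ≤ (C2 * (3 : ℝ) ^ ((φ + ε / 2) * (j : ℝ))) * Y + ∑ q ∈ I, Y ^ (-(s - 1)) *
          (({p : ℕ | (p : ℝ) / (q : ℝ) ∈ cantorSet}.ncard : ℕ) : ℝ) ^ s := by
          apply add_le_add
          · exact mul_le_mul_of_nonneg_right (hC2 j) hY0.le
          · apply Finset.sum_le_sum_of_subset_of_nonneg (Finset.filter_subset _ _)
            intro _ _ _
            positivity
      _ = (C2 * (3 : ℝ) ^ ((φ + ε / 2) * (j : ℝ))) * Y + Y ^ (-(s - 1)) * ∑ q ∈ I,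
          (({p : ℕ | (p : ℝ) / (q : ℝ) ∈ cantorSet}.ncard : ℕ) : ℝ) ^ s := by
          rw [Finset.mul_sum]
      _ ≤ _ := by
          apply add_le_add le_rfl
          exact mul_le_mul_of_nonneg_left (hC1 j) (by positivity)
  have hexp : φ + ε / 2 + (1 - φ) * w ≤ κ + (1 - κ) * φ + ε := by
    have h6 : (1 - φ) * w ≤ (1 - φ) * (κ + ε / 2) :=
      mul_le_mul_of_nonneg_left hwε (by linarith)
    nlinarith
  have h6 : C2 * (3 : ℝ) ^ ((φ + ε / 2) * (j : ℝ)) * Y ≤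
      C2 * (3 : ℝ) ^ ((κ + (1 - κ) * φ + ε) * (j : ℝ)) := by
    rw [mul_assoc, hY, ← Real.rpow_add (by norm_num)]
    apply mul_le_mul_of_nonneg_left _ hC20.le
    apply Real.rpow_le_rpow_of_exponent_le (by norm_num)
    rw [← add_mul]
    exact mul_le_mul_of_nonneg_right hexp (by positivity)
  have h7 : Y ^ (-(s - 1)) * (C1 * (3 : ℝ) ^ ((1 + ε / 2) * (j : ℝ))) ≤
      C1 * (3 : ℝ) ^ ((κ + (1 - κ) * φ + ε) * (j : ℝ)) := by
    rw [mul_left_comm, hY, ← Real.rpow_mul (by norm_num), ← Real.rpow_add (by norm_num)]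
    apply mul_le_mul_of_nonneg_left _ hC10.le
    apply Real.rpow_le_rpow_of_exponent_le (by norm_num)
    have h8 : (1 - φ) * w * (j : ℝ) * (-(s - 1)) + (1 + ε / 2) * (j : ℝ) =
        (φ + ε / 2 + (1 - φ) * w) * (j : ℝ) := by
      rw [hs]
      field_simp
      ring
    rw [h8]
    exact mul_le_mul_of_nonneg_right hexp (by positivity)
  calc _ ≤ ((∑ q ∈ I.filter (F j), (Sq q).card : ℕ) : ℝ) := by exact_mod_cast h1
    _ ≤ _ := h5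
    _ ≤ _ := add_le_add h6 h7
    _ = _ := by ring

/-- fractions with small periods. -/
theorem periods_poly (A : ℝ) (hA : 1 ≤ A) (ε : ℝ) (hε : 0 < ε) : ∃ C : ℝ, ∀ j : ℕ,
      (({pq : ℕ × ℕ | 3 ^ j ≤ pq.2 ∧ pq.2 < 3 ^ (j + 1) ∧
          ((pq.1 : ℝ) / (pq.2 : ℝ)) ∈ cantorSet ∧
          ∃ l t : ℕ, 1 ≤ t ∧ (t : ℝ) ≤ (j : ℝ) ^ A ∧ pq.2 ∣ 3 ^ l * (3 ^ t - 1)}.ncard : ℕ) : ℝ) ≤
        C * (3 : ℝ) ^ ((Real.log 2 / Real.log 3 + (1 - Real.log 2 / Real.log 3) *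
          ((A - 1) / (2 * A)) + ε) * (j : ℝ)) := by
  have hA0 : 0 < A := by linarith
  have hφ0 : 0 ≤ (A - 1) / (2 * A) := div_nonneg (by linarith) (by linarith)
  have hφ1 : (A - 1) / (2 * A) ≤ 1 := by rw [div_le_one (by linarith)]; linarith
  obtain ⟨C, hC⟩ := combine ((A - 1) / (2 * A)) hφ0 hφ1 (fun j q => Fam ⌊(j : ℝ) ^ A⌋₊ q)
    (fun ε hε => family_poly A hA ε hε) ε hε
  refine ⟨C, ?_⟩
  intro j
  have hset : {pq : ℕ × ℕ | 3 ^ j ≤ pq.2 ∧ pq.2 < 3 ^ (j + 1) ∧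
          ((pq.1 : ℝ) / (pq.2 : ℝ)) ∈ cantorSet ∧
          ∃ l t : ℕ, 1 ≤ t ∧ (t : ℝ) ≤ (j : ℝ) ^ A ∧ pq.2 ∣ 3 ^ l * (3 ^ t - 1)} =
      {pq : ℕ × ℕ | 3 ^ j ≤ pq.2 ∧ pq.2 < 3 ^ (j + 1) ∧
          ((pq.1 : ℝ) / (pq.2 : ℝ)) ∈ cantorSet ∧ Fam ⌊(j : ℝ) ^ A⌋₊ pq.2} := by
    ext pq
    simp only [Set.mem_ofPred_eq]
    have : (∃ l t : ℕ, 1 ≤ t ∧ (t : ℝ) ≤ (j : ℝ) ^ A ∧ pq.2 ∣ 3 ^ l * (3 ^ t - 1)) ↔
        Fam ⌊(j : ℝ) ^ A⌋₊ pq.2 := by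
      unfold Fam
      simp only [Nat.le_floor_iff (show (0 : ℝ) ≤ (j : ℝ) ^ A by positivity)]
    rw [this]
  rw [hset]
  exact hC j

end Pool.Agent.Work.MP_aac176_nt
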