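import Pool.Agent.Work.MP_aac176_nt.Moment
import Pool.Agent.Work.MP_aac176_nt.Div

set_option autoImplicit false

namespace Pool.Agent.Work.MP_aac176_nt

open Real Finset

lemma mem_pairs (z : ℕ × ℕ) : z ∈ pairs ↔ ((z.1 < 8 ∧ z.2 < 8) ∧ z.1 ≠ z.2) := by
  unfold pairs
  rw [Finset.mem_filter, Finset.mem_product, Finset.mem_range, Finset.mem_range]

lemma mem_JJ (B : ℕ) (σ : (ℕ × ℕ) × ℕ) : σ ∈ JJ B ↔ (σ.1 ∈ pairs ∧ σ.2 < B) := by
  unfold JJ
  rw [Finset.mem_product, Finset.mem_range]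

lemma mem_Om (r B : ℕ) (τ : Fin r → (ℕ × ℕ) × ℕ) : τ ∈ Om r B ↔ ∀ s, τ s ∈ JJ B := by
  unfold Om
  rw [Fintype.mem_piFinset]

attribute [local irreducible] pairs JJ Om

lemma blocks (M : ℤ) (hM : 0 < M) : ∀ (r : ℕ) (d : Fin r → ℤ), (∀ s, |d s| < M) →
    ∑ s, d s * M ^ (s : ℕ) = 0 → ∀ s, d s = 0 := by
  intro r
  induction r with
  | zero => intro d _ _ s; exact s.elim0
  | succ r ih =>
    intro d hd h
    rw [Fin.sum_univ_succ] at h
    have h1 : ∑ i : Fin r, d i.succ * M ^ ((i.succ : Fin (r + 1)) : ℕ) =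
        M * ∑ i : Fin r, d i.succ * M ^ (i : ℕ) := by
      rw [Finset.mul_sum]
      apply Finset.sum_congr rfl
      intro i _
      rw [Fin.val_succ, pow_succ]
      ring
    rw [h1] at h
    simp only [Fin.val_zero, pow_zero, mul_one] at h
    have h2 : M ∣ d 0 := by
      refine ⟨-∑ i : Fin r, d i.succ * M ^ (i : ℕ), ?_⟩
      linarith
    have h3 : d 0 = 0 := Int.eq_zero_of_abs_lt_dvd h2 (hd 0)
    rw [h3, zero_add] at h
    have h4 : ∑ i : Fin r, d i.succ * M ^ (i : ℕ) = 0 := by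
      rcases mul_eq_zero.mp h with h5 | h5
      · exact absurd h5 hM.ne'
      · exact h5
    have h6 := ih (fun i => d i.succ) (fun i => hd i.succ) h4
    intro s
    refine Fin.cases h3 h6 s

lemma vv_abs {B : ℕ} {σ : (ℕ × ℕ) × ℕ} (hσ : σ ∈ JJ B) : |vv σ| ≤ 7 * 3 ^ B := by
  rw [mem_JJ, mem_pairs] at hσ
  obtain ⟨⟨⟨h1, h2⟩, _⟩, h3⟩ := hσ
  unfold vv
  rw [abs_mul]
  have h4 : |(σ.1.1 : ℤ) - σ.1.2| ≤ 7 := by
    rw [abs_le]
    constructor <;> omega
  have h5 : |(3 : ℤ) ^ σ.2| ≤ 3 ^ B := by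
    rw [abs_of_nonneg (by positivity)]
    exact pow_le_pow_right₀ (by norm_num) h3.le
  exact mul_le_mul h4 h5 (abs_nonneg _) (by norm_num)

lemma DD_inj {r B : ℕ} {τ τ' : Fin r → (ℕ × ℕ) × ℕ} (hτ : τ ∈ Om r B) (hτ' : τ' ∈ Om r B)
    (h : DD B τ = DD B τ') : ∀ s, vv (τ s) = vv (τ' s) := by
  rw [mem_Om] at hτ hτ'
  have h1 := blocks (3 ^ (B + 3)) (by positivity) r (fun s => vv (τ s) - vv (τ' s)) (by
    intro s
    have h2 := vv_abs (hτ s)
    have h3 := vv_abs (hτ' s)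
    rw [abs_le] at h2 h3
    rw [abs_lt]
    have h4 : (0 : ℤ) < 3 ^ B := by positivity
    rw [pow_add]
    constructor <;> linarith [h2.1, h2.2, h3.1, h3.2]) (by
    unfold DD at h
    have h5 : ∑ s, (vv (τ s) - vv (τ' s)) * ((3 : ℤ) ^ (B + 3)) ^ (s : ℕ) =
        ∑ s, vv (τ s) * 3 ^ ((s : ℕ) * (B + 3)) - ∑ s, vv (τ' s) * 3 ^ ((s : ℕ) * (B + 3)) := by
      rw [← Finset.sum_sub_distrib]
      apply Finset.sum_congr rfl
      intro s _
      rw [← pow_mul, mul_comm (B + 3) (s : ℕ)]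
      ring
    rw [h5, h, sub_self])
  intro s
  have := h1 s
  linarith

lemma vv_fiber (B : ℕ) (v : ℤ) : ((JJ B).filter (fun σ => vv σ = v)).card ≤ 56 := by
  rw [← card_pairs]
  apply Finset.card_le_card_of_injOn (fun σ => σ.1)
  · intro σ hσ
    have := (Finset.mem_filter.mp (Finset.mem_coe.mp hσ)).1
    rw [mem_JJ] at this
    exact Finset.mem_coe.mpr this.1
  · intro σ hσ σ' hσ' h
    simp only at h
    have h1 := (Finset.mem_filter.mp (Finset.mem_coe.mp hσ))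
    have h2 := (Finset.mem_filter.mp (Finset.mem_coe.mp hσ')).2
    have h3 := h1.1
    rw [mem_JJ, mem_pairs] at h3
    have h4 : ((σ.1.1 : ℤ) - σ.1.2) ≠ 0 := by
      have := h3.1.2
      omega
    have h5 : vv σ = vv σ' := by rw [h1.2, h2]
    unfold vv at h5
    rw [← h] at h5
    have h6 := mul_left_cancel₀ h4 h5
    have h7 : σ.2 = σ'.2 := Int.pow_right_injective (by norm_num) h6
    exact Prod.ext h h7

/-- number of pairs of tuples with equal frequencies. -/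
lemma diag (r B : ℕ) : ((Om r B ×ˢ Om r B).filter (fun z => DD B z.1 = DD B z.2)).card ≤
    (Om r B).card * 56 ^ r := by
  classical
  have h1 : ∀ τ ∈ Om r B, ((Om r B).filter (fun τ' => DD B τ = DD B τ')).card ≤ 56 ^ r := by
    intro τ hτ
    have h2 : (Om r B).filter (fun τ' => DD B τ = DD B τ') ⊆
        Fintype.piFinset (fun s => (JJ B).filter (fun σ => vv σ = vv (τ s))) := by
      intro τ' hτ'
      rw [Finset.mem_filter] at hτ'
      rw [Fintype.mem_piFinset]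
      intro s
      rw [Finset.mem_filter]
      refine ⟨?_, (DD_inj hτ hτ'.1 hτ'.2 s).symm⟩
      have := hτ'.1
      rw [mem_Om] at this
      exact this s
    refine (Finset.card_le_card h2).trans ?_
    rw [Fintype.card_piFinset]
    calc ∏ s, ((JJ B).filter (fun σ => vv σ = vv (τ s))).card ≤ ∏ s : Fin r, 56 :=
          Finset.prod_le_prod' (fun s _ => vv_fiber B _)
      _ = 56 ^ r := by simp
  have h3 : ((Om r B ×ˢ Om r B).filter (fun z => DD B z.1 = DD B z.2)).card =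
      ∑ τ ∈ Om r B, ((Om r B).filter (fun τ' => DD B τ = DD B τ')).card := by
    rw [Finset.card_filter, Finset.sum_product]
    apply Finset.sum_congr rfl
    intro τ _
    rw [Finset.card_filter]
  rw [h3]
  calc ∑ τ ∈ Om r B, ((Om r B).filter (fun τ' => DD B τ = DD B τ')).card ≤
      ∑ τ ∈ Om r B, 56 ^ r := Finset.sum_le_sum h1
    _ = (Om r B).card * 56 ^ r := by rw [Finset.sum_const, smul_eq_mul]

lemma geom_aux (B r : ℕ) :
    ∑ s ∈ range r, (7 * 3 ^ B : ℤ) * 3 ^ (s * (B + 3)) ≤ 3 ^ (r * (B + 3)) := by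
  induction r with
  | zero => simp
  | succ r ih =>
    rw [Finset.sum_range_succ]
    have h1 : (3 : ℤ) ^ ((r + 1) * (B + 3)) = 3 ^ (r * (B + 3)) * (27 * 3 ^ B) := by
      rw [show (r + 1) * (B + 3) = r * (B + 3) + (B + 3) by ring, pow_add, pow_add 3 B 3]
      ring
    have h2 : (1 : ℤ) ≤ 3 ^ B := one_le_pow₀ (by norm_num)
    have h3 : (0 : ℤ) < 3 ^ (r * (B + 3)) := by positivity
    rw [h1]
    nlinarith

lemma DD_abs {r B : ℕ} {τ : Fin r → (ℕ × ℕ) × ℕ} (hτ : τ ∈ Om r B) :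
    |DD B τ| ≤ 3 ^ (r * (B + 3)) := by
  rw [mem_Om] at hτ
  calc |DD B τ| ≤ ∑ s, |vv (τ s) * 3 ^ ((s : ℕ) * (B + 3))| := by
        unfold DD
        exact Finset.abs_sum_le_sum_abs _ _
    _ ≤ ∑ s : Fin r, (7 * 3 ^ B : ℤ) * 3 ^ ((s : ℕ) * (B + 3)) := by
        apply Finset.sum_le_sum
        intro s _
        rw [abs_mul, abs_of_nonneg (by positivity : (0 : ℤ) ≤ 3 ^ ((s : ℕ) * (B + 3)))]
        exact mul_le_mul_of_nonneg_right (vv_abs (hτ s)) (by positivity)
    _ = ∑ s ∈ range r, (7 * 3 ^ B : ℤ) * 3 ^ (s * (B + 3)) := by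
        rw [Finset.sum_range]
    _ ≤ 3 ^ (r * (B + 3)) := geom_aux B r

theorem count (δ C : ℝ) (hδ : 0 < δ) (hC : 1 ≤ C)
    (hdiv : ∀ n : ℕ, n ≠ 0 → ((n.divisors.card : ℕ) : ℝ) ≤ C * (n : ℝ) ^ δ) (j r B : ℕ) :
    ∑ q ∈ (Finset.Ico (3 ^ j) (3 ^ (j + 1)) : Finset ℕ), (q : ℝ) * WW q r B ≤
      3 ^ (j + 1) * (3 ^ (j + 1) * ((Om r B).card * 56 ^ r) +
        ((Om r B).card : ℝ) ^ 2 * (C * (2 * 3 ^ (r * (B + 3))) ^ δ)) := by
  classical
  set I := Finset.Ico (3 ^ j) (3 ^ (j + 1)) with hI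
  set E : Finset ((Fin r → (ℕ × ℕ) × ℕ) × (Fin r → (ℕ × ℕ) × ℕ)) :=
    (Om r B ×ˢ Om r B).filter (fun z => DD B z.1 = DD B z.2) with hE
  set F : Finset ((Fin r → (ℕ × ℕ) × ℕ) × (Fin r → (ℕ × ℕ) × ℕ)) :=
    (Om r B ×ˢ Om r B).filter (fun z => ¬ DD B z.1 = DD B z.2) with hF
  have hsplit : ∀ q : ℕ, WW q r B ≤ E.card + (F.filter (fun z => (q : ℤ) ∣ DD B z.1 - DD B z.2)).card := by
    intro q
    unfold WW
    have : (Om r B ×ˢ Om r B).filter (fun z => (q : ℤ) ∣ DD B z.1 - DD B z.2) ⊆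
        E ∪ F.filter (fun z => (q : ℤ) ∣ DD B z.1 - DD B z.2) := by
      intro z hz
      rw [Finset.mem_filter] at hz
      rw [Finset.mem_union, hE, hF, Finset.mem_filter, Finset.mem_filter, Finset.mem_filter]
      by_cases h : DD B z.1 = DD B z.2
      · left; exact ⟨hz.1, h⟩
      · right; exact ⟨⟨hz.1, h⟩, hz.2⟩
    exact (Finset.card_le_card this).trans (Finset.card_union_le _ _)
  have hIcard : I.card ≤ 3 ^ (j + 1) := by
    rw [hI, Nat.card_Ico]
    exact Nat.sub_le _ _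
  have hsum : ∑ q ∈ I, (F.filter (fun z => (q : ℤ) ∣ DD B z.1 - DD B z.2)).card ≤
      ∑ z ∈ F, (DD B z.1 - DD B z.2).natAbs.divisors.card := by
    have h1 : ∑ q ∈ I, (F.filter (fun z => (q : ℤ) ∣ DD B z.1 - DD B z.2)).card =
        ∑ z ∈ F, (I.filter (fun q : ℕ => (q : ℤ) ∣ DD B z.1 - DD B z.2)).card := by
      simp only [Finset.card_filter]
      rw [Finset.sum_comm]
    rw [h1]
    apply Finset.sum_le_sum
    intro z hz
    apply Finset.card_le_card
    intro q hq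
    rw [Finset.mem_filter] at hq
    rw [Nat.mem_divisors]
    rw [hF, Finset.mem_filter] at hz
    refine ⟨?_, ?_⟩
    · exact Int.natCast_dvd.mp hq.2
    · intro h0
      apply hz.2
      have := Int.natAbs_eq_zero.mp h0
      linarith
  have hFdiv : ∀ z ∈ F, (((DD B z.1 - DD B z.2).natAbs.divisors.card : ℕ) : ℝ) ≤
      C * (2 * 3 ^ (r * (B + 3))) ^ δ := by
    intro z hz
    rw [hF, Finset.mem_filter, Finset.mem_product] at hz
    have h0 : (DD B z.1 - DD B z.2).natAbs ≠ 0 := by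
      intro h0
      apply hz.2
      have := Int.natAbs_eq_zero.mp h0
      linarith
    refine (hdiv _ h0).trans ?_
    apply mul_le_mul_of_nonneg_left _ (by linarith)
    apply Real.rpow_le_rpow (by positivity) _ hδ.le
    have h1 : |DD B z.1 - DD B z.2| ≤ 2 * 3 ^ (r * (B + 3)) := by
      have h2 := DD_abs hz.1.1
      have h3 := DD_abs hz.1.2
      rw [abs_le] at h2 h3 ⊢
      constructor <;> linarith [h2.1, h2.2, h3.1, h3.2]
    have h4 : (((DD B z.1 - DD B z.2).natAbs : ℕ) : ℝ) = ((|DD B z.1 - DD B z.2| : ℤ) : ℝ) := by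
      rw [Int.abs_eq_natAbs, Int.cast_natCast]
    rw [h4]
    have : ((|DD B z.1 - DD B z.2| : ℤ) : ℝ) ≤ ((2 * 3 ^ (r * (B + 3)) : ℤ) : ℝ) := by
      exact_mod_cast h1
    refine this.trans_eq ?_
    push_cast
    rfl
  have hFcard : (F.card : ℝ) ≤ ((Om r B).card : ℝ) ^ 2 := by
    have : F.card ≤ (Om r B).card * (Om r B).card := by
      rw [← Finset.card_product]
      exact Finset.card_le_card (Finset.filter_subset _ _)
    rw [sq]
    exact_mod_cast this
  have hbig : (∑ q ∈ I, (WW q r B : ℝ)) ≤ 3 ^ (j + 1) * ((Om r B).card * 56 ^ r) +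
        ((Om r B).card : ℝ) ^ 2 * (C * (2 * 3 ^ (r * (B + 3))) ^ δ) := by
    calc (∑ q ∈ I, (WW q r B : ℝ)) ≤ ∑ q ∈ I, ((E.card : ℝ) +
          ((F.filter (fun z => (q : ℤ) ∣ DD B z.1 - DD B z.2)).card : ℝ)) := by
          apply Finset.sum_le_sum
          intro q _
          exact_mod_cast hsplit q
      _ = I.card * (E.card : ℝ) +
          ((∑ q ∈ I, (F.filter (fun z => (q : ℤ) ∣ DD B z.1 - DD B z.2)).card : ℕ) : ℝ) := by
          rw [Finset.sum_add_distrib, Finset.sum_const, nsmul_eq_mul]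
          push_cast
          rfl
      _ ≤ 3 ^ (j + 1) * ((Om r B).card * 56 ^ r) +
          ((∑ z ∈ F, (DD B z.1 - DD B z.2).natAbs.divisors.card : ℕ) : ℝ) := by
          apply add_le_add
          · apply mul_le_mul
            · exact_mod_cast hIcard
            · have := diag r B
              exact_mod_cast this
            · positivity
            · positivity
          · exact_mod_cast hsum
      _ ≤ 3 ^ (j + 1) * ((Om r B).card * 56 ^ r) +
        ((Om r B).card : ℝ) ^ 2 * (C * (2 * 3 ^ (r * (B + 3))) ^ δ) := by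
          apply add_le_add le_rfl
          push_cast
          calc ∑ z ∈ F, (((DD B z.1 - DD B z.2).natAbs.divisors.card : ℕ) : ℝ) ≤
              ∑ z ∈ F, C * (2 * 3 ^ (r * (B + 3))) ^ δ := Finset.sum_le_sum hFdiv
            _ = F.card * (C * (2 * 3 ^ (r * (B + 3))) ^ δ) := by
                rw [Finset.sum_const, nsmul_eq_mul]
            _ ≤ _ := by
                apply mul_le_mul_of_nonneg_right hFcard
                have : 0 ≤ C := by linarith
                positivity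
  calc ∑ q ∈ I, (q : ℝ) * WW q r B ≤ ∑ q ∈ I, (3 : ℝ) ^ (j + 1) * WW q r B := by
        apply Finset.sum_le_sum
        intro q hq
        apply mul_le_mul_of_nonneg_right _ (by positivity)
        rw [hI, Finset.mem_Ico] at hq
        exact_mod_cast hq.2.le
    _ = 3 ^ (j + 1) * ∑ q ∈ I, (WW q r B : ℝ) := by rw [Finset.mul_sum]
    _ ≤ _ := mul_le_mul_of_nonneg_left hbig (by positivity)

end Pool.Agent.Work.MP_aac176_nt
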