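import Mathlib

set_option autoImplicit false

namespace Pool.Agent.Work.MP_aac176_nt

open Real Finset

/-- three points on a circle: the norms. -/
lemma three_norms (z w u v : ℂ) (hu : ‖u‖ = 1) (hv : ‖v‖ = 1) (huv : 1 + u + v = 0) (m : ℕ) :
    ‖z + w‖ ^ (2 * m) + ‖z + u * w‖ ^ (2 * m) + ‖z + v * w‖ ^ (2 * m) ≤
      (‖z‖ + ‖w‖) ^ (2 * m) + 2 * (‖z‖ ^ 2 + ‖w‖ ^ 2 + ‖z‖ * ‖w‖) ^ m := by
  set x0 : ℝ := ‖z + w‖ ^ 2 with hx0
  set x1 : ℝ := ‖z + u * w‖ ^ 2 with hx1
  set x2 : ℝ := ‖z + v * w‖ ^ 2 with hx2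
  set A : ℝ := ‖z‖ ^ 2 + ‖w‖ ^ 2 with hA
  set B : ℝ := ‖z‖ * ‖w‖ with hB
  have hsum : x0 + x1 + x2 = 3 * A := by
    have h1 : ∀ t : ℂ, ‖t‖ = 1 → ‖z + t * w‖ ^ 2 =
        ‖z‖ ^ 2 + ‖w‖ ^ 2 + 2 * (z * (starRingEnd ℂ) (t * w)).re := by
      intro t ht
      rw [Complex.sq_norm, Complex.normSq_add, ← Complex.sq_norm, ← Complex.sq_norm, norm_mul, ht,
        one_mul]
    have h0 := h1 1 (by simp)
    rw [one_mul] at h0
    rw [hx0, hx1, hx2, h0, h1 u hu, h1 v hv]
    have h2 : (z * (starRingEnd ℂ) w).re + (z * (starRingEnd ℂ) (u * w)).re +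
        (z * (starRingEnd ℂ) (v * w)).re = 0 := by
      rw [← Complex.add_re, ← Complex.add_re, ← mul_add, ← mul_add, ← map_add, ← map_add]
      have : w + u * w + v * w = (1 + u + v) * w := by ring
      rw [this, huv]
      simp
    rw [hA]
    linarith
  have hlow : ∀ t : ℂ, ‖t‖ = 1 → A - 2 * B ≤ ‖z + t * w‖ ^ 2 := by
    intro t ht
    have h1 : |‖z‖ - ‖w‖| ≤ ‖z + t * w‖ := by
      have := abs_norm_sub_norm_le z (-(t * w))
      rw [norm_neg, norm_mul, ht, one_mul, sub_neg_eq_add] at this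
      exact this
    have h2 : (‖z‖ - ‖w‖) ^ 2 ≤ ‖z + t * w‖ ^ 2 := by
      rw [← sq_abs (‖z‖ - ‖w‖)]
      exact pow_le_pow_left₀ (abs_nonneg _) h1 2
    have : A - 2 * B = (‖z‖ - ‖w‖) ^ 2 := by rw [hA, hB]; ring
    rw [this]; exact h2
  have hup : ∀ t : ℂ, ‖t‖ = 1 → (‖z + t * w‖ ^ 2) ^ m ≤ (‖z‖ + ‖w‖) ^ (2 * m) := by
    intro t ht
    rw [← pow_mul]
    apply pow_le_pow_left₀ (norm_nonneg _)
    refine (norm_add_le _ _).trans ?_
    rw [norm_mul, ht, one_mul]
  have l0 : A - 2 * B ≤ x0 := by simpa using hlow 1 (by simp)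
  have l1 : A - 2 * B ≤ x1 := hlow u hu
  have l2 : A - 2 * B ≤ x2 := hlow v hv
  have u0 : x0 ^ m ≤ (‖z‖ + ‖w‖) ^ (2 * m) := by simpa using hup 1 (by simp)
  have u1 : x1 ^ m ≤ (‖z‖ + ‖w‖) ^ (2 * m) := hup u hu
  have u2 : x2 ^ m ≤ (‖z‖ + ‖w‖) ^ (2 * m) := hup v hv
  have p0 : 0 ≤ x0 := by positivity
  have p1 : 0 ≤ x1 := by positivity
  have p2 : 0 ≤ x2 := by positivity
  rw [pow_mul ‖z + w‖, pow_mul ‖z + u * w‖, pow_mul ‖z + v * w‖]
  change x0 ^ m + x1 ^ m + x2 ^ m ≤ (‖z‖ + ‖w‖) ^ (2 * m) + 2 * (A + B) ^ m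
  by_cases h0 : x0 ≤ A + B
  · by_cases h1 : x1 ≤ A + B
    · have e0 := pow_le_pow_left₀ p0 h0 m
      have e1 := pow_le_pow_left₀ p1 h1 m
      linarith
    · have h2 : x2 ≤ A + B := by
        by_contra h2
        push Not at h1 h2
        linarith
      have e0 := pow_le_pow_left₀ p0 h0 m
      have e2 := pow_le_pow_left₀ p2 h2 m
      linarith
  · have h1 : x1 ≤ A + B := by
      by_contra h1
      push Not at h0 h1
      linarith
    have h2 : x2 ≤ A + B := by
      by_contra h2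
      push Not at h0 h2
      linarith
    have e1 := pow_le_pow_left₀ p1 h1 m
    have e2 := pow_le_pow_left₀ p2 h2 m
    linarith

lemma entropy_choice (s : ℝ) (hs0 : 0 < s) (hs : s < Real.log 3 / Real.log 2) (η : ℝ)
    (hη : 0 < η) :
    ∃ m0 : ℕ, ∀ m : ℕ, m0 ≤ m → ∀ θ : ℝ, 0 ≤ θ → θ ≤ 1 →
      1 + 2 * (1 - θ * (1 - θ)) ^ m ≤ 3 * (1 + η) * Real.exp (-(s * Real.binEntropy θ)) := by
  have hlog : 0 < Real.log 2 := Real.log_pos (by norm_num)
  set κ : ℝ := (3 * Real.exp (-(s * Real.log 2)) - 1) / 2 with hκ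
  have hκpos : 0 < κ := by
    have h1 : s * Real.log 2 < Real.log 3 := by rwa [lt_div_iff₀ hlog] at hs
    have h2 : Real.exp (-(Real.log 3)) < Real.exp (-(s * Real.log 2)) := by
      apply Real.exp_lt_exp.mpr
      linarith
    rw [Real.exp_neg, Real.exp_log (by norm_num)] at h2
    rw [hκ]
    linarith
  set c : ℝ := Real.log (1 + η) / s with hc
  have hcpos : 0 < c := div_pos (Real.log_pos (by linarith)) hs0
  have hsmall : ∀ m : ℕ, ∀ θ : ℝ, 0 ≤ θ → θ ≤ 1 → Real.binEntropy θ ≤ c →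
      1 + 2 * (1 - θ * (1 - θ)) ^ m ≤ 3 * (1 + η) * Real.exp (-(s * Real.binEntropy θ)) := by
    intro m θ h0 h1 h2
    have h3 : (1 - θ * (1 - θ)) ^ m ≤ 1 := by
      apply pow_le_one₀
      · nlinarith
      · nlinarith
    have h4 : (1 + η)⁻¹ ≤ Real.exp (-(s * Real.binEntropy θ)) := by
      have h5 : s * Real.binEntropy θ ≤ Real.log (1 + η) := by
        rw [hc, le_div_iff₀ hs0] at h2
        linarith
      calc (1 + η)⁻¹ = Real.exp (-(Real.log (1 + η))) := by
            rw [Real.exp_neg, Real.exp_log (by linarith)]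
        _ ≤ _ := by
            apply Real.exp_le_exp.mpr
            linarith
    have h5 : 3 ≤ 3 * (1 + η) * Real.exp (-(s * Real.binEntropy θ)) := by
      calc (3 : ℝ) = 3 * (1 + η) * (1 + η)⁻¹ := by field_simp
        _ ≤ _ := by
            apply mul_le_mul_of_nonneg_left h4 (by linarith)
    linarith
  set S : Set ℝ := Set.Icc 0 1 ∩ {θ | c ≤ Real.binEntropy θ} with hS
  have hScomp : IsCompact S := by
    apply isCompact_Icc.inter_right
    exact isClosed_le continuous_const Real.binEntropy_continuous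
  by_cases hne : S.Nonempty
  · obtain ⟨θ0, hθ0, hmin⟩ := hScomp.exists_isMinOn hne
      (f := fun θ => θ * (1 - θ)) (by fun_prop)
    set δ : ℝ := θ0 * (1 - θ0) with hδ
    have hθ00 : θ0 ≠ 0 := by
      intro h
      have := hθ0.2
      rw [h] at this
      simp only [Set.mem_setOf_eq, Real.binEntropy_zero] at this
      linarith
    have hθ01 : θ0 ≠ 1 := by
      intro h
      have := hθ0.2
      rw [h] at this
      simp only [Set.mem_setOf_eq, Real.binEntropy_one] at this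
      linarith
    have hδpos : 0 < δ := by
      have h1 : 0 < θ0 := lt_of_le_of_ne hθ0.1.1 (Ne.symm hθ00)
      have h2 : θ0 < 1 := lt_of_le_of_ne hθ0.1.2 hθ01
      rw [hδ]
      apply mul_pos h1
      linarith
    have hδ1 : δ ≤ 1 := by
      have h1 := hθ0.1.1
      have h2 := hθ0.1.2
      rw [hδ]; nlinarith
    obtain ⟨m0, hm0⟩ := exists_pow_lt_of_lt_one hκpos (show 1 - δ < 1 by linarith)
    refine ⟨m0, ?_⟩
    intro m hm θ h0 h1
    by_cases h2 : Real.binEntropy θ ≤ c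
    · exact hsmall m θ h0 h1 h2
    · push Not at h2
      have hmem : θ ∈ S := ⟨⟨h0, h1⟩, h2.le⟩
      have h3 : δ ≤ θ * (1 - θ) := hmin hmem
      have h4 : (1 - θ * (1 - θ)) ^ m ≤ κ := by
        calc (1 - θ * (1 - θ)) ^ m ≤ (1 - δ) ^ m := by
              apply pow_le_pow_left₀
              · nlinarith
              · linarith
          _ ≤ (1 - δ) ^ m0 := pow_le_pow_of_le_one (by linarith) (by linarith) hm
          _ ≤ κ := hm0.le
      have h5 : Real.exp (-(s * Real.log 2)) ≤ Real.exp (-(s * Real.binEntropy θ)) := by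
        apply Real.exp_le_exp.mpr
        have := Real.binEntropy_le_log_two (p := θ)
        nlinarith
      calc 1 + 2 * (1 - θ * (1 - θ)) ^ m ≤ 1 + 2 * κ := by linarith
        _ = 3 * Real.exp (-(s * Real.log 2)) := by rw [hκ]; ring
        _ ≤ 3 * Real.exp (-(s * Real.binEntropy θ)) := by linarith
        _ ≤ 3 * (1 + η) * Real.exp (-(s * Real.binEntropy θ)) := by
            have := Real.exp_pos (-(s * Real.binEntropy θ))
            nlinarith
  · refine ⟨0, ?_⟩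
    intro m _ θ h0 h1
    apply hsmall m θ h0 h1
    by_contra h2
    push Not at h2
    exact hne ⟨θ, ⟨h0, h1⟩, h2.le⟩

/-- lower bound for the power mean. -/
lemma power_lower (α β s P : ℝ) (hα : 0 < α) (hβ : 0 < β) (m : ℕ) (hP : 0 < P)
    (hPs : P = 2 * m - s) :
    (α + β) ^ (2 * m) * Real.exp (-(s * Real.binEntropy (β / (α + β)))) ≤
      (α ^ (2 * m / P) + β ^ (2 * m / P)) ^ P := by
  set σ : ℝ := α + β with hσ
  have hσpos : 0 < σ := by positivity
  set θ : ℝ := β / σ with hθ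
  have hθ0 : 0 < θ := by positivity
  have hθ1 : 1 - θ = α / σ := by
    rw [hθ, hσ]; field_simp; ring
  have hθ1' : 0 < 1 - θ := by rw [hθ1]; positivity
  set p : ℝ := 2 * m / P with hp
  have hlogα : Real.log α = Real.log σ + Real.log (1 - θ) := by
    rw [← Real.log_mul hσpos.ne' hθ1'.ne', hθ1]
    congr 1
    field_simp
  have hlogβ : Real.log β = Real.log σ + Real.log θ := by
    rw [← Real.log_mul hσpos.ne' hθ0.ne', hθ]
    congr 1
    field_simp
  have hag := Real.geom_mean_le_arith_mean2_weighted (w₁ := 1 - θ) (w₂ := θ)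
    (p₁ := α ^ p / (1 - θ)) (p₂ := β ^ p / θ) hθ1'.le hθ0.le (by positivity) (by positivity)
    (by ring)
  have h1 : (1 - θ) * (α ^ p / (1 - θ)) + θ * (β ^ p / θ) = α ^ p + β ^ p := by
    field_simp
  rw [h1] at hag
  have h2 : Real.log ((α ^ p / (1 - θ)) ^ (1 - θ) * (β ^ p / θ) ^ θ) =
      p * Real.log σ - (p - 1) * Real.binEntropy θ := by
    rw [Real.log_mul (by positivity) (by positivity), Real.log_rpow (by positivity),
      Real.log_rpow (by positivity), Real.log_div (by positivity) (by positivity),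
      Real.log_div (by positivity) (by positivity), Real.log_rpow hα, Real.log_rpow hβ, hlogα,
      hlogβ, Real.binEntropy, Real.log_inv, Real.log_inv]
    ring
  have h3 : p * Real.log σ - (p - 1) * Real.binEntropy θ ≤ Real.log (α ^ p + β ^ p) := by
    rw [← h2]
    apply Real.log_le_log (by positivity) hag
  have hPp : P * p = 2 * m := by
    rw [hp]; field_simp
  have h4 : (α + β) ^ (2 * m) * Real.exp (-(s * Real.binEntropy θ)) =
      Real.exp (P * (p * Real.log σ - (p - 1) * Real.binEntropy θ)) := by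
    have h5 : P * (p * Real.log σ - (p - 1) * Real.binEntropy θ) =
        ((2 * m : ℕ) : ℝ) * Real.log σ + -(s * Real.binEntropy θ) := by
      push_cast
      linear_combination (Real.log σ - Real.binEntropy θ) * hPp + Real.binEntropy θ * hPs
    rw [h5, Real.exp_add, ← Real.log_pow, Real.exp_log (by positivity)]
  rw [h4, Real.rpow_def_of_pos (by positivity)]
  apply Real.exp_le_exp.mpr
  rw [mul_comm (Real.log _) P]
  exact mul_le_mul_of_nonneg_left h3 hP.le

theorem two_point (s : ℝ) (hs0 : 0 < s) (hs : s < Real.log 3 / Real.log 2) (η : ℝ)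
    (hη : 0 < η) :
    ∃ m0 : ℕ, ∀ m : ℕ, m0 ≤ m → ∀ P : ℝ, P = 2 * m - s → 0 < P → ∀ (z w u v : ℂ),
      ‖u‖ = 1 → ‖v‖ = 1 → 1 + u + v = 0 →
      (‖z + w‖ ^ (2 * m) + ‖z + u * w‖ ^ (2 * m) + ‖z + v * w‖ ^ (2 * m)) / 3 ≤
        (1 + η) * (‖z‖ ^ (2 * m / P) + ‖w‖ ^ (2 * m / P)) ^ P := by
  obtain ⟨m0, hm0⟩ := entropy_choice s hs0 hs η hη
  refine ⟨max m0 1, ?_⟩
  intro m hm P hPs hP z w u v hu hv huv
  have hm1 : 1 ≤ m := le_trans (le_max_right _ _) hm
  have hm0' : m0 ≤ m := le_trans (le_max_left _ _) hm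
  have hPp : (2 * m / P) * P = ((2 * m : ℕ) : ℝ) := by
    push_cast; field_simp
  have hppos : 0 < 2 * (m : ℝ) / P := by
    have : (0 : ℝ) < m := by exact_mod_cast hm1
    positivity
  rcases eq_or_lt_of_le (norm_nonneg z) with hz | hz
  · have hz' : z = 0 := by rwa [eq_comm, norm_eq_zero] at hz
    subst hz'
    simp only [zero_add, norm_mul, hu, hv, one_mul, norm_zero]
    rw [Real.zero_rpow hppos.ne', zero_add, ← Real.rpow_mul (norm_nonneg _), hPp,
      Real.rpow_natCast]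
    have : 0 ≤ ‖w‖ ^ (2 * m) := by positivity
    nlinarith
  rcases eq_or_lt_of_le (norm_nonneg w) with hw | hw
  · have hw' : w = 0 := by rwa [eq_comm, norm_eq_zero] at hw
    subst hw'
    simp only [mul_zero, add_zero, norm_zero]
    rw [Real.zero_rpow hppos.ne', add_zero, ← Real.rpow_mul (norm_nonneg _), hPp,
      Real.rpow_natCast]
    have : 0 ≤ ‖z‖ ^ (2 * m) := by positivity
    nlinarith
  have h1 := three_norms z w u v hu hv huv m
  have h2 := power_lower ‖z‖ ‖w‖ s P hz hw m hP hPs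
  set α := ‖z‖
  set β := ‖w‖
  set θ : ℝ := β / (α + β) with hθ
  have hθ0 : 0 ≤ θ := by positivity
  have hθ1 : θ ≤ 1 := by
    rw [hθ, div_le_one (by positivity)]
    linarith
  have h3 := hm0 m hm0' θ hθ0 hθ1
  have h4 : α ^ 2 + β ^ 2 + α * β = (α + β) ^ 2 * (1 - θ * (1 - θ)) := by
    rw [hθ]; field_simp; ring
  have h5 : (α ^ 2 + β ^ 2 + α * β) ^ m = (α + β) ^ (2 * m) * (1 - θ * (1 - θ)) ^ m := by
    rw [h4, mul_pow, ← pow_mul]
  rw [h5] at h1
  have hpos : 0 < (α + β) ^ (2 * m) := by positivity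
  calc (‖z + w‖ ^ (2 * m) + ‖z + u * w‖ ^ (2 * m) + ‖z + v * w‖ ^ (2 * m)) / 3
      ≤ (α + β) ^ (2 * m) * ((1 + 2 * (1 - θ * (1 - θ)) ^ m) / 3) := by linarith
    _ ≤ (α + β) ^ (2 * m) * ((1 + η) * Real.exp (-(s * Real.binEntropy θ))) := by
        apply mul_le_mul_of_nonneg_left _ hpos.le
        linarith
    _ = (1 + η) * ((α + β) ^ (2 * m) * Real.exp (-(s * Real.binEntropy θ))) := by ring
    _ ≤ _ := by
        apply mul_le_mul_of_nonneg_left h2 (by linarith)

end Pool.Agent.Work.MP_aac176_nt
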