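import Pool.Agent.Work.MP_aac176_nt.Expo
import Pool.Agent.Work.MP_aac176_nt.TwoPoint

set_option autoImplicit false

namespace Pool.Agent.Work.MP_aac176_nt

open Real Finset

/-- integers whose ternary digits are 0 or 1, with at most `n` digits. -/
def dset : ℕ → Finset ℕ
  | 0 => {0}
  | n + 1 => (dset n).image (fun a => 3 * a) ∪ (dset n).image (fun a => 3 * a + 1)

lemma sum_split {β : Type*} [AddCommMonoid β] (n : ℕ) (A : Finset ℕ) (hA : A ⊆ dset (n + 1))
    (g : ℕ → β) :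
    ∑ a ∈ A, g a = ∑ a ∈ (dset n).filter (fun a => 3 * a ∈ A), g (3 * a) +
      ∑ a ∈ (dset n).filter (fun a => 3 * a + 1 ∈ A), g (3 * a + 1) := by
  classical
  have h1 : A = ((dset n).filter (fun a => 3 * a ∈ A)).image (fun a => 3 * a) ∪
      ((dset n).filter (fun a => 3 * a + 1 ∈ A)).image (fun a => 3 * a + 1) := by
    ext x
    constructor
    · intro hx
      have := hA hx
      rw [dset, Finset.mem_union, Finset.mem_image, Finset.mem_image] at this
      rw [Finset.mem_union, Finset.mem_image, Finset.mem_image]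
      rcases this with ⟨a, ha, rfl⟩ | ⟨a, ha, rfl⟩
      · left; exact ⟨a, Finset.mem_filter.mpr ⟨ha, hx⟩, rfl⟩
      · right; exact ⟨a, Finset.mem_filter.mpr ⟨ha, hx⟩, rfl⟩
    · intro hx
      rw [Finset.mem_union, Finset.mem_image, Finset.mem_image] at hx
      rcases hx with ⟨a, ha, rfl⟩ | ⟨a, ha, rfl⟩
      · exact (Finset.mem_filter.mp ha).2
      · exact (Finset.mem_filter.mp ha).2
  have hdisj : Disjoint (((dset n).filter (fun a => 3 * a ∈ A)).image (fun a => 3 * a))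
      (((dset n).filter (fun a => 3 * a + 1 ∈ A)).image (fun a => 3 * a + 1)) := by
    rw [Finset.disjoint_left]
    intro x hx hx'
    rw [Finset.mem_image] at hx hx'
    obtain ⟨a, _, rfl⟩ := hx
    obtain ⟨b, _, hb⟩ := hx'
    omega
  conv_lhs => rw [h1]
  rw [Finset.sum_union hdisj, Finset.sum_image, Finset.sum_image]
  · intro a _ b _ hab
    simp only at hab
    omega
  · intro a _ b _ hab
    simp only at hab
    omega

lemma card_split (n : ℕ) (A : Finset ℕ) (hA : A ⊆ dset (n + 1)) :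
    A.card = ((dset n).filter (fun a => 3 * a ∈ A)).card +
      ((dset n).filter (fun a => 3 * a + 1 ∈ A)).card := by
  have := sum_split n A hA (fun _ => 1)
  simpa using this

/-- the exponential sum. -/
noncomputable def FF (n : ℕ) (A : Finset ℕ) (θ : ℕ) : ℂ :=
  ∑ a ∈ A, e (a * (θ / ((3 ^ n : ℕ) : ℝ)))

lemma FF_period (n : ℕ) (A : Finset ℕ) (θ : ℕ) : FF n A (3 ^ n + θ) = FF n A θ := by
  unfold FF
  apply Finset.sum_congr rfl
  intro a _
  have h : ((3 ^ n : ℕ) : ℝ) ≠ 0 := by positivity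
  have : (a : ℝ) * (((3 ^ n + θ : ℕ) : ℝ) / ((3 ^ n : ℕ) : ℝ)) =
      (a : ℝ) + a * (θ / ((3 ^ n : ℕ) : ℝ)) := by
    push_cast
    push_cast at h
    field_simp
  rw [this, e_add, e_nat, one_mul]

lemma FF_split (n : ℕ) (A : Finset ℕ) (hA : A ⊆ dset (n + 1)) (θ : ℕ) :
    FF (n + 1) A θ = FF n ((dset n).filter (fun a => 3 * a ∈ A)) θ +
      e (θ / ((3 ^ (n + 1) : ℕ) : ℝ)) * FF n ((dset n).filter (fun a => 3 * a + 1 ∈ A)) θ := by
  unfold FF
  rw [sum_split n A hA, Finset.mul_sum]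
  have h : ((3 ^ n : ℕ) : ℝ) ≠ 0 := by positivity
  push_cast at h
  congr 1
  · apply Finset.sum_congr rfl
    intro a _
    congr 1
    push_cast
    rw [pow_succ]
    field_simp
  · apply Finset.sum_congr rfl
    intro a _
    rw [← e_add]
    congr 1
    push_cast
    rw [pow_succ]
    field_simp
    ring

lemma e_third_norm (k : ℕ) : ‖e (k / 3)‖ = 1 := norm_e _

lemma e_third_sum : 1 + e (1 / 3) + e (2 / 3) = 0 := by
  have h := orth 3 (by norm_num) 1
  rw [if_neg (by norm_num)] at h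
  rw [Finset.sum_range_succ, Finset.sum_range_succ, Finset.sum_range_one] at h
  push_cast at h
  rw [zero_mul, e_zero, one_mul] at h
  have h2 : (2 : ℝ) * (1 / 3) = 2 / 3 := by norm_num
  rw [h2] at h
  exact h

lemma range_three (N : ℕ) (G : ℕ → ℝ) :
    ∑ θ ∈ range (3 * N), G θ = ∑ θ ∈ range N, (G θ + G (N + θ) + G (N + (N + θ))) := by
  have h1 : 3 * N = N + (N + N) := by ring
  rw [h1, Finset.sum_range_add, Finset.sum_range_add, ← Finset.sum_add_distrib,
    ← Finset.sum_add_distrib]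
  apply Finset.sum_congr rfl
  intro θ _
  ring

theorem energy (m : ℕ) (hm : 1 ≤ m) (P η : ℝ) (hP : 1 ≤ P) (hη : 0 < η)
    (htp : ∀ (z w u v : ℂ), ‖u‖ = 1 → ‖v‖ = 1 → 1 + u + v = 0 →
      (‖z + w‖ ^ (2 * m) + ‖z + u * w‖ ^ (2 * m) + ‖z + v * w‖ ^ (2 * m)) / 3 ≤
        (1 + η) * (‖z‖ ^ (2 * m / P) + ‖w‖ ^ (2 * m / P)) ^ P) :
    ∀ n : ℕ, ∀ A : Finset ℕ, A ⊆ dset n →
      ∑ θ ∈ range (3 ^ n), ‖FF n A θ‖ ^ (2 * m) ≤ 3 ^ n * (1 + η) ^ n * (A.card : ℝ) ^ P := by
  intro n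
  induction n with
  | zero =>
    intro A hA
    rw [pow_zero, Finset.sum_range_one, pow_zero, pow_zero, one_mul, one_mul]
    have hcard : A.card ≤ 1 := by
      have := Finset.card_le_card hA
      simpa [dset] using this
    have hF : FF 0 A 0 = A.card := by
      unfold FF
      have : ∀ a ∈ A, e (a * (((0 : ℕ) : ℝ) / ((3 ^ 0 : ℕ) : ℝ))) = 1 := by
        intro a _
        simp [e_zero]
      rw [Finset.sum_congr rfl this]
      simp
    rw [hF]
    interval_cases h : A.card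
    · simp only [Nat.cast_zero, norm_zero]
      rw [zero_pow (by omega), Real.zero_rpow (by linarith)]
    · simp
  | succ n ih =>
    intro A hA
    set A0 := (dset n).filter (fun a => 3 * a ∈ A) with hA0
    set A1 := (dset n).filter (fun a => 3 * a + 1 ∈ A) with hA1
    have hcard := card_split n A hA
    have ih0 := ih A0 (Finset.filter_subset _ _)
    have ih1 := ih A1 (Finset.filter_subset _ _)
    have hPpos : 0 < P := by linarith
    set N : ℕ := 3 ^ n with hN
    have hNpos : (0 : ℝ) < (N : ℝ) := by positivity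
    have hpow : 3 ^ (n + 1) = 3 * N := by rw [hN, pow_succ]; ring
    set p : ℝ := 2 * m / P with hp
    -- the three values
    have hthree : ∀ θ ∈ range N, ‖FF (n + 1) A θ‖ ^ (2 * m) + ‖FF (n + 1) A (N + θ)‖ ^ (2 * m) +
        ‖FF (n + 1) A (N + (N + θ))‖ ^ (2 * m) ≤
        3 * ((1 + η) * (‖FF n A0 θ‖ ^ p + ‖FF n A1 θ‖ ^ p) ^ P) := by
      intro θ _
      set z := FF n A0 θ with hz
      set w := e (θ / ((3 ^ (n + 1) : ℕ) : ℝ)) * FF n A1 θ with hw
      have hNr : ((3 ^ n : ℕ) : ℝ) ≠ 0 := by positivity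
      push_cast at hNr
      have f0 : FF (n + 1) A θ = z + w := FF_split n A hA θ
      have f1 : FF (n + 1) A (N + θ) = z + e (1 / 3) * w := by
        rw [FF_split n A hA (N + θ), hN, FF_period, FF_period, hz, hw, ← mul_assoc, ← e_add]
        congr 3
        push_cast
        rw [pow_succ]
        field_simp
      have f2 : FF (n + 1) A (N + (N + θ)) = z + e (2 / 3) * w := by
        rw [FF_split n A hA (N + (N + θ)), hN, FF_period, FF_period, FF_period, FF_period, hz, hw,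
          ← mul_assoc, ← e_add]
        congr 3
        push_cast
        rw [pow_succ]
        field_simp
        ring
      have := htp z w (e (1 / 3)) (e (2 / 3)) (norm_e _) (norm_e _) e_third_sum
      rw [f0, f1, f2]
      have hwn : ‖w‖ = ‖FF n A1 θ‖ := by
        rw [hw, norm_mul, norm_e, one_mul]
      rw [hwn] at this
      linarith
    rw [hpow, range_three]
    have hmink := Real.Lp_add_le_of_nonneg (range N) (f := fun θ => ‖FF n A0 θ‖ ^ p)
      (g := fun θ => ‖FF n A1 θ‖ ^ p) hP (fun _ _ => by positivity) (fun _ _ => by positivity)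
    have hpP : p * P = ((2 * m : ℕ) : ℝ) := by
      rw [hp]; push_cast; field_simp
    have hpw : ∀ B : Finset ℕ, ∀ θ : ℕ, (‖FF n B θ‖ ^ p) ^ P = ‖FF n B θ‖ ^ (2 * m) := by
      intro B θ
      rw [← Real.rpow_mul (norm_nonneg _), hpP, Real.rpow_natCast]
    simp only [hpw] at hmink
    set c : ℝ := (N : ℝ) * (1 + η) ^ n with hc
    have hcpos : 0 < c := by positivity
    have hih : ∀ B : Finset ℕ, ∑ θ ∈ range N, ‖FF n B θ‖ ^ (2 * m) ≤ c * (B.card : ℝ) ^ P →
        (∑ θ ∈ range N, ‖FF n B θ‖ ^ (2 * m)) ^ (1 / P) ≤ c ^ (1 / P) * B.card := by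
      intro B hB
      calc (∑ θ ∈ range N, ‖FF n B θ‖ ^ (2 * m)) ^ (1 / P) ≤ (c * (B.card : ℝ) ^ P) ^ (1 / P) := by
            apply Real.rpow_le_rpow _ hB (by positivity)
            exact Finset.sum_nonneg (fun _ _ => by positivity)
        _ = c ^ (1 / P) * B.card := by
            rw [Real.mul_rpow hcpos.le (by positivity), ← Real.rpow_mul (by positivity)]
            rw [mul_one_div_cancel hPpos.ne', Real.rpow_one]
    have hcN : ((3 : ℝ) ^ n * (1 + η) ^ n) = c := by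
      rw [hc, hN]; push_cast; ring
    rw [hcN] at ih0 ih1
    have j0 := hih A0 ih0
    have j1 := hih A1 ih1
    have hS : (∑ θ ∈ range N, (‖FF n A0 θ‖ ^ p + ‖FF n A1 θ‖ ^ p) ^ P) ≤
        c * (A.card : ℝ) ^ P := by
      have h1 : (∑ θ ∈ range N, (‖FF n A0 θ‖ ^ p + ‖FF n A1 θ‖ ^ p) ^ P) ^ (1 / P) ≤
          c ^ (1 / P) * A.card := by
        refine hmink.trans ?_
        have : (A.card : ℝ) = A0.card + A1.card := by exact_mod_cast hcard
        rw [this, mul_add]
        exact add_le_add j0 j1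
      have hnn : 0 ≤ ∑ θ ∈ range N, (‖FF n A0 θ‖ ^ p + ‖FF n A1 θ‖ ^ p) ^ P :=
        Finset.sum_nonneg (fun _ _ => by positivity)
      calc (∑ θ ∈ range N, (‖FF n A0 θ‖ ^ p + ‖FF n A1 θ‖ ^ p) ^ P)
          = ((∑ θ ∈ range N, (‖FF n A0 θ‖ ^ p + ‖FF n A1 θ‖ ^ p) ^ P) ^ (1 / P)) ^ P := by
            rw [← Real.rpow_mul hnn, one_div_mul_cancel hPpos.ne', Real.rpow_one]
        _ ≤ (c ^ (1 / P) * A.card) ^ P := by
            apply Real.rpow_le_rpow (by positivity) h1 hPpos.le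
        _ = c * (A.card : ℝ) ^ P := by
            rw [Real.mul_rpow (by positivity) (by positivity), ← Real.rpow_mul hcpos.le,
              one_div_mul_cancel hPpos.ne', Real.rpow_one]
    calc ∑ θ ∈ range N, (‖FF (n + 1) A θ‖ ^ (2 * m) + ‖FF (n + 1) A (N + θ)‖ ^ (2 * m) +
        ‖FF (n + 1) A (N + (N + θ))‖ ^ (2 * m))
        ≤ ∑ θ ∈ range N, 3 * ((1 + η) * (‖FF n A0 θ‖ ^ p + ‖FF n A1 θ‖ ^ p) ^ P) :=
          Finset.sum_le_sum hthree
      _ = 3 * (1 + η) * ∑ θ ∈ range N, (‖FF n A0 θ‖ ^ p + ‖FF n A1 θ‖ ^ p) ^ P := by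
          rw [Finset.mul_sum]
          apply Finset.sum_congr rfl
          intro _ _
          ring
      _ ≤ 3 * (1 + η) * (c * (A.card : ℝ) ^ P) := by
          apply mul_le_mul_of_nonneg_left hS (by linarith)
      _ = 3 ^ (n + 1) * (1 + η) ^ (n + 1) * (A.card : ℝ) ^ P := by
          rw [← hcN, pow_succ, pow_succ]
          ring

/-- bound for the number of coincidences modulo `3 ^ n`. -/
theorem Tq_three (m : ℕ) (hm : 1 ≤ m) (P η : ℝ) (hP : 1 ≤ P) (hη : 0 < η)
    (htp : ∀ (z w u v : ℂ), ‖u‖ = 1 → ‖v‖ = 1 → 1 + u + v = 0 →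
      (‖z + w‖ ^ (2 * m) + ‖z + u * w‖ ^ (2 * m) + ‖z + v * w‖ ^ (2 * m)) / 3 ≤
        (1 + η) * (‖z‖ ^ (2 * m / P) + ‖w‖ ^ (2 * m / P)) ^ P)
    (n : ℕ) (A : Finset ℕ) (hA : A ⊆ dset n) :
    (Tq (3 ^ n) m A : ℝ) ≤ (1 + η) ^ n * (A.card : ℝ) ^ P := by
  have h1 := energy m hm P η hP hη htp n A hA
  have h2 := sum_norm_pow (3 ^ n) (by positivity) m A
  unfold FF at h1
  rw [h2] at h1
  have h3 : (0 : ℝ) < ((3 ^ n : ℕ) : ℝ) := by positivity
  push_cast at h1 h3
  have h4 : (3 : ℝ) ^ n * (Tq (3 ^ n) m A : ℝ) ≤ 3 ^ n * ((1 + η) ^ n * (A.card : ℝ) ^ P) := by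
    linarith
  exact le_of_mul_le_mul_left h4 h3

end Pool.Agent.Work.MP_aac176_nt
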