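import Mathlib

set_option autoImplicit false

namespace Pool.Agent.Work.MP_aac176_nt

open Real Finset

/-- the additive character of the real line. -/
noncomputable def e (x : ℝ) : ℂ := Complex.exp (2 * π * x * Complex.I)

lemma e_add (x y : ℝ) : e (x + y) = e x * e y := by
  unfold e
  rw [← Complex.exp_add]
  congr 1
  push_cast
  ring

lemma e_zero : e 0 = 1 := by simp [e]

lemma norm_e (x : ℝ) : ‖e x‖ = 1 := by
  unfold e
  rw [show (2 * π * x * Complex.I : ℂ) = ((2 * π * x : ℝ) : ℂ) * Complex.I by push_cast; ring]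
  exact Complex.norm_exp_ofReal_mul_I _

lemma conj_e (x : ℝ) : (starRingEnd ℂ) (e x) = e (-x) := by
  unfold e
  rw [← Complex.exp_conj]
  congr 1
  simp only [map_mul, Complex.conj_I, Complex.conj_ofReal]
  have : (starRingEnd ℂ) 2 = 2 := by
    exact Complex.conj_ofNat 2
  rw [this]
  push_cast
  ring

lemma e_int (n : ℤ) : e n = 1 := by
  unfold e
  rw [show (2 * π * ((n : ℝ) : ℂ) * Complex.I : ℂ) = n * (2 * π * Complex.I) by push_cast; ring]
  exact Complex.exp_int_mul_two_pi_mul_I n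

lemma e_nat (n : ℕ) : e n = 1 := by
  have := e_int n
  simpa using this

lemma e_eq_one_iff (x : ℝ) : e x = 1 ↔ ∃ n : ℤ, x = n := by
  unfold e
  rw [Complex.exp_eq_one_iff]
  constructor
  · rintro ⟨n, hn⟩
    refine ⟨n, ?_⟩
    have h1 : (2 * π * Complex.I : ℂ) ≠ 0 := Complex.two_pi_I_ne_zero
    have h2 : ((x : ℂ)) = n := by
      have : (2 * π * x * Complex.I : ℂ) = x * (2 * π * Complex.I) := by ring
      rw [this] at hn
      exact mul_right_cancel₀ h1 hn
    exact_mod_cast h2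
  · rintro ⟨n, rfl⟩
    exact ⟨n, by push_cast; ring⟩

lemma e_nat_mul (k : ℕ) (x : ℝ) : e (k * x) = e x ^ k := by
  unfold e
  rw [← Complex.exp_nat_mul]
  congr 1
  push_cast
  ring

lemma e_sum {ι : Type*} (s : Finset ι) (f : ι → ℝ) : e (∑ i ∈ s, f i) = ∏ i ∈ s, e (f i) := by
  classical
  induction s using Finset.induction_on with
  | empty => simp [e_zero]
  | insert a s ha ih => rw [Finset.sum_insert ha, Finset.prod_insert ha, e_add, ih]

/-- orthogonality. -/
lemma orth (M : ℕ) (hM : 0 < M) (z : ℤ) :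
    ∑ d ∈ range M, e (d * (z / M)) = if (M : ℤ) ∣ z then (M : ℂ) else 0 := by
  have hMr : (M : ℝ) ≠ 0 := by exact_mod_cast hM.ne'
  have h1 : ∑ d ∈ range M, e (d * (z / M)) = ∑ d ∈ range M, e (z / M) ^ d := by
    apply Finset.sum_congr rfl
    intro d _
    exact e_nat_mul d _
  rw [h1]
  split_ifs with h
  · obtain ⟨c, rfl⟩ := h
    have : e (((M : ℤ) * c : ℤ) / M) = 1 := by
      push_cast
      rw [mul_div_cancel_left₀ _ hMr]
      exact e_int c
    rw [this]
    simp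
  · have hne : e (z / M) ≠ 1 := by
      intro h2
      rw [e_eq_one_iff] at h2
      obtain ⟨n, hn⟩ := h2
      apply h
      refine ⟨n, ?_⟩
      rw [div_eq_iff hMr] at hn
      have : (z : ℝ) = ((M : ℤ) * n : ℤ) := by push_cast; rw [hn]; ring
      exact_mod_cast this
    rw [geom_sum_eq hne]
    have : e (z / M) ^ M = 1 := by
      rw [← e_nat_mul, mul_div_cancel₀ _ hMr]
      exact e_int z
    rw [this]
    simp

/-- tuples with entries in `A`. -/
def tup (m : ℕ) (A : Finset ℕ) : Finset (Fin m → ℕ) := Fintype.piFinset (fun _ => A)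

/-- the sum of a tuple. -/
def sg {m : ℕ} (x : Fin m → ℕ) : ℤ := ∑ i, (x i : ℤ)

lemma card_tup (m : ℕ) (A : Finset ℕ) : (tup m A).card = A.card ^ m := by
  unfold tup
  rw [Fintype.card_piFinset]
  simp

lemma pow_expand (m : ℕ) (A : Finset ℕ) (t : ℝ) :
    (∑ a ∈ A, e (a * t)) ^ m = ∑ x ∈ tup m A, e (sg x * t) := by
  have h := Finset.prod_univ_sum (fun _ : Fin m => A) (fun _ a => e (a * t))
  rw [Finset.prod_const, Finset.card_univ, Fintype.card_fin] at h
  rw [h]
  apply Finset.sum_congr rfl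
  intro x _
  rw [← e_sum]
  congr 1
  unfold sg
  push_cast
  rw [Finset.sum_mul]

lemma norm_pow_expand (m : ℕ) (A : Finset ℕ) (t : ℝ) :
    ((‖∑ a ∈ A, e (a * t)‖ ^ (2 * m) : ℝ) : ℂ) =
      ∑ x ∈ tup m A, ∑ y ∈ tup m A, e ((sg x - sg y : ℤ) * t) := by
  have h1 : ((‖∑ a ∈ A, e (a * t)‖ ^ (2 * m) : ℝ) : ℂ) =
      (∑ a ∈ A, e (a * t)) ^ m * (starRingEnd ℂ) ((∑ a ∈ A, e (a * t)) ^ m) := by
    rw [Complex.mul_conj, Complex.normSq_eq_norm_sq, norm_pow]
    push_cast
    rw [← pow_mul, mul_comm m 2]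
  rw [h1, pow_expand, map_sum, Finset.sum_mul_sum]
  apply Finset.sum_congr rfl
  intro x _
  apply Finset.sum_congr rfl
  intro y _
  rw [conj_e, ← e_add]
  congr 1
  push_cast
  ring

/-- number of pairs of tuples with sums congruent modulo `M`. -/
noncomputable def Tq (M m : ℕ) (A : Finset ℕ) : ℕ :=
  (((tup m A) ×ˢ (tup m A)).filter (fun z => (M : ℤ) ∣ sg z.1 - sg z.2)).card

lemma sum_norm_pow (M : ℕ) (hM : 0 < M) (m : ℕ) (A : Finset ℕ) :
    ∑ d ∈ range M, ‖∑ a ∈ A, e (a * (d / M))‖ ^ (2 * m) = (M : ℝ) * Tq M m A := by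
  have h : ((∑ d ∈ range M, ‖∑ a ∈ A, e (a * (d / M))‖ ^ (2 * m) : ℝ) : ℂ) =
      (((M : ℝ) * Tq M m A : ℝ) : ℂ) := by
    push_cast
    have h1 : ∀ d ∈ range M, ((‖∑ a ∈ A, e (a * (d / M))‖ ^ (2 * m) : ℝ) : ℂ) =
        ∑ z ∈ (tup m A) ×ˢ (tup m A), e (d * ((sg z.1 - sg z.2 : ℤ) / M)) := by
      intro d _
      rw [norm_pow_expand, Finset.sum_product]
      apply Finset.sum_congr rfl
      intro x _
      apply Finset.sum_congr rfl
      intro y _
      congr 1
      ring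
    have h2 : ∑ d ∈ range M, ((‖∑ a ∈ A, e (a * (d / M))‖ : ℂ) ^ (2 * m)) =
        ∑ d ∈ range M, ∑ z ∈ (tup m A) ×ˢ (tup m A), e (d * ((sg z.1 - sg z.2 : ℤ) / M)) := by
      apply Finset.sum_congr rfl
      intro d hd
      rw [← h1 d hd]
      push_cast
      rfl
    rw [h2, Finset.sum_comm]
    rw [Finset.sum_congr rfl (fun z _ => orth M hM (sg z.1 - sg z.2))]
    rw [Finset.sum_ite, Finset.sum_const_zero, add_zero, Finset.sum_const, nsmul_eq_mul]
    unfold Tq
    ring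
  exact_mod_cast h

lemma coincidence_aux {X Y β : Type*} [DecidableEq β] (s : Finset X) (t : Finset Y) (φ : X → β)
    (ψ : Y → β) (V : Finset β) (hs : ∀ x ∈ s, φ x ∈ V) :
    ((s ×ˢ t).filter (fun z => φ z.1 = ψ z.2)).card =
      ∑ b ∈ V, (s.filter (fun x => φ x = b)).card * (t.filter (fun y => ψ y = b)).card := by
  classical
  rw [Finset.card_eq_sum_card_fiberwise (f := fun z => φ z.1) (t := V)]
  · apply Finset.sum_congr rfl
    intro b _
    rw [← Finset.card_product]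
    congr 1
    ext ⟨x, y⟩
    simp only [Finset.mem_filter, Finset.mem_product]
    constructor
    · rintro ⟨⟨⟨hx, hy⟩, h1⟩, h2⟩
      exact ⟨⟨hx, h2⟩, ⟨hy, by rw [← h1]; exact h2⟩⟩
    · rintro ⟨⟨hx, h1⟩, ⟨hy, h2⟩⟩
      exact ⟨⟨⟨hx, hy⟩, by rw [h1, h2]⟩, h1⟩
  · intro z hz
    have hz' := (Finset.mem_filter.mp (Finset.mem_coe.mp hz)).1
    exact hs _ (Finset.mem_product.mp hz').1

/-- AM-GM for coincidences. -/
lemma coincidence {X Y β : Type*} [DecidableEq β] (s : Finset X) (t : Finset Y) (φ : X → β)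
    (ψ : Y → β) :
    2 * ((s ×ˢ t).filter (fun z => φ z.1 = ψ z.2)).card ≤
      ((s ×ˢ s).filter (fun z => φ z.1 = φ z.2)).card +
      ((t ×ˢ t).filter (fun z => ψ z.1 = ψ z.2)).card := by
  classical
  set V : Finset β := s.image φ ∪ t.image ψ with hV
  have hs1 : ∀ x ∈ s, φ x ∈ V := by
    intro x hx
    rw [hV, Finset.mem_union]
    left
    exact Finset.mem_image_of_mem _ hx
  have ht1 : ∀ x ∈ t, ψ x ∈ V := by
    intro x hx
    rw [hV, Finset.mem_union]
    right
    exact Finset.mem_image_of_mem _ hx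
  rw [coincidence_aux s t φ ψ V hs1, coincidence_aux s s φ φ V hs1,
    coincidence_aux t t ψ ψ V ht1, Finset.mul_sum, ← Finset.sum_add_distrib]
  apply Finset.sum_le_sum
  intro b _
  have := two_mul_le_add_sq ((s.filter (fun x => φ x = b)).card)
    ((t.filter (fun y => ψ y = b)).card)
  rw [sq, sq, mul_assoc] at this
  exact this

end Pool.Agent.Work.MP_aac176_nt
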