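import Pool.Agent.Work.MP_aac176_nt.Transfer
import Pool.Agent.Work.MP_aac176_nt.Count

set_option autoImplicit false

namespace Pool.Agent.Work.MP_aac176_nt

open Real Finset

/-- numerators of points of the Cantor set with denominator `q`. -/
noncomputable def Sq (q : ℕ) : Finset ℕ := by
  classical
  exact (range (q + 1)).filter (fun p => (p : ℝ) / (q : ℝ) ∈ cantorSet)

lemma mem_Sq {q p : ℕ} (hq : 0 < q) : p ∈ Sq q ↔ (p : ℝ) / (q : ℝ) ∈ cantorSet := by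
  classical
  unfold Sq
  rw [Finset.mem_filter, Finset.mem_range]
  constructor
  · exact fun h => h.2
  · intro h
    refine ⟨?_, h⟩
    have h1 := (cantorSet_subset_unitInterval h).2
    have h2 : (0 : ℝ) < q := by exact_mod_cast hq
    rw [div_le_one h2] at h1
    have : p ≤ q := by exact_mod_cast h1
    omega

lemma ncard_eq {q : ℕ} (hq : 0 < q) :
    {p : ℕ | (p : ℝ) / (q : ℝ) ∈ cantorSet}.ncard = (Sq q).card := by
  have : {p : ℕ | (p : ℝ) / (q : ℝ) ∈ cantorSet} = (Sq q : Set ℕ) := by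
    ext p
    rw [Set.mem_ofPred_eq, Finset.mem_coe, mem_Sq hq]
  rw [this, Set.ncard_coe_finset]

lemma per_q (s : ℝ) (hs0 : 0 < s) (m : ℕ) (hm : 1 ≤ m) (P η : ℝ) (hPs : P = 2 * m - s)
    (hP : 1 ≤ P) (hη : 0 < η)
    (htp : ∀ (z w u v : ℂ), ‖u‖ = 1 → ‖v‖ = 1 → 1 + u + v = 0 →
      (‖z + w‖ ^ (2 * m) + ‖z + u * w‖ ^ (2 * m) + ‖z + v * w‖ ^ (2 * m)) / 3 ≤
        (1 + η) * (‖z‖ ^ (2 * m / P) + ‖w‖ ^ (2 * m / P)) ^ P)
    (q n : ℕ) (hq : 0 < q) (hqn : q < 3 ^ n) (r B : ℕ) (hB : 0 < B) :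
    ((Sq q).card : ℝ) ^ s * ((Om r B).card : ℝ) ^ 2 ≤
      14 ^ (4 * m * r) * ((2 * m + 1) * (1 + η) ^ n) * (q * WW q r B) := by
  have hS : ∀ p ∈ Sq q, ((p : ℝ) / q) ∈ cantorSet := fun p hp => (mem_Sq hq).mp hp
  have h1 := moment q hq (Sq q) hS r B m hB hm
  have h2 := Tq_bound m hm P η hP hη htp q n hq hqn (Sq q) hS
  rcases Nat.eq_zero_or_pos (Sq q).card with h0 | h0
  · rw [h0, Nat.cast_zero, Real.zero_rpow hs0.ne', zero_mul]
    positivity
  set a : ℝ := ((Sq q).card : ℝ) with ha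
  have ha0 : 0 < a := by rw [ha]; exact_mod_cast h0
  have h3 : a ^ (2 * m) = a ^ s * a ^ P := by
    rw [← Real.rpow_add ha0, hPs, ← Real.rpow_natCast]
    congr 1
    push_cast
    ring
  have haP : 0 < a ^ P := Real.rpow_pos_of_pos ha0 _
  have h4 : (a ^ s * ((Om r B).card : ℝ) ^ 2) * a ^ P ≤
      (14 ^ (4 * m * r) * ((2 * m + 1) * (1 + η) ^ n) * (q * WW q r B)) * a ^ P := by
    calc (a ^ s * ((Om r B).card : ℝ) ^ 2) * a ^ P = a ^ (2 * m) * ((Om r B).card : ℝ) ^ 2 := by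
          rw [h3]; ring
      _ ≤ 14 ^ (4 * m * r) * ((WW q r B : ℝ) * (q * Tq q m (Sq q))) := h1
      _ ≤ 14 ^ (4 * m * r) * ((WW q r B : ℝ) * (q * ((2 * m + 1) * ((1 + η) ^ n * a ^ P)))) := by
          gcongr
      _ = _ := by ring
  exact le_of_mul_le_mul_right h4 haP

theorem power_sum (s : ℝ) (hs0 : 0 < s) (hs : s < Real.log 3 / Real.log 2) (ε : ℝ)
    (hε : 0 < ε) :
    ∃ C : ℝ, 0 < C ∧ ∀ j : ℕ, ∑ q ∈ (Finset.Ico (3 ^ j) (3 ^ (j + 1)) : Finset ℕ),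
      (({p : ℕ | (p : ℝ) / (q : ℝ) ∈ cantorSet}.ncard : ℕ) : ℝ) ^ s ≤
        C * (3 : ℝ) ^ ((1 + ε) * (j : ℝ)) := by
  have hlog3 : 0 < Real.log 3 := Real.log_pos (by norm_num)
  have hlog2 : 0 < Real.log 2 := Real.log_pos (by norm_num)
  have hlog14 : 0 < Real.log 14 := Real.log_pos (by norm_num)
  have hs2 : s < 2 := by
    refine hs.trans ?_
    rw [div_lt_iff₀ hlog2, ← Real.log_rpow (by norm_num)]
    apply Real.log_lt_log (by norm_num)
    norm_num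
  set η : ℝ := (3 : ℝ) ^ (ε / 4) - 1 with hηdef
  have hη : 0 < η := by
    have : (1 : ℝ) < (3 : ℝ) ^ (ε / 4) := Real.one_lt_rpow (by norm_num) (by linarith)
    linarith
  obtain ⟨m0, hm0⟩ := two_point s hs0 hs η hη
  set m : ℕ := max m0 2 with hmdef
  have hm2 : 2 ≤ m := le_max_right _ _
  have hmm0 : m0 ≤ m := le_max_left _ _
  have hmr : (2 : ℝ) ≤ m := by exact_mod_cast hm2
  set P : ℝ := 2 * m - s with hPdef
  have hP1 : 1 ≤ P := by rw [hPdef]; linarith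
  have htp := hm0 m hmm0 P hPdef (by linarith)
  set ρ : ℝ := ε * Real.log 3 / (16 * m * Real.log 14) with hρdef
  have hρ : 0 < ρ := by rw [hρdef]; positivity
  set B : ℕ := ⌈(3 : ℝ) ^ (1 / ρ)⌉₊ with hBdef
  have hBle : (3 : ℝ) ^ (1 / ρ) ≤ B := Nat.le_ceil _
  have hBpos : 0 < B := by
    have : (0 : ℝ) < (3 : ℝ) ^ (1 / ρ) := by positivity
    rw [hBdef]
    exact Nat.ceil_pos.mpr this
  have hBr : (0 : ℝ) < B := by exact_mod_cast hBpos
  set δ : ℝ := ε / (4 * ρ * (B + 3)) with hδdef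
  have hδ : 0 < δ := by rw [hδdef]; positivity
  obtain ⟨Cd, hCd1, hdiv⟩ := divisor_bound δ hδ
  refine ⟨(2 * m + 1) * (3 : ℝ) ^ (ε / 4) * 3 * (3 * B + Cd * 2 ^ δ), by positivity, ?_⟩
  intro j
  set r : ℕ := ⌊ρ * j⌋₊ with hrdef
  have hρj : 0 ≤ ρ * j := by positivity
  have hr1 : (r : ℝ) ≤ ρ * j := Nat.floor_le hρj
  have hr2 : ρ * j < r + 1 := Nat.lt_floor_add_one _
  set X : ℝ := (3 : ℝ) ^ (ε / 4 * j) with hXdef
  have hX1 : 1 ≤ X := by
    rw [hXdef]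
    exact Real.one_le_rpow (by norm_num) (by positivity)
  -- (a)
  have ha : (14 : ℝ) ^ (4 * m * r) ≤ X := by
    rw [← Real.rpow_natCast, hXdef, Real.rpow_def_of_pos (by norm_num),
      Real.rpow_def_of_pos (by norm_num)]
    apply Real.exp_le_exp.mpr
    push_cast
    have h1 : (4 * (m : ℝ) * r) ≤ 4 * m * (ρ * j) := by gcongr
    have h2 : Real.log 14 * (4 * (m : ℝ) * r) ≤ Real.log 14 * (4 * m * (ρ * j)) := by gcongr
    refine h2.trans_eq ?_
    rw [hρdef]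
    field_simp
    ring
  -- (b)
  have hb : (1 + η) ^ (j + 1) = (3 : ℝ) ^ (ε / 4) * X := by
    have h1 : 1 + η = (3 : ℝ) ^ (ε / 4) := by rw [hηdef]; ring
    rw [h1, hXdef, ← Real.rpow_natCast, ← Real.rpow_mul (by norm_num),
      ← Real.rpow_add (by norm_num)]
    congr 1
    push_cast
    ring
  -- (c)
  have hc : (3 : ℝ) ^ (j + 1) ≤ 3 * B * (B : ℝ) ^ r := by
    have h1 : (3 : ℝ) ^ j ≤ (B : ℝ) ^ (r + 1) := by
      have hB1 : (1 : ℝ) ≤ B := by exact_mod_cast hBpos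
      calc (3 : ℝ) ^ j = ((3 : ℝ) ^ (1 / ρ)) ^ (ρ * j) := by
            rw [← Real.rpow_mul (by norm_num), ← Real.rpow_natCast]
            congr 1
            field_simp
        _ ≤ (B : ℝ) ^ (ρ * j) := Real.rpow_le_rpow (by positivity) hBle hρj
        _ ≤ (B : ℝ) ^ ((r + 1 : ℕ) : ℝ) := by
            apply Real.rpow_le_rpow_of_exponent_le hB1
            push_cast
            exact hr2.le
        _ = (B : ℝ) ^ (r + 1) := Real.rpow_natCast _ _
    calc (3 : ℝ) ^ (j + 1) = 3 * 3 ^ j := by rw [pow_succ]; ring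
      _ ≤ 3 * (B : ℝ) ^ (r + 1) := by gcongr
      _ = 3 * B * (B : ℝ) ^ r := by rw [pow_succ]; ring
  -- (d)
  have hd : (2 * (3 : ℝ) ^ (r * (B + 3))) ^ δ ≤ 2 ^ δ * X := by
    rw [Real.mul_rpow (by norm_num) (by positivity)]
    apply mul_le_mul_of_nonneg_left _ (by positivity)
    rw [← Real.rpow_natCast, ← Real.rpow_mul (by norm_num), hXdef]
    apply Real.rpow_le_rpow_of_exponent_le (by norm_num)
    push_cast
    calc (r : ℝ) * (B + 3) * δ ≤ (ρ * j) * (B + 3) * δ := by gcongr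
      _ = ε / 4 * j := by
          rw [hδdef]
          field_simp
  -- the sum
  set I : Finset ℕ := Finset.Ico (3 ^ j) (3 ^ (j + 1)) with hI
  have hI' : ∀ q ∈ I, 0 < q ∧ q < 3 ^ (j + 1) := by
    intro q hq
    rw [hI, Finset.mem_Ico] at hq
    exact ⟨lt_of_lt_of_le (by positivity) hq.1, hq.2⟩
  have hsum1 : ∑ q ∈ I, (({p : ℕ | (p : ℝ) / (q : ℝ) ∈ cantorSet}.ncard : ℕ) : ℝ) ^ s =
      ∑ q ∈ I, ((Sq q).card : ℝ) ^ s := by
    apply Finset.sum_congr rfl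
    intro q hq
    rw [ncard_eq (hI' q hq).1]
  rw [hsum1]
  set O : ℝ := ((Om r B).card : ℝ) with hO
  have hOpos : 0 < O := by
    rw [hO, card_Om]
    positivity
  have hOB : O = 56 ^ r * (B : ℝ) ^ r := by
    rw [hO, card_Om]
    push_cast
    rw [mul_pow]
  have hcount := count δ Cd hδ hCd1 hdiv j r B
  rw [← hI, ← hO] at hcount
  set K : ℝ := 14 ^ (4 * m * r) * ((2 * m + 1) * (1 + η) ^ (j + 1)) with hK
  have hK0 : 0 ≤ K := by rw [hK]; positivity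
  have hstep : (∑ q ∈ I, ((Sq q).card : ℝ) ^ s) * O ^ 2 ≤
      (K * (3 ^ (j + 1) * (3 * B + Cd * (2 ^ δ * X)))) * O ^ 2 := by
    calc (∑ q ∈ I, ((Sq q).card : ℝ) ^ s) * O ^ 2 = ∑ q ∈ I, ((Sq q).card : ℝ) ^ s * O ^ 2 := by
          rw [Finset.sum_mul]
      _ ≤ ∑ q ∈ I, K * ((q : ℝ) * WW q r B) := by
          apply Finset.sum_le_sum
          intro q hq
          exact per_q s hs0 m (by omega) P η hPdef hP1 hη htp q (j + 1) (hI' q hq).1
            (hI' q hq).2 r B hBpos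
      _ = K * ∑ q ∈ I, (q : ℝ) * WW q r B := by rw [Finset.mul_sum]
      _ ≤ K * (3 ^ (j + 1) * (3 ^ (j + 1) * (O * 56 ^ r) +
            O ^ 2 * (Cd * (2 * 3 ^ (r * (B + 3))) ^ δ))) :=
          mul_le_mul_of_nonneg_left hcount hK0
      _ ≤ K * (3 ^ (j + 1) * ((3 * B) * O ^ 2 + O ^ 2 * (Cd * (2 ^ δ * X)))) := by
          apply mul_le_mul_of_nonneg_left _ hK0
          apply mul_le_mul_of_nonneg_left _ (by positivity)
          apply add_le_add
          · calc (3 : ℝ) ^ (j + 1) * (O * 56 ^ r) ≤ (3 * B * (B : ℝ) ^ r) * (O * 56 ^ r) := by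
                  gcongr
              _ = 3 * B * O ^ 2 := by
                  rw [sq]
                  nth_rewrite 3 [hOB]
                  ring
          · gcongr
      _ = _ := by ring
  have hO2 : 0 < O ^ 2 := by positivity
  have hfin := le_of_mul_le_mul_right hstep hO2
  refine hfin.trans ?_
  have h3j : (3 : ℝ) ^ ((1 + ε) * (j : ℝ)) = 3 ^ j * X ^ 4 := by
    rw [hXdef, ← Real.rpow_natCast, ← Real.rpow_natCast, ← Real.rpow_mul (by norm_num),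
      ← Real.rpow_add (by norm_num)]
    congr 1
    push_cast
    ring
  rw [h3j, hK, hb]
  have hX0 : 0 ≤ X := by linarith
  have e1 : (3 * B + Cd * (2 ^ δ * X)) ≤ (3 * B + Cd * 2 ^ δ) * X := by
    have : (3 * B : ℝ) ≤ 3 * B * X := by
      nlinarith
    nlinarith
  calc 14 ^ (4 * m * r) * ((2 * m + 1) * ((3 : ℝ) ^ (ε / 4) * X)) *
        (3 ^ (j + 1) * (3 * B + Cd * (2 ^ δ * X)))
      ≤ X * ((2 * m + 1) * ((3 : ℝ) ^ (ε / 4) * X)) *
        (3 ^ (j + 1) * ((3 * B + Cd * 2 ^ δ) * X)) := by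
        gcongr
    _ = ((2 * m + 1) * (3 : ℝ) ^ (ε / 4) * 3 * (3 * B + Cd * 2 ^ δ)) * (3 ^ j * X ^ 3) := by
        rw [pow_succ 3 j]; ring
    _ ≤ ((2 * m + 1) * (3 : ℝ) ^ (ε / 4) * 3 * (3 * B + Cd * 2 ^ δ)) * (3 ^ j * X ^ 4) := by
        apply mul_le_mul_of_nonneg_left _ (by positivity)
        apply mul_le_mul_of_nonneg_left _ (by positivity)
        exact pow_le_pow_right₀ hX1 (by norm_num)

end Pool.Agent.Work.MP_aac176_nt
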