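import Pool.Agent.Work.MP_aac176_nt.Final

set_option autoImplicit false

namespace Pool.Agent.Work.MP_aac176_nt

open Real Finset

/-- the number of pairs is a sum over denominators. -/
lemma pairs_le (j : ℕ) (c : ℕ → Prop) (R : Set (ℕ × ℕ))
    (hR : ∀ pq ∈ R, 3 ^ j ≤ pq.2 ∧ pq.2 < 3 ^ (j + 1) ∧
      ((pq.1 : ℝ) / (pq.2 : ℝ)) ∈ cantorSet ∧ c pq.2) [DecidablePred c] :
    R.ncard ≤ ∑ q ∈ (Finset.Ico (3 ^ j) (3 ^ (j + 1)) : Finset ℕ).filter c, (Sq q).card := by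
  classical
  set T : Finset (ℕ × ℕ) := ((Finset.Ico (3 ^ j) (3 ^ (j + 1)) : Finset ℕ).filter c).biUnion
    (fun q => (Sq q).image (fun p => (p, q))) with hT
  have hsub : R ⊆ (T : Set (ℕ × ℕ)) := by
    intro pq hpq
    obtain ⟨h1, h2, h3, h4⟩ := hR pq hpq
    have hq : 0 < pq.2 := lt_of_lt_of_le (by positivity) h1
    apply Finset.mem_coe.mpr
    rw [hT, Finset.mem_biUnion]
    refine ⟨pq.2, ?_, ?_⟩
    · rw [Finset.mem_filter, Finset.mem_Ico]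
      exact ⟨⟨h1, h2⟩, h4⟩
    · rw [Finset.mem_image]
      exact ⟨pq.1, (mem_Sq hq).mpr h3, rfl⟩
  calc R.ncard ≤ (T : Set (ℕ × ℕ)).ncard := Set.ncard_le_ncard hsub (Finset.finite_toSet T)
    _ = T.card := Set.ncard_coe_finset T
    _ ≤ ∑ q ∈ (Finset.Ico (3 ^ j) (3 ^ (j + 1)) : Finset ℕ).filter c,
        ((Sq q).image (fun p => (p, q))).card := Finset.card_biUnion_le
    _ ≤ _ := Finset.sum_le_sum (fun q _ => Finset.card_image_le)

theorem levels (a : ℝ) (ha : 0 ≤ a) (ε : ℝ) (hε : 0 < ε) : ∃ C : ℝ, ∀ j : ℕ,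
      (({pq : ℕ × ℕ | 3 ^ j ≤ pq.2 ∧ pq.2 < 3 ^ (j + 1) ∧
          ((pq.1 : ℝ) / (pq.2 : ℝ)) ∈ cantorSet ∧
          (2 : ℝ) ^ (a * (j : ℝ)) ≤
            (({p : ℕ | ((p : ℝ) / (pq.2 : ℝ)) ∈ cantorSet}.ncard : ℕ) : ℝ)}.ncard : ℕ) : ℝ)
        ≤ C * (3 : ℝ) ^ ((1 - a * (1 - Real.log 2 / Real.log 3) + ε) * (j : ℝ)) := by
  classical
  have hlog3 : 0 < Real.log 3 := Real.log_pos (by norm_num)
  have hlog2 : 0 < Real.log 2 := Real.log_pos (by norm_num)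
  have hlt : Real.log 2 < Real.log 3 := Real.log_lt_log (by norm_num) (by norm_num)
  set κ : ℝ := Real.log 2 / Real.log 3 with hκ
  have hκ0 : 0 < κ := by rw [hκ]; positivity
  have hκ1 : κ < 1 := by rw [hκ, div_lt_one hlog3]; exact hlt
  have hinv : Real.log 3 / Real.log 2 = 1 / κ := by rw [hκ]; field_simp
  have hinv1 : 1 < 1 / κ := by rw [lt_div_iff₀ hκ0]; linarith
  -- the exponent
  set s : ℝ := max 1 (1 / κ - ε / (2 * κ * (a + 1))) with hsdef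
  have hs1 : 1 ≤ s := le_max_left _ _
  have hs2 : s < 1 / κ := by
    rw [hsdef, max_lt_iff]
    refine ⟨hinv1, ?_⟩
    have : 0 < ε / (2 * κ * (a + 1)) := by positivity
    linarith
  have hs3 : 1 / κ - s ≤ ε / (2 * κ * (a + 1)) := by
    have := le_max_right 1 (1 / κ - ε / (2 * κ * (a + 1)))
    rw [← hsdef] at this
    linarith
  obtain ⟨C, hC0, hC⟩ := power_sum s (by linarith) (by rw [hinv]; exact hs2) (ε / 2)
    (by linarith)
  refine ⟨C, ?_⟩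
  intro j
  set c : ℕ → Prop := fun q => (2 : ℝ) ^ (a * (j : ℝ)) ≤
    (({p : ℕ | ((p : ℝ) / (q : ℝ)) ∈ cantorSet}.ncard : ℕ) : ℝ) with hc
  have h1 := pairs_le j c {pq : ℕ × ℕ | 3 ^ j ≤ pq.2 ∧ pq.2 < 3 ^ (j + 1) ∧
          ((pq.1 : ℝ) / (pq.2 : ℝ)) ∈ cantorSet ∧
          (2 : ℝ) ^ (a * (j : ℝ)) ≤
            (({p : ℕ | ((p : ℝ) / (pq.2 : ℝ)) ∈ cantorSet}.ncard : ℕ) : ℝ)}
    (fun pq hpq => hpq)
  set I : Finset ℕ := Finset.Ico (3 ^ j) (3 ^ (j + 1)) with hI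
  have hI' : ∀ q ∈ I, 0 < q := by
    intro q hq
    rw [hI, Finset.mem_Ico] at hq
    exact lt_of_lt_of_le (by positivity) hq.1
  set Y : ℝ := (2 : ℝ) ^ (a * (j : ℝ)) with hY
  have hY0 : 0 < Y := by rw [hY]; positivity
  have h2 : ∀ q ∈ I.filter c, ((Sq q).card : ℝ) ≤
      Y ^ (-(s - 1)) * (({p : ℕ | (p : ℝ) / (q : ℝ) ∈ cantorSet}.ncard : ℕ) : ℝ) ^ s := by
    intro q hq
    rw [Finset.mem_filter] at hq
    obtain ⟨hq1, hq2⟩ := hq
    rw [hc] at hq2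
    rw [ncard_eq (hI' q hq1)] at hq2 ⊢
    set b : ℝ := ((Sq q).card : ℝ) with hb
    have hb0 : 0 < b := lt_of_lt_of_le hY0 hq2
    have h3 : b ^ s = b * b ^ (s - 1) := by
      nth_rewrite 2 [← Real.rpow_one b]
      rw [← Real.rpow_add hb0]
      congr 1
      ring
    have h4 : Y ^ (s - 1) ≤ b ^ (s - 1) := Real.rpow_le_rpow hY0.le hq2 (by linarith)
    rw [Real.rpow_neg hY0.le, h3, inv_mul_eq_div, le_div_iff₀ (by positivity)]
    exact mul_le_mul_of_nonneg_left h4 hb0.le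
  have h5 : (∑ q ∈ I.filter c, (Sq q).card : ℕ) ≤
      Y ^ (-(s - 1)) * (C * (3 : ℝ) ^ ((1 + ε / 2) * (j : ℝ))) := by
    push_cast
    calc ∑ q ∈ I.filter c, ((Sq q).card : ℝ) ≤ ∑ q ∈ I.filter c, Y ^ (-(s - 1)) *
          (({p : ℕ | (p : ℝ) / (q : ℝ) ∈ cantorSet}.ncard : ℕ) : ℝ) ^ s :=
          Finset.sum_le_sum h2
      _ ≤ ∑ q ∈ I, Y ^ (-(s - 1)) *
          (({p : ℕ | (p : ℝ) / (q : ℝ) ∈ cantorSet}.ncard : ℕ) : ℝ) ^ s := by
          apply Finset.sum_le_sum_of_subset_of_nonneg (Finset.filter_subset _ _)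
          intro _ _ _
          positivity
      _ = Y ^ (-(s - 1)) * ∑ q ∈ I,
          (({p : ℕ | (p : ℝ) / (q : ℝ) ∈ cantorSet}.ncard : ℕ) : ℝ) ^ s := by
          rw [Finset.mul_sum]
      _ ≤ _ := mul_le_mul_of_nonneg_left (hC j) (by positivity)
  have h6 : Y ^ (-(s - 1)) * (C * (3 : ℝ) ^ ((1 + ε / 2) * (j : ℝ))) ≤
      C * (3 : ℝ) ^ ((1 - a * (1 - κ) + ε) * (j : ℝ)) := by
    have h7 : Y = (3 : ℝ) ^ (κ * (a * (j : ℝ))) := by
      rw [hY, Real.rpow_def_of_pos (by norm_num), Real.rpow_def_of_pos (by norm_num), hκ]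
      congr 1
      field_simp
    rw [h7, ← Real.rpow_mul (by norm_num)]
    calc (3 : ℝ) ^ (κ * (a * (j : ℝ)) * (-(s - 1))) * (C * (3 : ℝ) ^ ((1 + ε / 2) * (j : ℝ)))
        = C * (3 : ℝ) ^ ((κ * a * (-(s - 1)) + (1 + ε / 2)) * (j : ℝ)) := by
          rw [mul_left_comm, ← Real.rpow_add (by norm_num)]
          congr 2
          ring
      _ ≤ C * (3 : ℝ) ^ ((1 - a * (1 - κ) + ε) * (j : ℝ)) := by
          apply mul_le_mul_of_nonneg_left _ hC0.le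
          apply Real.rpow_le_rpow_of_exponent_le (by norm_num)
          apply mul_le_mul_of_nonneg_right _ (by positivity)
          have h8 : κ * a * (1 / κ - s) ≤ ε / 2 := by
            calc κ * a * (1 / κ - s) ≤ κ * a * (ε / (2 * κ * (a + 1))) :=
                  mul_le_mul_of_nonneg_left hs3 (by positivity)
              _ = (a / (a + 1)) * (ε / 2) := by field_simp
              _ ≤ 1 * (ε / 2) := by
                  apply mul_le_mul_of_nonneg_right _ (by linarith)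
                  rw [div_le_one (by linarith)]
                  linarith
              _ = ε / 2 := by ring
          have h9 : κ * a * (1 / κ - s) = a - κ * a * s := by field_simp
          rw [h9] at h8
          nlinarith
  calc _ ≤ ((∑ q ∈ I.filter c, (Sq q).card : ℕ) : ℝ) := by exact_mod_cast h1
    _ ≤ _ := h5
    _ ≤ _ := h6

end Pool.Agent.Work.MP_aac176_nt
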