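import Pool.Agent.Work.MP_aac176_nt.Cantor

set_option autoImplicit false

namespace Pool.Agent.Work.MP_aac176_nt

open Real Finset

/-- index set of one block. -/
def JJ (B : ℕ) : Finset ((ℕ × ℕ) × ℕ) := pairs ×ˢ range B

lemma card_JJ (B : ℕ) : (JJ B).card = 56 * B := by
  unfold JJ
  rw [Finset.card_product, card_pairs, Finset.card_range]

/-- value of an index. -/
def vv (σ : (ℕ × ℕ) × ℕ) : ℤ := ((σ.1.1 : ℤ) - σ.1.2) * 3 ^ σ.2

/-- tuples of indices, one for each block. -/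
def Om (r B : ℕ) : Finset (Fin r → (ℕ × ℕ) × ℕ) := Fintype.piFinset (fun _ => JJ B)

lemma card_Om (r B : ℕ) : (Om r B).card = (56 * B) ^ r := by
  unfold Om
  rw [Fintype.card_piFinset]
  simp [card_JJ]

/-- frequency of a tuple. -/
def DD {r : ℕ} (B : ℕ) (τ : Fin r → (ℕ × ℕ) × ℕ) : ℤ := ∑ s, vv (τ s) * 3 ^ ((s : ℕ) * (B + 3))

lemma factor {x : ℝ} (hx : x ∈ cantorSet) (B k : ℕ) :
    ∃ c : ℝ, (4 * B : ℝ) ≤ c ∧
      ∑ σ ∈ JJ B, sgn σ.1 * e (((vv σ * 3 ^ k : ℤ) : ℝ) * x) = (c : ℂ) := by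
  choose c hc hc2 using fun i : ℕ => gsum_cantor hx (i + k)
  refine ⟨∑ i ∈ range B, c i, ?_, ?_⟩
  · calc (4 * B : ℝ) = ∑ i ∈ range B, (4 : ℝ) := by simp [mul_comm]
      _ ≤ _ := Finset.sum_le_sum (fun i _ => hc i)
  · unfold JJ
    rw [Finset.sum_product_right]
    push_cast
    apply Finset.sum_congr rfl
    intro i _
    rw [← hc2 i]
    apply Finset.sum_congr rfl
    intro z _
    congr 2
    unfold vv
    push_cast
    rw [pow_add]
    ring

lemma product {x : ℝ} (hx : x ∈ cantorSet) (r B : ℕ) :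
    ∃ c : ℝ, (4 * B : ℝ) ^ r ≤ c ∧
      ∑ τ ∈ Om r B, (∏ s, sgn (τ s).1) * e ((DD B τ : ℝ) * x) = (c : ℂ) := by
  choose c hc hc2 using fun s : Fin r => factor hx B ((s : ℕ) * (B + 3))
  refine ⟨∏ s, c s, ?_, ?_⟩
  · calc (4 * B : ℝ) ^ r = ∏ s : Fin r, (4 * B : ℝ) := by simp
      _ ≤ _ := Finset.prod_le_prod (fun _ _ => by positivity) (fun s _ => hc s)
  · have h := Finset.prod_univ_sum (fun _ : Fin r => JJ B)
      (fun s σ => sgn σ.1 * e (((vv σ * 3 ^ ((s : ℕ) * (B + 3)) : ℤ) : ℝ) * x))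
    have h2 : (∏ s : Fin r, ∑ σ ∈ JJ B,
        sgn σ.1 * e (((vv σ * 3 ^ ((s : ℕ) * (B + 3)) : ℤ) : ℝ) * x)) =
        ((∏ s, c s : ℝ) : ℂ) := by
      push_cast
      apply Finset.prod_congr rfl
      intro s _
      rw [← hc2 s]
      push_cast
      rfl
    rw [← h2, h]
    unfold Om
    apply Finset.sum_congr rfl
    intro τ _
    rw [Finset.prod_mul_distrib, ← e_sum]
    congr 2
    unfold DD
    push_cast
    rw [Finset.sum_mul]

/-- exponential sum over `S`. -/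
noncomputable def fS (S : Finset ℕ) (t : ℝ) : ℂ := ∑ p ∈ S, e (p * t)

lemma step_one (q : ℕ) (S : Finset ℕ) (hS : ∀ p ∈ S, ((p : ℝ) / q) ∈ cantorSet) (r B : ℕ) :
    (S.card : ℝ) * (4 * B : ℝ) ^ r ≤ ∑ τ ∈ Om r B, ‖fS S ((DD B τ : ℝ) / q)‖ := by
  have h1 : ∀ p ∈ S, (4 * B : ℝ) ^ r ≤
      (∑ τ ∈ Om r B, (∏ s, sgn (τ s).1) * e ((DD B τ : ℝ) * ((p : ℝ) / q))).re := by
    intro p hp
    obtain ⟨c, hc, hc2⟩ := product (hS p hp) r B
    rw [hc2, Complex.ofReal_re]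
    exact hc
  calc (S.card : ℝ) * (4 * B : ℝ) ^ r = ∑ p ∈ S, (4 * B : ℝ) ^ r := by
        rw [Finset.sum_const, nsmul_eq_mul]
    _ ≤ ∑ p ∈ S, (∑ τ ∈ Om r B, (∏ s, sgn (τ s).1) * e ((DD B τ : ℝ) * ((p : ℝ) / q))).re :=
        Finset.sum_le_sum h1
    _ = (∑ p ∈ S, ∑ τ ∈ Om r B, (∏ s, sgn (τ s).1) * e ((DD B τ : ℝ) * ((p : ℝ) / q))).re := by
        rw [Complex.re_sum]
    _ = (∑ τ ∈ Om r B, (∏ s, sgn (τ s).1) * fS S ((DD B τ : ℝ) / q)).re := by
        rw [Finset.sum_comm]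
        congr 1
        apply Finset.sum_congr rfl
        intro τ _
        unfold fS
        rw [Finset.mul_sum]
        apply Finset.sum_congr rfl
        intro p _
        congr 2
        ring
    _ ≤ ‖∑ τ ∈ Om r B, (∏ s, sgn (τ s).1) * fS S ((DD B τ : ℝ) / q)‖ := Complex.re_le_norm _
    _ ≤ ∑ τ ∈ Om r B, ‖(∏ s, sgn (τ s).1) * fS S ((DD B τ : ℝ) / q)‖ := norm_sum_le _ _
    _ = ∑ τ ∈ Om r B, ‖fS S ((DD B τ : ℝ) / q)‖ := by
        apply Finset.sum_congr rfl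
        intro τ _
        rw [norm_mul, norm_prod]
        simp [norm_sgn]

lemma step_two (q : ℕ) (S : Finset ℕ) (hS : ∀ p ∈ S, ((p : ℝ) / q) ∈ cantorSet) (r B m : ℕ)
    (hm : 1 ≤ m) :
    ((S.card : ℝ) * (4 * B : ℝ) ^ r) ^ (2 * m) ≤
      ((Om r B).card : ℝ) ^ (2 * m - 1) *
        ∑ τ ∈ Om r B, ‖fS S ((DD B τ : ℝ) / q)‖ ^ (2 * m) := by
  have h1 := step_one q S hS r B
  have h2 : ((S.card : ℝ) * (4 * B : ℝ) ^ r) ^ (2 * m) ≤
      (∑ τ ∈ Om r B, ‖fS S ((DD B τ : ℝ) / q)‖) ^ (2 * m) := by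
    apply pow_le_pow_left₀ (by positivity) h1
  refine h2.trans ?_
  obtain ⟨k, hk⟩ : ∃ k, 2 * m = k + 1 := ⟨2 * m - 1, by omega⟩
  have h4 := pow_sum_div_card_le_sum_pow (s := Om r B)
    (f := fun τ => ‖fS S ((DD B τ : ℝ) / q)‖) (fun _ _ => norm_nonneg _) k
  rw [hk, Nat.add_sub_cancel]
  rcases Nat.eq_zero_or_pos (Om r B).card with h0 | h0
  · rw [Finset.card_eq_zero] at h0
    rw [h0]
    simp
  · have h0' : (0 : ℝ) < ((Om r B).card : ℝ) ^ k := by positivity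
    rw [div_le_iff₀ h0'] at h4
    linarith

/-- number of pairs of tuples with congruent frequencies. -/
noncomputable def WW (q r B : ℕ) : ℕ :=
  ((Om r B ×ˢ Om r B).filter (fun z => (q : ℤ) ∣ DD B z.1 - DD B z.2)).card

lemma step_three (q : ℕ) (S : Finset ℕ) (r B m : ℕ) :
    (∑ τ ∈ Om r B, ‖fS S ((DD B τ : ℝ) / q)‖ ^ (2 * m)) ^ 2 ≤
      (S.card : ℝ) ^ (2 * m) *
        ∑ z ∈ Om r B ×ˢ Om r B, ‖fS S (((DD B z.1 - DD B z.2 : ℤ) : ℝ) / q)‖ ^ (2 * m) := by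
  set g : (Fin m → ℕ) × (Fin m → ℕ) → ℂ := fun z =>
    ∑ τ ∈ Om r B, e (((sg z.1 - sg z.2 : ℤ) : ℝ) * ((DD B τ : ℝ) / q)) with hg
  have h1 : ((∑ τ ∈ Om r B, ‖fS S ((DD B τ : ℝ) / q)‖ ^ (2 * m) : ℝ) : ℂ) =
      ∑ z ∈ tup m S ×ˢ tup m S, g z := by
    rw [Complex.ofReal_sum]
    have : ∀ τ ∈ Om r B, ((‖fS S ((DD B τ : ℝ) / q)‖ ^ (2 * m) : ℝ) : ℂ) =
        ∑ z ∈ tup m S ×ˢ tup m S, e (((sg z.1 - sg z.2 : ℤ) : ℝ) * ((DD B τ : ℝ) / q)) := by
      intro τ _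
      unfold fS
      rw [norm_pow_expand, Finset.sum_product]
    rw [Finset.sum_congr rfl this, Finset.sum_comm]
  have h2 : ∑ τ ∈ Om r B, ‖fS S ((DD B τ : ℝ) / q)‖ ^ (2 * m) ≤
      ∑ z ∈ tup m S ×ˢ tup m S, ‖g z‖ := by
    have h3 : ‖((∑ τ ∈ Om r B, ‖fS S ((DD B τ : ℝ) / q)‖ ^ (2 * m) : ℝ) : ℂ)‖ =
        ∑ τ ∈ Om r B, ‖fS S ((DD B τ : ℝ) / q)‖ ^ (2 * m) := by
      rw [Complex.norm_real, Real.norm_of_nonneg]
      exact Finset.sum_nonneg (fun _ _ => by positivity)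
    rw [← h3, h1]
    exact norm_sum_le _ _
  have h4 : ∑ z ∈ tup m S ×ˢ tup m S, ‖g z‖ ^ 2 =
      ∑ z ∈ Om r B ×ˢ Om r B, ‖fS S (((DD B z.1 - DD B z.2 : ℤ) : ℝ) / q)‖ ^ (2 * m) := by
    have h5 : ((∑ z ∈ tup m S ×ˢ tup m S, ‖g z‖ ^ 2 : ℝ) : ℂ) =
        ((∑ z ∈ Om r B ×ˢ Om r B,
          ‖fS S (((DD B z.1 - DD B z.2 : ℤ) : ℝ) / q)‖ ^ (2 * m) : ℝ) : ℂ) := by
      rw [Complex.ofReal_sum, Complex.ofReal_sum]
      have h6 : ∀ z ∈ tup m S ×ˢ tup m S, ((‖g z‖ ^ 2 : ℝ) : ℂ) =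
          ∑ w ∈ Om r B ×ˢ Om r B, e (((sg z.1 - sg z.2 : ℤ) : ℝ) *
            (((DD B w.1 - DD B w.2 : ℤ) : ℝ) / q)) := by
        intro z _
        have : ((‖g z‖ ^ 2 : ℝ) : ℂ) = g z * (starRingEnd ℂ) (g z) := by
          rw [Complex.mul_conj, Complex.normSq_eq_norm_sq]
        rw [this, hg]
        simp only
        rw [map_sum, Finset.sum_mul_sum, Finset.sum_product]
        apply Finset.sum_congr rfl
        intro τ _
        apply Finset.sum_congr rfl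
        intro τ' _
        rw [conj_e, ← e_add]
        congr 1
        push_cast
        ring
      have h7 : ∀ w ∈ Om r B ×ˢ Om r B,
          ((‖fS S (((DD B w.1 - DD B w.2 : ℤ) : ℝ) / q)‖ ^ (2 * m) : ℝ) : ℂ) =
          ∑ z ∈ tup m S ×ˢ tup m S, e (((sg z.1 - sg z.2 : ℤ) : ℝ) *
            (((DD B w.1 - DD B w.2 : ℤ) : ℝ) / q)) := by
        intro w _
        unfold fS
        rw [norm_pow_expand, Finset.sum_product]
      rw [Finset.sum_congr rfl h6, Finset.sum_congr rfl h7, Finset.sum_comm]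
    exact_mod_cast h5
  have h8 : (∑ z ∈ tup m S ×ˢ tup m S, ‖g z‖) ^ 2 ≤
      ((tup m S ×ˢ tup m S).card : ℝ) * ∑ z ∈ tup m S ×ˢ tup m S, ‖g z‖ ^ 2 :=
    sq_sum_le_card_mul_sum_sq
  rw [h4] at h8
  have h9 : ((tup m S ×ˢ tup m S).card : ℝ) = (S.card : ℝ) ^ (2 * m) := by
    rw [Finset.card_product, card_tup]
    push_cast
    ring
  rw [h9] at h8
  refine le_trans ?_ h8
  exact pow_le_pow_left₀ (Finset.sum_nonneg (fun _ _ => by positivity)) h2 2

lemma fS_mod (q : ℕ) (hq : 0 < q) (S : Finset ℕ) (z : ℤ) :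
    fS S ((z : ℝ) / q) = fS S (((z % q).toNat : ℝ) / q) := by
  unfold fS
  apply Finset.sum_congr rfl
  intro p _
  have hq' : (q : ℝ) ≠ 0 := by exact_mod_cast hq.ne'
  have hnn : 0 ≤ z % (q : ℤ) := Int.emod_nonneg _ (by exact_mod_cast hq.ne')
  have h1 : (((z % q).toNat : ℕ) : ℝ) = ((z % (q : ℤ) : ℤ) : ℝ) := by
    have : (((z % q).toNat : ℕ) : ℤ) = z % (q : ℤ) := Int.toNat_of_nonneg hnn
    exact_mod_cast this
  have h2 : (z : ℝ) = ((z % (q : ℤ) : ℤ) : ℝ) + q * ((z / (q : ℤ) : ℤ) : ℝ) := by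
    exact_mod_cast (Int.emod_add_mul_ediv z q).symm
  have h3 : (p : ℝ) * ((z : ℝ) / q) =
      (p : ℝ) * (((z % q).toNat : ℝ) / q) + ((p * (z / (q : ℤ)) : ℤ) : ℝ) := by
    rw [h1]
    conv_lhs => rw [h2]
    push_cast
    field_simp
  rw [h3, e_add, e_int, mul_one]

lemma step_four (q : ℕ) (hq : 0 < q) (S : Finset ℕ) (r B m : ℕ) :
    ∑ z ∈ Om r B ×ˢ Om r B, ‖fS S (((DD B z.1 - DD B z.2 : ℤ) : ℝ) / q)‖ ^ (2 * m) ≤
      (WW q r B : ℝ) * (q * Tq q m S) := by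
  classical
  have hq0 : (q : ℤ) ≠ 0 := by exact_mod_cast hq.ne'
  set φ : (Fin r → (ℕ × ℕ) × ℕ) × (Fin r → (ℕ × ℕ) × ℕ) → ℕ := fun z =>
    ((DD B z.1 - DD B z.2) % q).toNat with hφ
  have hmaps : ∀ z ∈ Om r B ×ˢ Om r B, φ z ∈ range q := by
    intro z _
    rw [Finset.mem_range, hφ]
    simp only
    have h1 := Int.emod_lt_of_pos (DD B z.1 - DD B z.2) (by exact_mod_cast hq : (0 : ℤ) < q)
    have h2 := Int.emod_nonneg (DD B z.1 - DD B z.2) hq0
    omega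
  have h1 : ∑ z ∈ Om r B ×ˢ Om r B,
      ‖fS S (((DD B z.1 - DD B z.2 : ℤ) : ℝ) / q)‖ ^ (2 * m) =
      ∑ d ∈ range q, ∑ z ∈ (Om r B ×ˢ Om r B).filter (fun z => φ z = d),
        ‖fS S ((d : ℝ) / q)‖ ^ (2 * m) := by
    rw [← Finset.sum_fiberwise_of_maps_to hmaps]
    apply Finset.sum_congr rfl
    intro d _
    apply Finset.sum_congr rfl
    intro z hz
    have := (Finset.mem_filter.mp hz).2
    rw [fS_mod q hq S, ← this]
  rw [h1]
  have h2 : ∀ d ∈ range q, ((Om r B ×ˢ Om r B).filter (fun z => φ z = d)).card ≤ WW q r B := by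
    intro d hd
    have hc := coincidence (Om r B) (Om r B) (fun τ => DD B τ % (q : ℤ))
      (fun τ => (DD B τ + d) % (q : ℤ))
    have e1 : ((Om r B ×ˢ Om r B).filter (fun z => φ z = d)) =
        ((Om r B ×ˢ Om r B).filter (fun z => DD B z.1 % (q : ℤ) = (DD B z.2 + d) % (q : ℤ))) := by
      apply Finset.filter_congr
      intro z _
      rw [hφ]
      simp only
      have h2 := Int.emod_nonneg (DD B z.1 - DD B z.2) hq0
      have hd' : (d : ℤ) < q := by exact_mod_cast Finset.mem_range.mp hd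
      constructor
      · intro h
        have h3 : (DD B z.1 - DD B z.2) % (q : ℤ) = d := by omega
        have h4 : (DD B z.1 - DD B z.2) % (q : ℤ) = (d : ℤ) % q := by
          rw [h3, Int.emod_eq_of_lt (by positivity) hd']
        have h5 : (q : ℤ) ∣ (DD B z.1 - DD B z.2) - d := Int.dvd_self_sub_of_emod_eq h3
        apply Int.emod_emod_of_dvd _ (dvd_refl _) |>.symm.trans
        rw [Int.emod_emod_of_dvd _ (dvd_refl _)]
        apply Int.ModEq.symm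
        rw [Int.modEq_iff_dvd]
        have : DD B z.1 - (DD B z.2 + d) = (DD B z.1 - DD B z.2) - d := by ring
        rw [this]
        exact h5
      · intro h
        have h5 : (q : ℤ) ∣ DD B z.1 - (DD B z.2 + d) := Int.ModEq.dvd (Eq.symm h)
        have h6 : (DD B z.1 - DD B z.2) % (q : ℤ) = (d : ℤ) % q := by
          apply Int.ModEq.symm
          rw [Int.modEq_iff_dvd]
          have : DD B z.1 - DD B z.2 - d = DD B z.1 - (DD B z.2 + d) := by ring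
          rw [this]
          exact h5
        rw [Int.emod_eq_of_lt (by positivity) hd'] at h6
        omega
    have e2 : ((Om r B ×ˢ Om r B).filter
        (fun z => DD B z.1 % (q : ℤ) = DD B z.2 % (q : ℤ))).card = WW q r B := by
      unfold WW
      congr 1
      apply Finset.filter_congr
      intro z _
      constructor
      · intro h
        exact Int.ModEq.dvd (Eq.symm h)
      · intro h
        apply Int.ModEq.symm
        rw [Int.modEq_iff_dvd]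
        exact h
    have e3 : ((Om r B ×ˢ Om r B).filter
        (fun z => (DD B z.1 + d) % (q : ℤ) = (DD B z.2 + d) % (q : ℤ))).card = WW q r B := by
      unfold WW
      congr 1
      apply Finset.filter_congr
      intro z _
      have : DD B z.1 - DD B z.2 = (DD B z.1 + d) - (DD B z.2 + d) := by ring
      rw [this]
      constructor
      · intro h
        exact Int.ModEq.dvd (Eq.symm h)
      · intro h
        apply Int.ModEq.symm
        rw [Int.modEq_iff_dvd]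
        exact h
    rw [e1]
    rw [e2, e3] at hc
    omega
  calc ∑ d ∈ range q, ∑ z ∈ (Om r B ×ˢ Om r B).filter (fun z => φ z = d),
        ‖fS S ((d : ℝ) / q)‖ ^ (2 * m)
      ≤ ∑ d ∈ range q, (WW q r B : ℝ) * ‖fS S ((d : ℝ) / q)‖ ^ (2 * m) := by
        apply Finset.sum_le_sum
        intro d hd
        rw [Finset.sum_const, nsmul_eq_mul]
        apply mul_le_mul_of_nonneg_right _ (by positivity)
        exact_mod_cast h2 d hd
    _ = (WW q r B : ℝ) * (q * Tq q m S) := by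
        rw [← Finset.mul_sum]
        congr 1
        have := sum_norm_pow q hq m S
        unfold fS
        exact this

theorem moment (q : ℕ) (hq : 0 < q) (S : Finset ℕ) (hS : ∀ p ∈ S, ((p : ℝ) / q) ∈ cantorSet)
    (r B m : ℕ) (hB : 0 < B) (hm : 1 ≤ m) :
    (S.card : ℝ) ^ (2 * m) * ((Om r B).card : ℝ) ^ 2 ≤
      14 ^ (4 * m * r) * ((WW q r B : ℝ) * (q * Tq q m S)) := by
  rcases Nat.eq_zero_or_pos S.card with h0 | h0
  · rw [h0, Nat.cast_zero, zero_pow (by omega), zero_mul]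
    positivity
  have hS0 : (0 : ℝ) < S.card := by exact_mod_cast h0
  have hO : ((Om r B).card : ℝ) = 14 ^ r * (4 * B : ℝ) ^ r := by
    rw [card_Om]
    push_cast
    rw [← mul_pow]
    congr 1
    ring
  have hBr : (0 : ℝ) < B := by exact_mod_cast hB
  have hO0 : (0 : ℝ) < (Om r B).card := by rw [hO]; positivity
  have h2 := step_two q S hS r B m hm
  have h3 := step_three q S r B m
  have h4 := step_four q hq S r B m
  set A := ∑ τ ∈ Om r B, ‖fS S ((DD B τ : ℝ) / q)‖ ^ (2 * m) with hA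
  set E := ∑ z ∈ Om r B ×ˢ Om r B, ‖fS S (((DD B z.1 - DD B z.2 : ℤ) : ℝ) / q)‖ ^ (2 * m) with hE
  set W := (WW q r B : ℝ) * (q * Tq q m S) with hW
  set s : ℝ := (S.card : ℝ) with hs
  set o : ℝ := ((Om r B).card : ℝ) with ho
  set b : ℝ := (4 * B : ℝ) ^ r with hb
  have hb0 : 0 < b := by positivity
  have hA0 : 0 ≤ A := Finset.sum_nonneg (fun _ _ => by positivity)
  -- square of step two
  have h5 : ((s * b) ^ (2 * m)) ^ 2 ≤ (o ^ (2 * m - 1) * A) ^ 2 :=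
    pow_le_pow_left₀ (by positivity) h2 2
  have h6 : (o ^ (2 * m - 1) * A) ^ 2 ≤ (o ^ (2 * m - 1)) ^ 2 * (s ^ (2 * m) * W) := by
    rw [mul_pow]
    apply mul_le_mul_of_nonneg_left _ (by positivity)
    exact h3.trans (mul_le_mul_of_nonneg_left h4 (by positivity))
  have h7 := h5.trans h6
  -- multiply by o^2 and divide
  have h8 : o = 14 ^ r * b := hO
  have h9 : (s ^ (2 * m) * b ^ (4 * m) * o ^ 2) * s ^ (2 * m) ≤
      (o ^ (4 * m) * W) * s ^ (2 * m) := by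
    have e1 : ((s * b) ^ (2 * m)) ^ 2 * o ^ 2 = (s ^ (2 * m) * b ^ (4 * m) * o ^ 2) * s ^ (2 * m) := by
      rw [← pow_mul, mul_pow]
      have : 2 * m * 2 = 2 * m + 2 * m := by ring
      rw [show s ^ (2 * m * 2) = s ^ (2 * m) * s ^ (2 * m) by rw [this, pow_add],
        show 2 * m * 2 = 4 * m by ring]
      ring
    have e2 : (o ^ (2 * m - 1)) ^ 2 * (s ^ (2 * m) * W) * o ^ 2 =
        (o ^ (4 * m) * W) * s ^ (2 * m) := by
      have : (o ^ (2 * m - 1)) ^ 2 * o ^ 2 = o ^ (4 * m) := by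
        rw [← mul_pow, ← pow_succ, ← pow_mul]
        congr 1
        omega
      rw [← this]
      ring
    rw [← e1, ← e2]
    exact mul_le_mul_of_nonneg_right h7 (by positivity)
  have h10 := le_of_mul_le_mul_right h9 (by positivity)
  have h11 : (s ^ (2 * m) * o ^ 2) * b ^ (4 * m) ≤ (14 ^ (4 * m * r) * W) * b ^ (4 * m) := by
    have e3 : o ^ (4 * m) = 14 ^ (4 * m * r) * b ^ (4 * m) := by
      rw [h8, mul_pow, ← pow_mul]
      congr 2
      ring
    rw [e3] at h10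
    linarith
  exact le_of_mul_le_mul_right h11 (by positivity)

end Pool.Agent.Work.MP_aac176_nt
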