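import Pool.Agent.Work.MP_aac176_nt.Rankin

set_option autoImplicit false

namespace Pool.Agent.Work.MP_aac176_nt

open Real Finset

lemma two_pow_card {n : ℕ} (hn : n ≠ 0) : 2 ^ n.primeFactors.card ≤ n := by
  calc 2 ^ n.primeFactors.card = ∏ p ∈ n.primeFactors, 2 := by simp
    _ ≤ ∏ p ∈ n.primeFactors, p :=
        Finset.prod_le_prod' (fun p hp => (Nat.prime_of_mem_primeFactors hp).two_le)
    _ ≤ n := Nat.le_of_dvd (Nat.pos_of_ne_zero hn) (Nat.prod_primeFactors_dvd n)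

lemma three_pow_sub_pos {t : ℕ} (ht : 1 ≤ t) : 0 < 3 ^ t - 1 := by
  have : 3 ^ 1 ≤ 3 ^ t := Nat.pow_le_pow_right (by norm_num) ht
  omega

/-- primes dividing `3 ^ t - 1` with given order. -/
noncomputable def Pd (t d : ℕ) : Finset ℕ := (3 ^ t - 1).primeFactors.filter (fun p => orderOf (3 : ZMod p) = d)

lemma dvd_three {p t : ℕ} (h : p ∣ 3 ^ t - 1) : (3 : ZMod p) ^ t = 1 := by
  have h1 : ((3 ^ t - 1 : ℕ) : ZMod p) = 0 := (ZMod.natCast_eq_zero_iff _ _).mpr h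
  have h2 : 1 ≤ 3 ^ t := Nat.one_le_pow _ _ (by norm_num)
  rw [Nat.cast_sub h2] at h1
  push_cast at h1
  exact sub_eq_zero.mp h1

lemma three_dvd {p t : ℕ} (h : (3 : ZMod p) ^ t = 1) : p ∣ 3 ^ t - 1 := by
  rw [← ZMod.natCast_eq_zero_iff]
  have h2 : 1 ≤ 3 ^ t := Nat.one_le_pow _ _ (by norm_num)
  rw [Nat.cast_sub h2]
  push_cast
  rw [h, sub_self]

lemma Pd_facts {t d p : ℕ} (ht : 1 ≤ t) (hp : p ∈ Pd t d) :
    p.Prime ∧ 0 < d ∧ d ∣ t ∧ p ∣ 3 ^ d - 1 ∧ d ∣ p - 1 := by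
  unfold Pd at hp
  rw [Finset.mem_filter] at hp
  obtain ⟨hp1, hp2⟩ := hp
  have hpp := Nat.prime_of_mem_primeFactors hp1
  have hdvd := Nat.dvd_of_mem_primeFactors hp1
  have h3 := dvd_three hdvd
  have hdt : d ∣ t := by rw [← hp2]; exact orderOf_dvd_of_pow_eq_one h3
  have hd0 : 0 < d := Nat.pos_of_dvd_of_pos hdt (by omega)
  have h4 : (3 : ZMod p) ^ d = 1 := by rw [← hp2]; exact pow_orderOf_eq_one _
  have : Fact p.Prime := ⟨hpp⟩
  have h5 : (3 : ZMod p) ≠ 0 := by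
    intro h
    rw [h, zero_pow (by omega)] at h4
    exact zero_ne_one h4
  refine ⟨hpp, hd0, hdt, three_dvd h4, ?_⟩
  rw [← hp2]
  exact ZMod.orderOf_dvd_card_sub_one h5

lemma Pd_card {t d : ℕ} (ht : 1 ≤ t) (hd : 0 < d) : (Pd t d).card ≤ 2 * d := by
  have h1 : Pd t d ⊆ (3 ^ d - 1).primeFactors := by
    intro p hp
    obtain ⟨h1, h2, h3, h4, h5⟩ := Pd_facts ht hp
    exact Nat.mem_primeFactors.mpr ⟨h1, h4, (three_pow_sub_pos h2).ne'⟩
  refine (Finset.card_le_card h1).trans ?_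
  have h2 := two_pow_card (three_pow_sub_pos hd).ne'
  have h3 : 3 ^ d - 1 < 2 ^ (2 * d) := by
    rw [pow_mul]
    have : 3 ^ d ≤ (2 ^ 2) ^ d := Nat.pow_le_pow_left (by norm_num) d
    have h0 := Nat.one_le_pow d 3 (by norm_num)
    omega
  exact ((Nat.pow_lt_pow_iff_right (by norm_num)).mp (lt_of_le_of_lt h2 h3)).le

lemma Pd_sum (σ : ℝ) (hσ0 : 0 ≤ σ) (hσ1 : σ < 1) {t d : ℕ} (ht : 1 ≤ t) (hd : 0 < d) :
    ∑ p ∈ Pd t d, (p : ℝ) ^ (-σ) ≤ 2 / (1 - σ) * (d : ℝ) ^ (1 - 2 * σ) := by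
  have hdr : (0 : ℝ) < d := by exact_mod_cast hd
  have hinj : Set.InjOn (fun p => (p - 1) / d) (Pd t d : Set ℕ) := by
    intro p hp p' hp' h
    obtain ⟨h1, h2, h3, h4, h5⟩ := Pd_facts ht (Finset.mem_coe.mp hp)
    obtain ⟨h1', h2', h3', h4', h5'⟩ := Pd_facts ht (Finset.mem_coe.mp hp')
    simp only at h
    have e1 := Nat.div_mul_cancel h5
    have e2 := Nat.div_mul_cancel h5'
    rw [h, e2] at e1
    have := h1.two_le
    have := h1'.two_le
    omega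
  have h1 : ∑ p ∈ Pd t d, (p : ℝ) ^ (-σ) ≤
      ∑ p ∈ Pd t d, (d : ℝ) ^ (-σ) * (((p - 1) / d : ℕ) : ℝ) ^ (-σ) := by
    apply Finset.sum_le_sum
    intro p hp
    obtain ⟨h1, h2, h3, h4, h5⟩ := Pd_facts ht hp
    have e1 := Nat.div_mul_cancel h5
    have hk : 0 < (p - 1) / d := Nat.div_pos (Nat.le_of_dvd (by have := h1.two_le; omega) h5) hd
    have hkr : (0 : ℝ) < (((p - 1) / d : ℕ) : ℝ) := by exact_mod_cast hk
    rw [← Real.mul_rpow hdr.le hkr.le]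
    apply Real.rpow_le_rpow_of_nonpos (by positivity) _ (by linarith)
    have : d * ((p - 1) / d) ≤ p := by
      rw [mul_comm, e1]
      omega
    exact_mod_cast this
  refine h1.trans ?_
  rw [← Finset.mul_sum]
  have h2 : ∑ p ∈ Pd t d, (((p - 1) / d : ℕ) : ℝ) ^ (-σ) =
      ∑ k ∈ (Pd t d).image (fun p => (p - 1) / d), (k : ℝ) ^ (-σ) := by
    rw [Finset.sum_image hinj]
  rw [h2]
  have h3 := sum_neg_power σ hσ1 hσ0 ((Pd t d).image (fun p => (p - 1) / d)).card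
    ((Pd t d).image (fun p => (p - 1) / d)) rfl (by
      intro k hk
      rw [Finset.mem_image] at hk
      obtain ⟨p, hp, rfl⟩ := hk
      obtain ⟨h1, h2, h3, h4, h5⟩ := Pd_facts ht hp
      exact Nat.div_pos (Nat.le_of_dvd (by have := h1.two_le; omega) h5) hd)
  rw [Finset.card_image_of_injOn hinj] at h3
  have h4 : ((Pd t d).card : ℝ) ^ (1 - σ) ≤ 2 * (d : ℝ) ^ (1 - σ) := by
    have h5 : ((Pd t d).card : ℝ) ≤ 2 * d := by exact_mod_cast Pd_card ht hd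
    calc ((Pd t d).card : ℝ) ^ (1 - σ) ≤ (2 * (d : ℝ)) ^ (1 - σ) :=
          Real.rpow_le_rpow (by positivity) h5 (by linarith)
      _ = 2 ^ (1 - σ) * (d : ℝ) ^ (1 - σ) := Real.mul_rpow (by norm_num) hdr.le
      _ ≤ 2 * (d : ℝ) ^ (1 - σ) := by
          apply mul_le_mul_of_nonneg_right _ (by positivity)
          calc (2 : ℝ) ^ (1 - σ) ≤ 2 ^ (1 : ℝ) :=
                Real.rpow_le_rpow_of_exponent_le (by norm_num) (by linarith)
            _ = 2 := Real.rpow_one 2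
  have h6 : (d : ℝ) ^ (1 - 2 * σ) = (d : ℝ) ^ (-σ) * (d : ℝ) ^ (1 - σ) := by
    rw [← Real.rpow_add hdr]
    congr 1
    ring
  have hs : 0 < 1 - σ := by linarith
  calc (d : ℝ) ^ (-σ) * ∑ k ∈ (Pd t d).image (fun p => (p - 1) / d), (k : ℝ) ^ (-σ)
      ≤ (d : ℝ) ^ (-σ) * (((Pd t d).card : ℝ) ^ (1 - σ) / (1 - σ)) :=
        mul_le_mul_of_nonneg_left h3 (by positivity)
    _ ≤ (d : ℝ) ^ (-σ) * ((2 * (d : ℝ) ^ (1 - σ)) / (1 - σ)) := by
        apply mul_le_mul_of_nonneg_left _ (by positivity)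
        exact div_le_div_of_nonneg_right h4 hs.le
    _ = 2 / (1 - σ) * (d : ℝ) ^ (1 - 2 * σ) := by rw [h6]; ring

lemma prime_sum (σ : ℝ) (hσ0 : 0 ≤ σ) (hσ1 : σ < 1) {t : ℕ} (ht : 1 ≤ t) :
    ∑ p ∈ (3 ^ t - 1 : ℕ).primeFactors, (p : ℝ) ^ (-σ) ≤
      2 / (1 - σ) * ∑ d ∈ t.divisors, (d : ℝ) ^ (1 - 2 * σ) := by
  have hmaps : ∀ p ∈ (3 ^ t - 1).primeFactors, orderOf (3 : ZMod p) ∈ t.divisors := by
    intro p hp
    have hmem : p ∈ Pd t (orderOf (3 : ZMod p)) := by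
      unfold Pd
      rw [Finset.mem_filter]
      exact ⟨hp, rfl⟩
    obtain ⟨h1, h2, h3, h4, h5⟩ := Pd_facts ht hmem
    rw [Nat.mem_divisors]
    exact ⟨h3, by omega⟩
  rw [← Finset.sum_fiberwise_of_maps_to hmaps, Finset.mul_sum]
  apply Finset.sum_le_sum
  intro d hd
  exact Pd_sum σ hσ0 hσ1 ht (Nat.pos_of_mem_divisors hd)

/-- few divisors of `3 ^ t - 1` are small. -/
lemma small_divs (σ : ℝ) (hσ0 : 0 < σ) (hσ1 : σ < 1) : ∃ K : ℝ, 0 < K ∧ ∀ t : ℕ, 1 ≤ t →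
    ∀ X : ℕ, 0 < X → (((3 ^ t - 1).divisors.filter (fun d => d < X)).card : ℝ) ≤
      (X : ℝ) ^ σ * Real.exp (K * ∑ d ∈ t.divisors, (d : ℝ) ^ (1 - 2 * σ)) := by
  have hy2 : (2 : ℝ) ^ (-σ) < 1 := Real.rpow_lt_one_of_one_lt_of_neg (by norm_num) (by linarith)
  have hy3 : 0 < 1 / (1 - (2 : ℝ) ^ (-σ)) := by
    have : 0 < 1 - (2 : ℝ) ^ (-σ) := by linarith
    positivity
  refine ⟨1 / (1 - (2 : ℝ) ^ (-σ)) * (2 / (1 - σ)), ?_, ?_⟩
  · have : 0 < 1 - σ := by linarith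
    positivity
  intro t ht X hX
  refine (rankin σ hσ0 (3 ^ t - 1) X hX).trans ?_
  apply mul_le_mul_of_nonneg_left _ (by positivity)
  refine (sumF_le σ hσ0 (three_pow_sub_pos ht).ne').trans ?_
  apply Real.exp_le_exp.mpr
  rw [mul_assoc]
  exact mul_le_mul_of_nonneg_left (prime_sum σ hσ0.le hσ1 ht) hy3.le

/-- denominators with small period. -/
def Fam (L q : ℕ) : Prop := ∃ l t : ℕ, 1 ≤ t ∧ t ≤ L ∧ q ∣ 3 ^ l * (3 ^ t - 1)

open Classical in
lemma fam_card (j L : ℕ) :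
    ((Finset.Ico (3 ^ j) (3 ^ (j + 1)) : Finset ℕ).filter (Fam L)).card ≤
      (j + 1) * ∑ t ∈ Finset.Icc 1 L,
        ((3 ^ t - 1).divisors.filter (fun d => d < 3 ^ (j + 1))).card := by
  have hsub : (Finset.Ico (3 ^ j) (3 ^ (j + 1)) : Finset ℕ).filter (Fam L) ⊆
      (range (j + 1)).biUnion (fun i => (Finset.Icc 1 L).biUnion (fun t =>
        ((3 ^ t - 1).divisors.filter (fun d => d < 3 ^ (j + 1))).image (fun m => 3 ^ i * m))) := by
    intro q hq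
    rw [Finset.mem_filter, Finset.mem_Ico] at hq
    obtain ⟨⟨h1, h2⟩, l, t, ht1, ht2, hdvd⟩ := hq
    have hq0 : q ≠ 0 := by
      have : 0 < 3 ^ j := by positivity
      omega
    obtain ⟨i, m, hm3, hqm⟩ := Nat.exists_eq_pow_mul_and_not_dvd hq0 3 (by norm_num)
    have hm0 : 0 < m := by
      rcases Nat.eq_zero_or_pos m with h | h
      · rw [h, mul_zero] at hqm
        exact absurd hqm hq0
      · exact h
    have hcop : Nat.Coprime m (3 ^ l) := by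
      apply Nat.Coprime.pow_right
      exact ((Nat.Prime.coprime_iff_not_dvd Nat.prime_three).mpr hm3).symm
    have hmd : m ∣ 3 ^ t - 1 := by
      apply hcop.dvd_of_dvd_mul_left
      exact (Dvd.intro_left _ hqm.symm).trans hdvd
    rw [Finset.mem_biUnion]
    refine ⟨i, ?_, ?_⟩
    · rw [Finset.mem_range]
      have h3 : 3 ^ i < 3 ^ (j + 1) := by
        calc 3 ^ i ≤ 3 ^ i * m := Nat.le_mul_of_pos_right _ hm0
          _ = q := hqm.symm
          _ < 3 ^ (j + 1) := h2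
      exact (Nat.pow_lt_pow_iff_right (by norm_num)).mp h3
    · rw [Finset.mem_biUnion]
      refine ⟨t, Finset.mem_Icc.mpr ⟨ht1, ht2⟩, ?_⟩
      rw [Finset.mem_image]
      refine ⟨m, ?_, hqm.symm⟩
      rw [Finset.mem_filter, Nat.mem_divisors]
      refine ⟨⟨hmd, (three_pow_sub_pos ht1).ne'⟩, ?_⟩
      calc m ≤ 3 ^ i * m := Nat.le_mul_of_pos_left _ (by positivity)
        _ = q := hqm.symm
        _ < 3 ^ (j + 1) := h2
  refine (Finset.card_le_card hsub).trans ?_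
  refine Finset.card_biUnion_le.trans ?_
  calc ∑ i ∈ range (j + 1), ((Finset.Icc 1 L).biUnion (fun t =>
        ((3 ^ t - 1).divisors.filter (fun d => d < 3 ^ (j + 1))).image (fun m => 3 ^ i * m))).card
      ≤ ∑ i ∈ range (j + 1), ∑ t ∈ Finset.Icc 1 L,
        ((3 ^ t - 1).divisors.filter (fun d => d < 3 ^ (j + 1))).card := by
        apply Finset.sum_le_sum
        intro i _
        refine Finset.card_biUnion_le.trans ?_
        apply Finset.sum_le_sum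
        intro t _
        exact Finset.card_image_le
    _ = _ := by rw [Finset.sum_const, Finset.card_range, smul_eq_mul]

end Pool.Agent.Work.MP_aac176_nt
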