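import Pool.Agent.Work.MP_aac176_nt.Orders

set_option autoImplicit false

namespace Pool.Agent.Work.MP_aac176_nt

open Real Finset

lemma subexp (M c b : ℝ) (hM : 0 ≤ M) (hc : 0 < c) (hc1 : c ≤ 1) (hb : 0 < b) :
    ∃ C' : ℝ, 0 ≤ C' ∧ ∀ y : ℝ, 0 ≤ y → M * y ^ (1 - c) ≤ b * y + C' := by
  set y0 : ℝ := (M / b) ^ (1 / c) with hy0
  have hMb : 0 ≤ M / b := by positivity
  have hy00 : 0 ≤ y0 := by rw [hy0]; positivity
  refine ⟨M * y0 ^ (1 - c), by positivity, ?_⟩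
  intro y hy
  rcases le_or_gt y y0 with h | h
  · have h1 : y ^ (1 - c) ≤ y0 ^ (1 - c) := Real.rpow_le_rpow hy h (by linarith)
    have h2 : M * y ^ (1 - c) ≤ M * y0 ^ (1 - c) := mul_le_mul_of_nonneg_left h1 hM
    have h3 : 0 ≤ b * y := by positivity
    linarith
  · have hypos : 0 < y := lt_of_le_of_lt hy00 h
    have h1 : M / b ≤ y ^ c := by
      calc M / b = y0 ^ c := by
            rw [hy0, ← Real.rpow_mul hMb, one_div_mul_cancel hc.ne', Real.rpow_one]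
        _ ≤ y ^ c := Real.rpow_le_rpow hy00 h.le hc.le
    have h2 : M ≤ b * y ^ c := by
      rw [div_le_iff₀ hb] at h1
      linarith
    have h3 : M * y ^ (1 - c) ≤ b * y := by
      calc M * y ^ (1 - c) ≤ (b * y ^ c) * y ^ (1 - c) :=
            mul_le_mul_of_nonneg_right h2 (by positivity)
        _ = b * (y ^ c * y ^ (1 - c)) := by ring
        _ = b * y := by
            rw [← Real.rpow_add hypos]
            congr 1
            rw [show c + (1 - c) = 1 by ring, Real.rpow_one]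
    have h4 : 0 ≤ M * y0 ^ (1 - c) := by positivity
    linarith

/-- subexponential functions are dominated by exponentials. -/
lemma exp_bound (M c b : ℝ) (hM : 0 ≤ M) (hc : 0 < c) (hc1 : c ≤ 1) (hb : 0 < b) :
    ∃ C : ℝ, 0 < C ∧ ∀ j : ℕ, Real.exp (M * ((j : ℝ) + 1) ^ (1 - c)) ≤
      C * (3 : ℝ) ^ (b * (j : ℝ)) := by
  have hlog3 : 0 < Real.log 3 := Real.log_pos (by norm_num)
  obtain ⟨C', hC'0, hC'⟩ := subexp M c (b * Real.log 3) hM hc hc1 (by positivity)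
  refine ⟨Real.exp (b * Real.log 3 + C'), Real.exp_pos _, ?_⟩
  intro j
  have h1 := hC' ((j : ℝ) + 1) (by positivity)
  rw [Real.rpow_def_of_pos (show (0 : ℝ) < 3 by norm_num) (b * (j : ℝ)), ← Real.exp_add]
  apply Real.exp_le_exp.mpr
  linarith

lemma poly_bound (B b : ℝ) (hB : 0 ≤ B) (hb : 0 < b) :
    ∃ C : ℝ, 0 < C ∧ ∀ j : ℕ, ((j : ℝ) + 1) ^ B ≤ C * (3 : ℝ) ^ (b * (j : ℝ)) := by
  obtain ⟨C, hC0, hC⟩ := exp_bound (2 * B) (1 / 2) b (by positivity) (by norm_num)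
    (by norm_num) hb
  refine ⟨C, hC0, ?_⟩
  intro j
  refine le_trans ?_ (hC j)
  have hj : (0 : ℝ) < (j : ℝ) + 1 := by positivity
  rw [Real.rpow_def_of_pos hj]
  apply Real.exp_le_exp.mpr
  have h1 := Real.log_le_rpow_div hj.le (ε := 1 / 2) (by norm_num)
  have h2 : ((j : ℝ) + 1) ^ (1 / 2 : ℝ) / (1 / 2) = 2 * ((j : ℝ) + 1) ^ (1 - 1 / 2 : ℝ) := by
    rw [show (1 - 1 / 2 : ℝ) = 1 / 2 by norm_num]
    ring
  rw [h2] at h1
  calc Real.log ((j : ℝ) + 1) * B ≤ (2 * ((j : ℝ) + 1) ^ (1 - 1 / 2 : ℝ)) * B :=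
        mul_le_mul_of_nonneg_right h1 hB
    _ = 2 * B * ((j : ℝ) + 1) ^ (1 - 1 / 2 : ℝ) := by ring

open Classical in
/-- few denominators have a period at most `j ^ A`. -/
theorem family_poly (A : ℝ) (hA : 1 ≤ A) (ε : ℝ) (hε : 0 < ε) : ∃ C : ℝ, 0 < C ∧ ∀ j : ℕ,
    (((Finset.Ico (3 ^ j) (3 ^ (j + 1)) : Finset ℕ).filter (Fam ⌊(j : ℝ) ^ A⌋₊)).card : ℝ) ≤
      C * (3 : ℝ) ^ (((A - 1) / (2 * A) + ε) * (j : ℝ)) := by
  have hA0 : 0 < A := by linarith
  set c : ℝ := min (A * ε) 1 with hc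
  have hc0 : 0 < c := by rw [hc]; exact lt_min (by positivity) one_pos
  have hc1 : c ≤ 1 := min_le_right _ _
  have hcA : c ≤ A * ε := min_le_left _ _
  set σ : ℝ := (1 - (1 - c) / A) / 2 with hσ
  have hcA1 : (1 - c) / A < 1 := by
    rw [div_lt_one hA0]; linarith
  have hcA2 : 0 ≤ (1 - c) / A := div_nonneg (by linarith) hA0.le
  have hσ0 : 0 < σ := by rw [hσ]; linarith
  have hσ1 : σ < 1 := by rw [hσ]; linarith
  have h12 : 1 - 2 * σ = (1 - c) / A := by rw [hσ]; ring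
  set δ : ℝ := c / (2 * A) with hδ
  have hδ0 : 0 < δ := by rw [hδ]; positivity
  obtain ⟨Cd, hCd1, hdiv⟩ := divisor_bound δ hδ0
  obtain ⟨K, hK0, hK⟩ := small_divs σ hσ0 hσ1
  obtain ⟨C1, hC10, hC1⟩ := exp_bound (K * Cd) (c / 2) (ε / 4) (by positivity) (by positivity)
    (by linarith) (by positivity)
  obtain ⟨C2, hC20, hC2⟩ := poly_bound (A + 1) (ε / 4) (by linarith) (by positivity)
  refine ⟨C2 * C1 * 3 ^ σ, by positivity, ?_⟩
  intro j
  set L : ℕ := ⌊(j : ℝ) ^ A⌋₊ with hL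
  have hjA : 0 ≤ (j : ℝ) ^ A := by positivity
  have hLle : (L : ℝ) ≤ (j : ℝ) ^ A := Nat.floor_le hjA
  have h1 := fam_card j L
  have hj1 : (0 : ℝ) < (j : ℝ) + 1 := by positivity
  have h2 : ∀ t ∈ Finset.Icc 1 L,
      (((3 ^ t - 1).divisors.filter (fun d => d < 3 ^ (j + 1))).card : ℝ) ≤
        3 ^ σ * (3 : ℝ) ^ (σ * (j : ℝ)) * (C1 * (3 : ℝ) ^ (ε / 4 * (j : ℝ))) := by
    intro t ht
    rw [Finset.mem_Icc] at ht
    have ht1 : (1 : ℝ) ≤ t := by exact_mod_cast ht.1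
    have htr : (0 : ℝ) < t := by linarith
    have htL : (t : ℝ) ≤ (j : ℝ) ^ A := by
      refine le_trans ?_ hLle
      exact_mod_cast ht.2
    refine (hK t ht.1 (3 ^ (j + 1)) (by positivity)).trans ?_
    have e1 : (((3 ^ (j + 1) : ℕ) : ℝ)) ^ σ = 3 ^ σ * (3 : ℝ) ^ (σ * (j : ℝ)) := by
      push_cast
      rw [← Real.rpow_natCast, ← Real.rpow_mul (by norm_num), ← Real.rpow_add (by norm_num)]
      congr 1
      push_cast
      ring
    rw [e1]
    apply mul_le_mul_of_nonneg_left _ (by positivity)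
    refine le_trans ?_ (hC1 j)
    apply Real.exp_le_exp.mpr
    rw [mul_assoc]
    apply mul_le_mul_of_nonneg_left _ hK0.le
    calc ∑ d ∈ t.divisors, (d : ℝ) ^ (1 - 2 * σ) ≤ ∑ d ∈ t.divisors, (t : ℝ) ^ (1 - 2 * σ) := by
          apply Finset.sum_le_sum
          intro d hd
          apply Real.rpow_le_rpow (by positivity) _ (by rw [h12]; exact hcA2)
          exact_mod_cast Nat.divisor_le hd
      _ = (t.divisors.card : ℝ) * (t : ℝ) ^ (1 - 2 * σ) := by
          rw [Finset.sum_const, nsmul_eq_mul]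
      _ ≤ (Cd * (t : ℝ) ^ δ) * (t : ℝ) ^ (1 - 2 * σ) := by
          apply mul_le_mul_of_nonneg_right (hdiv t (by omega)) (by positivity)
      _ = Cd * (t : ℝ) ^ (δ + (1 - c) / A) := by
          rw [h12, Real.rpow_add htr]
          ring
      _ ≤ Cd * ((j : ℝ) ^ A) ^ (δ + (1 - c) / A) := by
          apply mul_le_mul_of_nonneg_left _ (by linarith)
          exact Real.rpow_le_rpow htr.le htL (by linarith)
      _ = Cd * (j : ℝ) ^ (1 - c / 2) := by
          rw [← Real.rpow_mul (by positivity)]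
          congr 2
          rw [hδ]
          field_simp
          ring
      _ ≤ Cd * ((j : ℝ) + 1) ^ (1 - c / 2) := by
          apply mul_le_mul_of_nonneg_left _ (by linarith)
          exact Real.rpow_le_rpow (by positivity) (by linarith) (by linarith)
  calc (((Finset.Ico (3 ^ j) (3 ^ (j + 1)) : Finset ℕ).filter (Fam L)).card : ℝ)
      ≤ (((j + 1) * ∑ t ∈ Finset.Icc 1 L,
        ((3 ^ t - 1).divisors.filter (fun d => d < 3 ^ (j + 1))).card : ℕ) : ℝ) := by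
        exact_mod_cast h1
    _ = ((j : ℝ) + 1) * ∑ t ∈ Finset.Icc 1 L,
        (((3 ^ t - 1).divisors.filter (fun d => d < 3 ^ (j + 1))).card : ℝ) := by push_cast; ring
    _ ≤ ((j : ℝ) + 1) * ∑ t ∈ Finset.Icc 1 L,
        3 ^ σ * (3 : ℝ) ^ (σ * (j : ℝ)) * (C1 * (3 : ℝ) ^ (ε / 4 * (j : ℝ))) := by
        apply mul_le_mul_of_nonneg_left (Finset.sum_le_sum h2) (by positivity)
    _ = (((j : ℝ) + 1) * L) *
        (3 ^ σ * (3 : ℝ) ^ (σ * (j : ℝ)) * (C1 * (3 : ℝ) ^ (ε / 4 * (j : ℝ)))) := by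
        rw [Finset.sum_const, nsmul_eq_mul, Nat.card_Icc]
        push_cast
        ring
    _ ≤ (C2 * (3 : ℝ) ^ (ε / 4 * (j : ℝ))) *
        (3 ^ σ * (3 : ℝ) ^ (σ * (j : ℝ)) * (C1 * (3 : ℝ) ^ (ε / 4 * (j : ℝ)))) := by
        apply mul_le_mul_of_nonneg_right _ (by positivity)
        refine le_trans ?_ (hC2 j)
        calc ((j : ℝ) + 1) * L ≤ ((j : ℝ) + 1) * ((j : ℝ) + 1) ^ A := by
              apply mul_le_mul_of_nonneg_left _ hj1.le
              refine hLle.trans ?_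
              exact Real.rpow_le_rpow (by positivity) (by linarith) hA0.le
          _ = ((j : ℝ) + 1) ^ (A + 1) := by
              rw [Real.rpow_add hj1, Real.rpow_one]
              ring
    _ = C2 * C1 * 3 ^ σ * (3 : ℝ) ^ ((σ + ε / 2) * (j : ℝ)) := by
        have : (3 : ℝ) ^ ((σ + ε / 2) * (j : ℝ)) = (3 : ℝ) ^ (ε / 4 * (j : ℝ)) *
            ((3 : ℝ) ^ (σ * (j : ℝ)) * (3 : ℝ) ^ (ε / 4 * (j : ℝ))) := by
          rw [← Real.rpow_add (by norm_num), ← Real.rpow_add (by norm_num)]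
          congr 1
          ring
        rw [this]
        ring
    _ ≤ C2 * C1 * 3 ^ σ * (3 : ℝ) ^ (((A - 1) / (2 * A) + ε) * (j : ℝ)) := by
        apply mul_le_mul_of_nonneg_left _ (by positivity)
        apply Real.rpow_le_rpow_of_exponent_le (by norm_num)
        apply mul_le_mul_of_nonneg_right _ (by positivity)
        have h3 : σ = (A - 1) / (2 * A) + c / (2 * A) := by
          rw [hσ]
          field_simp
          ring
        have h4 : c / (2 * A) ≤ ε / 2 := by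
          rw [div_le_iff₀ (by positivity)]
          linarith
        linarith

end Pool.Agent.Work.MP_aac176_nt
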