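import Pool.Agent.Work.MP_aac176_nt.Combine

set_option autoImplicit false

namespace Pool.Agent.Work.MP_aac176_nt

open Real Finset

/-- sums of negative powers of divisors. -/
lemma divisor_neg (β : ℝ) (hβ0 : 0 < β) (hβ1 : β < 1) : ∃ M : ℝ, 0 < M ∧ ∀ t : ℕ, 1 ≤ t →
    ∑ d ∈ t.divisors, (d : ℝ) ^ (-β) ≤ Real.exp (M * (Real.log t) ^ (1 - β)) := by
  have hlog2 : 0 < Real.log 2 := Real.log_pos (by norm_num)
  have hy2 : (2 : ℝ) ^ (-β) < 1 := Real.rpow_lt_one_of_one_lt_of_neg (by norm_num) (by linarith)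
  have hy3 : 0 < 1 / (1 - (2 : ℝ) ^ (-β)) := by
    have : 0 < 1 - (2 : ℝ) ^ (-β) := by linarith
    positivity
  have hb : 0 < 1 - β := by linarith
  refine ⟨1 / (1 - (2 : ℝ) ^ (-β)) * ((1 / Real.log 2) ^ (1 - β) / (1 - β)), by positivity, ?_⟩
  intro t ht
  refine (sumF_le β hβ0 (by omega : t ≠ 0)).trans ?_
  apply Real.exp_le_exp.mpr
  rw [mul_assoc]
  apply mul_le_mul_of_nonneg_left _ hy3.le
  have h1 := sum_neg_power β hβ1 hβ0.le t.primeFactors.card t.primeFactors rfl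
    (fun p hp => (Nat.prime_of_mem_primeFactors hp).one_le)
  refine h1.trans ?_
  rw [div_mul_eq_mul_div]
  apply div_le_div_of_nonneg_right _ hb.le
  have htr : (0 : ℝ) < t := by exact_mod_cast (by omega : 0 < t)
  have hlogt : 0 ≤ Real.log t := Real.log_nonneg (by exact_mod_cast ht)
  rw [← Real.mul_rpow (by positivity) hlogt]
  apply Real.rpow_le_rpow (by positivity) _ hb.le
  have h2 : (2 : ℝ) ^ t.primeFactors.card ≤ t := by exact_mod_cast two_pow_card (by omega : t ≠ 0)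
  have h3 := Real.log_le_log (by positivity) h2
  rw [Real.log_pow] at h3
  rw [one_div, inv_mul_eq_div, le_div_iff₀ hlog2]
  exact h3

open Classical in
/-- few denominators have a period at most `exp ((log j) ^ B)`. -/
theorem family_exp (B : ℝ) (hB : 1 ≤ B) (ε : ℝ) (hε : 0 < ε) : ∃ C : ℝ, 0 < C ∧ ∀ j : ℕ,
    (((Finset.Ico (3 ^ j) (3 ^ (j + 1)) : Finset ℕ).filter
      (Fam ⌊Real.exp ((Real.log j) ^ B)⌋₊)).card : ℝ) ≤
      C * (3 : ℝ) ^ ((1 - 1 / (2 * B) + ε) * (j : ℝ)) := by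
  have hB0 : 0 < B := by linarith
  set c : ℝ := min (B * ε) (1 / 2) with hc
  have hc0 : 0 < c := by rw [hc]; exact lt_min (by positivity) (by norm_num)
  have hc1 : c ≤ 1 / 2 := min_le_right _ _
  have hcB : c ≤ B * ε := min_le_left _ _
  set β : ℝ := 1 - (1 - c) / B with hβ
  have hcB1 : (1 - c) / B < 1 := by rw [div_lt_one hB0]; linarith
  have hcB2 : 0 < (1 - c) / B := div_pos (by linarith) hB0
  have hβ0 : 0 < β := by rw [hβ]; linarith
  have hβ1 : β < 1 := by rw [hβ]; linarith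
  set σ : ℝ := (1 + β) / 2 with hσ
  have hσ0 : 0 < σ := by rw [hσ]; linarith
  have hσ1 : σ < 1 := by rw [hσ]; linarith
  have h12 : 1 - 2 * σ = -β := by rw [hσ]; ring
  obtain ⟨K, hK0, hK⟩ := small_divs σ hσ0 hσ1
  obtain ⟨M, hM0, hM⟩ := divisor_neg β hβ0 hβ1
  -- the inner exponential is at most a square root
  obtain ⟨C3, hC30, hC3⟩ := subexp M c (1 / 2) hM0.le hc0 (by linarith) (by norm_num)
  obtain ⟨C1, hC10, hC1⟩ := exp_bound (K * Real.exp C3) (1 / 2) (ε / 4) (by positivity)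
    (by norm_num) (by norm_num) (by positivity)
  obtain ⟨C2, hC20, hC2⟩ := exp_bound ((2 * B) ^ B) (1 / 2) (ε / 8) (by positivity) (by norm_num)
    (by norm_num) (by positivity)
  obtain ⟨C4, hC40, hC4⟩ := poly_bound 1 (ε / 8) (by norm_num) (by positivity)
  refine ⟨C4 * C2 * C1 * 3 ^ σ, by positivity, ?_⟩
  intro j
  have hlogj : 0 ≤ Real.log (j : ℝ) := Real.log_natCast_nonneg j
  set L : ℕ := ⌊Real.exp ((Real.log j) ^ B)⌋₊ with hL
  have hLle : (L : ℝ) ≤ Real.exp ((Real.log j) ^ B) := Nat.floor_le (Real.exp_pos _).le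
  have h1 := fam_card j L
  have hj1 : (0 : ℝ) < (j : ℝ) + 1 := by positivity
  have hlogj1 : Real.log (j : ℝ) ≤ Real.log ((j : ℝ) + 1) := by
    rcases Nat.eq_zero_or_pos j with h | h
    · subst h
      simp
    · exact Real.log_le_log (by exact_mod_cast h) (by linarith)
  have h2 : ∀ t ∈ Finset.Icc 1 L,
      (((3 ^ t - 1).divisors.filter (fun d => d < 3 ^ (j + 1))).card : ℝ) ≤
        3 ^ σ * (3 : ℝ) ^ (σ * (j : ℝ)) * (C1 * (3 : ℝ) ^ (ε / 4 * (j : ℝ))) := by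
    intro t ht
    rw [Finset.mem_Icc] at ht
    have ht1 : (1 : ℝ) ≤ t := by exact_mod_cast ht.1
    have htr : (0 : ℝ) < t := by linarith
    have htL : Real.log (t : ℝ) ≤ (Real.log j) ^ B := by
      rw [← Real.log_exp ((Real.log j) ^ B)]
      apply Real.log_le_log htr
      refine le_trans ?_ hLle
      exact_mod_cast ht.2
    have hlogt : 0 ≤ Real.log t := Real.log_nonneg ht1
    refine (hK t ht.1 (3 ^ (j + 1)) (by positivity)).trans ?_
    have e1 : (((3 ^ (j + 1) : ℕ) : ℝ)) ^ σ = 3 ^ σ * (3 : ℝ) ^ (σ * (j : ℝ)) := by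
      push_cast
      rw [← Real.rpow_natCast, ← Real.rpow_mul (by norm_num), ← Real.rpow_add (by norm_num)]
      congr 1
      push_cast
      ring
    rw [e1]
    apply mul_le_mul_of_nonneg_left _ (by positivity)
    refine le_trans ?_ (hC1 j)
    apply Real.exp_le_exp.mpr
    rw [mul_assoc]
    apply mul_le_mul_of_nonneg_left _ hK0.le
    rw [h12]
    refine (hM t ht.1).trans ?_
    have e2 : (Real.log (t : ℝ)) ^ (1 - β) ≤ (Real.log (j : ℝ)) ^ (1 - c) := by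
      calc (Real.log (t : ℝ)) ^ (1 - β) ≤ ((Real.log j) ^ B) ^ (1 - β) :=
            Real.rpow_le_rpow hlogt htL (by linarith)
        _ = (Real.log (j : ℝ)) ^ (1 - c) := by
            rw [← Real.rpow_mul hlogj]
            congr 1
            rw [hβ]
            field_simp
            ring
    calc Real.exp (M * (Real.log (t : ℝ)) ^ (1 - β)) ≤
          Real.exp (M * (Real.log (j : ℝ)) ^ (1 - c)) := by
          apply Real.exp_le_exp.mpr
          exact mul_le_mul_of_nonneg_left e2 hM0.le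
      _ ≤ Real.exp (1 / 2 * Real.log (j : ℝ) + C3) := by
          apply Real.exp_le_exp.mpr
          exact hC3 _ hlogj
      _ ≤ Real.exp (1 / 2 * Real.log ((j : ℝ) + 1) + C3) := by
          apply Real.exp_le_exp.mpr
          linarith
      _ = Real.exp C3 * ((j : ℝ) + 1) ^ (1 - 1 / 2 : ℝ) := by
          rw [Real.exp_add, Real.rpow_def_of_pos hj1, mul_comm]
          congr 2
          ring
  have h3 : (L : ℝ) ≤ C2 * (3 : ℝ) ^ (ε / 8 * (j : ℝ)) := by
    refine hLle.trans (le_trans ?_ (hC2 j))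
    apply Real.exp_le_exp.mpr
    have e3 := Real.log_le_rpow_div hj1.le (ε := 1 / (2 * B)) (by positivity)
    have e4 : ((j : ℝ) + 1) ^ (1 / (2 * B)) / (1 / (2 * B)) =
        2 * B * ((j : ℝ) + 1) ^ (1 / (2 * B)) := by
      field_simp
    rw [e4] at e3
    calc (Real.log (j : ℝ)) ^ B ≤ (2 * B * ((j : ℝ) + 1) ^ (1 / (2 * B))) ^ B :=
          Real.rpow_le_rpow hlogj (hlogj1.trans e3) hB0.le
      _ = (2 * B) ^ B * ((j : ℝ) + 1) ^ (1 - 1 / 2 : ℝ) := by
          rw [Real.mul_rpow (by positivity) (by positivity), ← Real.rpow_mul hj1.le]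
          congr 2
          field_simp
          norm_num
  calc (((Finset.Ico (3 ^ j) (3 ^ (j + 1)) : Finset ℕ).filter (Fam L)).card : ℝ)
      ≤ (((j + 1) * ∑ t ∈ Finset.Icc 1 L,
        ((3 ^ t - 1).divisors.filter (fun d => d < 3 ^ (j + 1))).card : ℕ) : ℝ) := by
        exact_mod_cast h1
    _ = ((j : ℝ) + 1) * ∑ t ∈ Finset.Icc 1 L,
        (((3 ^ t - 1).divisors.filter (fun d => d < 3 ^ (j + 1))).card : ℝ) := by push_cast; ring
    _ ≤ ((j : ℝ) + 1) * ∑ t ∈ Finset.Icc 1 L,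
        3 ^ σ * (3 : ℝ) ^ (σ * (j : ℝ)) * (C1 * (3 : ℝ) ^ (ε / 4 * (j : ℝ))) := by
        apply mul_le_mul_of_nonneg_left (Finset.sum_le_sum h2) (by positivity)
    _ = (((j : ℝ) + 1) * L) *
        (3 ^ σ * (3 : ℝ) ^ (σ * (j : ℝ)) * (C1 * (3 : ℝ) ^ (ε / 4 * (j : ℝ)))) := by
        rw [Finset.sum_const, nsmul_eq_mul, Nat.card_Icc]
        push_cast
        ring
    _ ≤ ((C4 * (3 : ℝ) ^ (ε / 8 * (j : ℝ))) * (C2 * (3 : ℝ) ^ (ε / 8 * (j : ℝ)))) *
        (3 ^ σ * (3 : ℝ) ^ (σ * (j : ℝ)) * (C1 * (3 : ℝ) ^ (ε / 4 * (j : ℝ)))) := by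
        apply mul_le_mul_of_nonneg_right _ (by positivity)
        apply mul_le_mul _ h3 (by positivity) (by positivity)
        have := hC4 j
        rw [Real.rpow_one] at this
        exact this
    _ = C4 * C2 * C1 * 3 ^ σ * (3 : ℝ) ^ ((σ + ε / 2) * (j : ℝ)) := by
        have : (3 : ℝ) ^ ((σ + ε / 2) * (j : ℝ)) = (3 : ℝ) ^ (ε / 8 * (j : ℝ)) *
            ((3 : ℝ) ^ (ε / 8 * (j : ℝ)) *
            ((3 : ℝ) ^ (σ * (j : ℝ)) * (3 : ℝ) ^ (ε / 4 * (j : ℝ)))) := by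
          rw [← Real.rpow_add (by norm_num), ← Real.rpow_add (by norm_num),
            ← Real.rpow_add (by norm_num)]
          congr 1
          ring
        rw [this]
        ring
    _ ≤ C4 * C2 * C1 * 3 ^ σ * (3 : ℝ) ^ ((1 - 1 / (2 * B) + ε) * (j : ℝ)) := by
        apply mul_le_mul_of_nonneg_left _ (by positivity)
        apply Real.rpow_le_rpow_of_exponent_le (by norm_num)
        apply mul_le_mul_of_nonneg_right _ (by positivity)
        have h3 : σ = 1 - 1 / (2 * B) + c / (2 * B) := by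
          rw [hσ, hβ]
          field_simp
          ring
        have h4 : c / (2 * B) ≤ ε / 2 := by
          rw [div_le_iff₀ (by positivity)]
          linarith
        linarith

/-- fractions with quasi-polynomial periods. -/
theorem periods_quasi (B : ℝ) (hB : 1 ≤ B) (ε : ℝ) (hε : 0 < ε) : ∃ C : ℝ, ∀ j : ℕ,
      (({pq : ℕ × ℕ | 3 ^ j ≤ pq.2 ∧ pq.2 < 3 ^ (j + 1) ∧
          ((pq.1 : ℝ) / (pq.2 : ℝ)) ∈ cantorSet ∧
          ∃ l t : ℕ, 1 ≤ t ∧ (t : ℝ) ≤ Real.exp ((Real.log j) ^ B) ∧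
            pq.2 ∣ 3 ^ l * (3 ^ t - 1)}.ncard : ℕ) : ℝ) ≤
        C * (3 : ℝ) ^ ((1 - (1 - Real.log 2 / Real.log 3) / (2 * B) + ε) * (j : ℝ)) := by
  have hB0 : 0 < B := by linarith
  have hle : 1 / (2 * B) ≤ 1 := by rw [div_le_one (by linarith)]; linarith
  have hge : 0 ≤ 1 / (2 * B) := by positivity
  obtain ⟨C, hC⟩ := combine (1 - 1 / (2 * B)) (by linarith) (by linarith)
    (fun j q => Fam ⌊Real.exp ((Real.log j) ^ B)⌋₊ q) (fun ε hε => family_exp B hB ε hε) ε hε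
  refine ⟨C, ?_⟩
  intro j
  have hset : {pq : ℕ × ℕ | 3 ^ j ≤ pq.2 ∧ pq.2 < 3 ^ (j + 1) ∧
          ((pq.1 : ℝ) / (pq.2 : ℝ)) ∈ cantorSet ∧
          ∃ l t : ℕ, 1 ≤ t ∧ (t : ℝ) ≤ Real.exp ((Real.log j) ^ B) ∧
            pq.2 ∣ 3 ^ l * (3 ^ t - 1)} =
      {pq : ℕ × ℕ | 3 ^ j ≤ pq.2 ∧ pq.2 < 3 ^ (j + 1) ∧
          ((pq.1 : ℝ) / (pq.2 : ℝ)) ∈ cantorSet ∧
          Fam ⌊Real.exp ((Real.log j) ^ B)⌋₊ pq.2} := by
    ext pq
    simp only [Set.mem_ofPred_eq]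
    have : (∃ l t : ℕ, 1 ≤ t ∧ (t : ℝ) ≤ Real.exp ((Real.log j) ^ B) ∧
        pq.2 ∣ 3 ^ l * (3 ^ t - 1)) ↔ Fam ⌊Real.exp ((Real.log j) ^ B)⌋₊ pq.2 := by
      unfold Fam
      simp only [Nat.le_floor_iff (Real.exp_pos ((Real.log (j : ℝ)) ^ B)).le]
    rw [this]
  rw [hset]
  refine (hC j).trans_eq ?_
  congr 3
  ring

end Pool.Agent.Work.MP_aac176_nt
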