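import Pool.Agent.Work.MP_aac176_nt.Levels

set_option autoImplicit false

namespace Pool.Agent.Work.MP_aac176_nt

open Real Finset

/-- the arithmetic function `n ^ (-σ)`. -/
noncomputable def powF (σ : ℝ) : ArithmeticFunction ℝ :=
  ⟨fun n => if n = 0 then 0 else (n : ℝ) ^ (-σ), by simp⟩

lemma powF_apply (σ : ℝ) {n : ℕ} (hn : n ≠ 0) : powF σ n = (n : ℝ) ^ (-σ) := by
  unfold powF
  rw [ArithmeticFunction.coe_mk, if_neg hn]

lemma powF_mult (σ : ℝ) : (powF σ).IsMultiplicative := by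
  constructor
  · rw [powF_apply σ one_ne_zero]
    simp
  · intro m n _
    rcases Nat.eq_zero_or_pos m with hm | hm
    · subst hm
      simp [powF]
    rcases Nat.eq_zero_or_pos n with hn | hn
    · subst hn
      simp [powF]
    rw [powF_apply σ hm.ne', powF_apply σ hn.ne', powF_apply σ (Nat.mul_pos hm hn).ne']
    push_cast
    rw [Real.mul_rpow (by positivity) (by positivity)]

/-- sum of `d ^ (-σ)` over the divisors. -/
noncomputable def sumF (σ : ℝ) : ArithmeticFunction ℝ :=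
  powF σ * (ArithmeticFunction.zeta : ArithmeticFunction ℝ)

lemma sumF_apply (σ : ℝ) (n : ℕ) : sumF σ n = ∑ d ∈ n.divisors, (d : ℝ) ^ (-σ) := by
  unfold sumF
  rw [ArithmeticFunction.coe_mul_zeta_apply]
  apply Finset.sum_congr rfl
  intro d hd
  exact powF_apply σ (Nat.pos_of_mem_divisors hd).ne'

lemma sumF_mult (σ : ℝ) : (sumF σ).IsMultiplicative := by
  unfold sumF
  exact (powF_mult σ).mul ArithmeticFunction.isMultiplicative_zeta.natCast

lemma geom_le {y : ℝ} (hy0 : 0 ≤ y) (hy1 : y < 1) (n : ℕ) : ∑ i ∈ range n, y ^ i ≤ 1 / (1 - y) := by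
  rw [le_div_iff₀ (by linarith)]
  have h := geom_sum_mul_neg y n
  rw [h]
  have : 0 ≤ y ^ n := pow_nonneg hy0 n
  linarith

lemma local_factor (σ : ℝ) (hσ : 0 < σ) {p : ℕ} (hp : p.Prime) (k : ℕ) :
    sumF σ (p ^ k) ≤ Real.exp (1 / (1 - (2 : ℝ) ^ (-σ)) * (p : ℝ) ^ (-σ)) := by
  have hp2 : (2 : ℝ) ≤ p := by exact_mod_cast hp.two_le
  set y : ℝ := (p : ℝ) ^ (-σ) with hy
  set y2 : ℝ := (2 : ℝ) ^ (-σ) with hy2
  have hy0 : 0 < y := by rw [hy]; positivity
  have hyy : y ≤ y2 := by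
    rw [hy, hy2]
    exact Real.rpow_le_rpow_of_nonpos (by norm_num) hp2 (by linarith)
  have hy21 : y2 < 1 := by
    rw [hy2]
    exact Real.rpow_lt_one_of_one_lt_of_neg (by norm_num) (by linarith)
  rw [sumF_apply, Nat.sum_divisors_prime_pow hp]
  have h1 : ∑ i ∈ range (k + 1), ((p ^ i : ℕ) : ℝ) ^ (-σ) = ∑ i ∈ range (k + 1), y ^ i := by
    apply Finset.sum_congr rfl
    intro i _
    rw [hy]
    push_cast
    rw [← Real.rpow_natCast, ← Real.rpow_natCast, ← Real.rpow_mul (by positivity),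
      ← Real.rpow_mul (by positivity), mul_comm]
  rw [h1]
  refine (geom_le hy0.le (lt_of_le_of_lt hyy hy21) (k + 1)).trans ?_
  have h2 : 1 / (1 - y) = y / (1 - y) + 1 := by
    have : 1 - y ≠ 0 := by linarith
    field_simp
    ring
  rw [h2]
  refine (Real.add_one_le_exp _).trans ?_
  apply Real.exp_le_exp.mpr
  rw [div_mul_eq_mul_div, one_mul]
  apply div_le_div_of_nonneg_left hy0.le (by linarith) (by linarith)

/-- Rankin's bound, first part. -/
lemma sumF_le (σ : ℝ) (hσ : 0 < σ) {n : ℕ} (hn : n ≠ 0) :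
    ∑ d ∈ n.divisors, (d : ℝ) ^ (-σ) ≤
      Real.exp (1 / (1 - (2 : ℝ) ^ (-σ)) * ∑ p ∈ n.primeFactors, (p : ℝ) ^ (-σ)) := by
  rw [← sumF_apply, (sumF_mult σ).multiplicative_factorization _ hn, Finsupp.prod,
    Nat.support_factorization, Finset.mul_sum, Real.exp_sum]
  apply Finset.prod_le_prod
  · intro p _
    rw [sumF_apply]
    exact Finset.sum_nonneg (fun _ _ => by positivity)
  · intro p hp
    exact local_factor σ hσ (Nat.prime_of_mem_primeFactors hp) _

/-- Rankin's bound, second part. -/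
lemma rankin (σ : ℝ) (hσ : 0 < σ) (n : ℕ) (X : ℕ) (hX : 0 < X) :
    ((n.divisors.filter (fun d => d < X)).card : ℝ) ≤
      (X : ℝ) ^ σ * ∑ d ∈ n.divisors, (d : ℝ) ^ (-σ) := by
  have hXr : (0 : ℝ) < X := by exact_mod_cast hX
  calc ((n.divisors.filter (fun d => d < X)).card : ℝ) =
      ∑ d ∈ n.divisors.filter (fun d => d < X), (1 : ℝ) := by simp
    _ ≤ ∑ d ∈ n.divisors.filter (fun d => d < X), (X : ℝ) ^ σ * (d : ℝ) ^ (-σ) := by
        apply Finset.sum_le_sum
        intro d hd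
        rw [Finset.mem_filter] at hd
        have hd0 : (0 : ℝ) < d := by exact_mod_cast Nat.pos_of_mem_divisors hd.1
        have hdX : (d : ℝ) ≤ X := by exact_mod_cast hd.2.le
        rw [Real.rpow_neg hd0.le, ← div_eq_mul_inv, one_le_div (by positivity)]
        exact Real.rpow_le_rpow hd0.le hdX hσ.le
    _ ≤ ∑ d ∈ n.divisors, (X : ℝ) ^ σ * (d : ℝ) ^ (-σ) := by
        apply Finset.sum_le_sum_of_subset_of_nonneg (Finset.filter_subset _ _)
        intro _ _ _
        positivity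
    _ = _ := by rw [Finset.mul_sum]

lemma step_power (σ : ℝ) (hσ1 : σ < 1) (hσ0 : 0 ≤ σ) (n : ℕ) :
    ((n + 1 : ℕ) : ℝ) ^ (-σ) ≤
      (((n + 1 : ℕ) : ℝ) ^ (1 - σ) - (n : ℝ) ^ (1 - σ)) / (1 - σ) := by
  have h1 : (0 : ℝ) < ((n + 1 : ℕ) : ℝ) := by positivity
  set N : ℝ := ((n + 1 : ℕ) : ℝ) with hN
  have hn : (n : ℝ) = N * (1 + (-(1 / N))) := by
    rw [hN]; push_cast; field_simp; ring
  have hN1 : 1 ≤ N := by rw [hN]; push_cast; linarith [Nat.cast_nonneg (α := ℝ) n]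
  have h2 : -1 ≤ -(1 / N) := by
    have : 1 / N ≤ 1 := by rw [div_le_one h1]; exact hN1
    linarith
  have h3 := rpow_one_add_le_one_add_mul_self h2 (p := 1 - σ) (by linarith) (by linarith)
  have h4 : (n : ℝ) ^ (1 - σ) ≤ N ^ (1 - σ) * (1 + (1 - σ) * (-(1 / N))) := by
    rw [hn, Real.mul_rpow h1.le (by linarith)]
    exact mul_le_mul_of_nonneg_left h3 (by positivity)
  rw [le_div_iff₀ (by linarith)]
  have h5 : N ^ (1 - σ) * (1 / N) = N ^ (-σ) := by
    rw [one_div, ← Real.rpow_neg_one, ← Real.rpow_add h1]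
    congr 1
    ring
  have h6 : N ^ (1 - σ) * (1 + (1 - σ) * (-(1 / N))) =
      N ^ (1 - σ) - (1 - σ) * (N ^ (1 - σ) * (1 / N)) := by ring
  rw [h6, h5] at h4
  linarith

/-- sums of negative powers over sets of positive integers. -/
lemma sum_neg_power (σ : ℝ) (hσ1 : σ < 1) (hσ0 : 0 ≤ σ) : ∀ (n : ℕ) (P : Finset ℕ),
    P.card = n → (∀ k ∈ P, 1 ≤ k) → ∑ k ∈ P, (k : ℝ) ^ (-σ) ≤ (n : ℝ) ^ (1 - σ) / (1 - σ) := by
  intro n
  induction n with
  | zero =>
    intro P hP _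
    rw [Finset.card_eq_zero] at hP
    rw [hP, Finset.sum_empty]
    apply div_nonneg _ (by linarith)
    positivity
  | succ n ih =>
    intro P hP hk
    have hne : P.Nonempty := by
      rw [← Finset.card_pos, hP]
      omega
    set M := P.max' hne with hM
    have hMmem : M ∈ P := Finset.max'_mem P hne
    have hMn : n + 1 ≤ M := by
      have h1 : P ⊆ Finset.Icc 1 M := by
        intro k hk'
        rw [Finset.mem_Icc]
        exact ⟨hk k hk', Finset.le_max' P k hk'⟩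
      have h2 := Finset.card_le_card h1
      rw [hP, Nat.card_Icc] at h2
      omega
    rw [← Finset.add_sum_erase P _ hMmem]
    have h3 := ih (P.erase M) (by rw [Finset.card_erase_of_mem hMmem, hP]; rfl)
      (fun k hk' => hk k (Finset.mem_of_mem_erase hk'))
    have h4 : (M : ℝ) ^ (-σ) ≤ ((n + 1 : ℕ) : ℝ) ^ (-σ) := by
      apply Real.rpow_le_rpow_of_nonpos (by positivity) _ (by linarith)
      exact_mod_cast hMn
    have h5 := step_power σ hσ1 hσ0 n
    have h6 : (((n + 1 : ℕ) : ℝ) ^ (1 - σ) - (n : ℝ) ^ (1 - σ)) / (1 - σ) +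
        (n : ℝ) ^ (1 - σ) / (1 - σ) = ((n + 1 : ℕ) : ℝ) ^ (1 - σ) / (1 - σ) := by
      rw [← add_div]
      congr 1
      ring
    linarith

end Pool.Agent.Work.MP_aac176_nt
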