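import Pool.Agent.Work.MP_aac176_nt.Moment

set_option autoImplicit false

namespace Pool.Agent.Work.MP_aac176_nt

open Real Finset

lemma sg_sub_cast {m : ℕ} (x : Fin m → ℕ) : (sg x : ℝ) = ∑ i, (x i : ℝ) := by
  unfold sg; push_cast; rfl

theorem transfer (q n m : ℕ) (hq : 0 < q) (hqn : q < 3 ^ n) (S : Finset ℕ) (M : ℕ → ℕ)
    (hM : ∀ p ∈ S, (3 : ℝ) ^ n * ((p : ℝ) / q) - 2 * M p ∈ cantorSet) :
    Tq q m S ≤ (2 * m + 1) * Tq (3 ^ n) m (S.image M) := by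
  classical
  have hq' : (q : ℝ) ≠ 0 := by exact_mod_cast hq.ne'
  have hqpos : (0 : ℝ) < q := by exact_mod_cast hq
  have hδ : ∀ p ∈ S, 0 ≤ (3 : ℝ) ^ n * ((p : ℝ) / q) - 2 * M p ∧
      (3 : ℝ) ^ n * ((p : ℝ) / q) - 2 * M p ≤ 1 := fun p hp =>
    cantorSet_subset_unitInterval (hM p hp)
  -- injectivity
  have hinj : ∀ p ∈ S, ∀ p' ∈ S, M p = M p' → p = p' := by
    intro p hp p' hp' h
    have h1 := hδ p hp
    have h2 := hδ p' hp'
    rw [h] at h1
    have h3 : (3 : ℝ) ^ n * ((p : ℝ) / q) - (3 : ℝ) ^ n * ((p' : ℝ) / q) ≤ 1 := by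
      linarith [h1.2, h2.1]
    have h4 : (3 : ℝ) ^ n * ((p' : ℝ) / q) - (3 : ℝ) ^ n * ((p : ℝ) / q) ≤ 1 := by
      linarith [h1.1, h2.2]
    have hqn' : (q : ℝ) < 3 ^ n := by exact_mod_cast hqn
    have key : ∀ a b : ℕ, (3 : ℝ) ^ n * ((a : ℝ) / q) - (3 : ℝ) ^ n * ((b : ℝ) / q) ≤ 1 →
        a ≤ b := by
      intro a b hab
      by_contra hlt
      push Not at hlt
      have h5 : (1 : ℝ) ≤ (a : ℝ) - b := by
        have : (b : ℝ) + 1 ≤ a := by exact_mod_cast hlt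
        linarith
      have h6 : (3 : ℝ) ^ n * ((a : ℝ) / q) - (3 : ℝ) ^ n * ((b : ℝ) / q) =
          3 ^ n * ((a : ℝ) - b) / q := by
        field_simp
      rw [h6, div_le_one hqpos] at hab
      have h7 : (3 : ℝ) ^ n * 1 ≤ 3 ^ n * ((a : ℝ) - b) :=
        mul_le_mul_of_nonneg_left h5 (by positivity)
      linarith
    exact le_antisymm (key p p' h3) (key p' p h4)
  set T := tup m S with hT
  have hmem : ∀ x ∈ T, ∀ i, x i ∈ S := by
    intro x hx i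
    rw [hT, tup, Fintype.mem_piFinset] at hx
    exact hx i
  set κ : (Fin m → ℕ) → ℤ := fun x => sg (fun i => M (x i)) with hκ
  set R : Finset ((Fin m → ℕ) × (Fin m → ℕ)) :=
    (T ×ˢ T).filter (fun z => ((3 ^ n : ℕ) : ℤ) ∣ κ z.1 - κ z.2) with hR
  have hRle : R.card ≤ Tq (3 ^ n) m (S.image M) := by
    unfold Tq
    apply Finset.card_le_card_of_injOn (fun z => ((fun i => M (z.1 i)), (fun i => M (z.2 i))))
    · intro z hz
      have hz' := Finset.mem_filter.mp (Finset.mem_coe.mp hz)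
      have hz1 := Finset.mem_product.mp hz'.1
      apply Finset.mem_coe.mpr
      rw [Finset.mem_filter, Finset.mem_product]
      refine ⟨⟨?_, ?_⟩, hz'.2⟩
      · rw [tup, Fintype.mem_piFinset]
        intro i
        exact Finset.mem_image_of_mem _ (hmem _ hz1.1 i)
      · rw [tup, Fintype.mem_piFinset]
        intro i
        exact Finset.mem_image_of_mem _ (hmem _ hz1.2 i)
    · intro z hz w hw hzw
      have hz1 := Finset.mem_product.mp (Finset.mem_filter.mp (Finset.mem_coe.mp hz)).1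
      have hw1 := Finset.mem_product.mp (Finset.mem_filter.mp (Finset.mem_coe.mp hw)).1
      rw [Prod.mk.injEq] at hzw
      obtain ⟨ha, hb⟩ := hzw
      refine Prod.ext ?_ ?_
      · funext i
        exact hinj _ (hmem _ hz1.1 i) _ (hmem _ hw1.1 i) (congrFun ha i)
      · funext i
        exact hinj _ (hmem _ hz1.2 i) _ (hmem _ hw1.2 i) (congrFun hb i)
  -- the shifted coincidences
  have hodd : IsCoprime ((3 ^ n : ℕ) : ℤ) 2 := by
    have h3 : IsCoprime (3 : ℤ) 2 := ⟨1, -1, by norm_num⟩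
    push_cast
    exact h3.pow_left
  have hshift : ∀ u : ℤ, ((T ×ˢ T).filter (fun z =>
      (2 * κ z.1 + u) % ((3 ^ n : ℕ) : ℤ) = (2 * κ z.2) % ((3 ^ n : ℕ) : ℤ))).card ≤ R.card := by
    intro u
    have hc := coincidence T T (fun x => (2 * κ x + u) % ((3 ^ n : ℕ) : ℤ))
      (fun y => (2 * κ y) % ((3 ^ n : ℕ) : ℤ))
    have e1 : (T ×ˢ T).filter (fun z =>
        (2 * κ z.1 + u) % ((3 ^ n : ℕ) : ℤ) = (2 * κ z.2 + u) % ((3 ^ n : ℕ) : ℤ)) = R := by
      rw [hR]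
      apply Finset.filter_congr
      intro z _
      constructor
      · intro h
        have h1 : ((3 ^ n : ℕ) : ℤ) ∣ (2 * κ z.1 + u) - (2 * κ z.2 + u) :=
          Int.ModEq.dvd (Eq.symm h)
        have h2 : (2 * κ z.1 + u) - (2 * κ z.2 + u) = 2 * (κ z.1 - κ z.2) := by ring
        rw [h2] at h1
        exact hodd.dvd_of_dvd_mul_left h1
      · intro h
        apply Int.ModEq.symm
        rw [Int.modEq_iff_dvd]
        have h2 : (2 * κ z.1 + u) - (2 * κ z.2 + u) = 2 * (κ z.1 - κ z.2) := by ring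
        rw [h2]
        exact Dvd.dvd.mul_left h 2
    have e2 : (T ×ˢ T).filter (fun z =>
        (2 * κ z.1) % ((3 ^ n : ℕ) : ℤ) = (2 * κ z.2) % ((3 ^ n : ℕ) : ℤ)) = R := by
      rw [hR]
      apply Finset.filter_congr
      intro z _
      constructor
      · intro h
        have h1 : ((3 ^ n : ℕ) : ℤ) ∣ (2 * κ z.1) - (2 * κ z.2) :=
          Int.ModEq.dvd (Eq.symm h)
        have h2 : (2 * κ z.1) - (2 * κ z.2) = 2 * (κ z.1 - κ z.2) := by ring
        rw [h2] at h1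
        exact hodd.dvd_of_dvd_mul_left h1
      · intro h
        apply Int.ModEq.symm
        rw [Int.modEq_iff_dvd]
        have h2 : (2 * κ z.1) - (2 * κ z.2) = 2 * (κ z.1 - κ z.2) := by ring
        rw [h2]
        exact Dvd.dvd.mul_left h 2
    rw [e1, e2] at hc
    omega
  have hsub : (T ×ˢ T).filter (fun z => (q : ℤ) ∣ sg z.1 - sg z.2) ⊆
      (Finset.Icc (-(m : ℤ)) m).biUnion (fun u => (T ×ˢ T).filter (fun z =>
      (2 * κ z.1 + u) % ((3 ^ n : ℕ) : ℤ) = (2 * κ z.2) % ((3 ^ n : ℕ) : ℤ))) := by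
    intro z hz
    rw [Finset.mem_filter] at hz
    obtain ⟨hz1, k, hk⟩ := hz
    have hz2 := Finset.mem_product.mp hz1
    rw [Finset.mem_biUnion]
    refine ⟨(3 ^ n : ℕ) * k - 2 * (κ z.1 - κ z.2), ?_, ?_⟩
    · have hx0 : (0 : ℝ) ≤ ∑ i, ((3 : ℝ) ^ n * ((z.1 i : ℝ) / q) - 2 * M (z.1 i)) :=
        Finset.sum_nonneg (fun i _ => (hδ _ (hmem _ hz2.1 i)).1)
      have hy0 : (0 : ℝ) ≤ ∑ i, ((3 : ℝ) ^ n * ((z.2 i : ℝ) / q) - 2 * M (z.2 i)) :=
        Finset.sum_nonneg (fun i _ => (hδ _ (hmem _ hz2.2 i)).1)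
      have hx1 : ∑ i, ((3 : ℝ) ^ n * ((z.1 i : ℝ) / q) - 2 * M (z.1 i)) ≤ m := by
        calc _ ≤ ∑ i : Fin m, (1 : ℝ) :=
              Finset.sum_le_sum (fun i _ => (hδ _ (hmem _ hz2.1 i)).2)
          _ = m := by simp
      have hy1 : ∑ i, ((3 : ℝ) ^ n * ((z.2 i : ℝ) / q) - 2 * M (z.2 i)) ≤ m := by
        calc _ ≤ ∑ i : Fin m, (1 : ℝ) :=
              Finset.sum_le_sum (fun i _ => (hδ _ (hmem _ hz2.2 i)).2)
          _ = m := by simp
      have hx2 : ∑ i, ((3 : ℝ) ^ n * ((z.1 i : ℝ) / q) - 2 * M (z.1 i)) =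
          3 ^ n * ((sg z.1 : ℝ) / q) - 2 * κ z.1 := by
        rw [Finset.sum_sub_distrib, ← Finset.mul_sum, ← Finset.mul_sum, ← Finset.sum_div, hκ]
        simp only
        rw [sg_sub_cast, sg_sub_cast]
      have hy2 : ∑ i, ((3 : ℝ) ^ n * ((z.2 i : ℝ) / q) - 2 * M (z.2 i)) =
          3 ^ n * ((sg z.2 : ℝ) / q) - 2 * κ z.2 := by
        rw [Finset.sum_sub_distrib, ← Finset.mul_sum, ← Finset.mul_sum, ← Finset.sum_div, hκ]
        simp only
        rw [sg_sub_cast, sg_sub_cast]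
      rw [hx2] at hx0 hx1
      rw [hy2] at hy0 hy1
      have hk' : (sg z.1 : ℝ) - sg z.2 = q * k := by exact_mod_cast hk
      have hk2 : (3 : ℝ) ^ n * ((sg z.1 : ℝ) / q) - 3 ^ n * ((sg z.2 : ℝ) / q) = 3 ^ n * k := by
        rw [← mul_sub, ← sub_div, hk', mul_div_cancel_left₀ _ hq']
      rw [Finset.mem_Icc]
      constructor
      · have : (-(m : ℝ)) ≤ (((3 ^ n : ℕ) * k - 2 * (κ z.1 - κ z.2) : ℤ) : ℝ) := by
          push_cast
          linarith
        exact_mod_cast this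
      · have : (((3 ^ n : ℕ) * k - 2 * (κ z.1 - κ z.2) : ℤ) : ℝ) ≤ (m : ℝ) := by
          push_cast
          linarith
        exact_mod_cast this
    · rw [Finset.mem_filter]
      refine ⟨hz1, ?_⟩
      have : 2 * κ z.1 + ((3 ^ n : ℕ) * k - 2 * (κ z.1 - κ z.2)) =
          2 * κ z.2 + ((3 ^ n : ℕ) : ℤ) * k := by ring
      rw [this, Int.add_mul_emod_self_left]
  calc Tq q m S = ((T ×ˢ T).filter (fun z => (q : ℤ) ∣ sg z.1 - sg z.2)).card := rfl
    _ ≤ _ := Finset.card_le_card hsub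
    _ ≤ ∑ u ∈ Finset.Icc (-(m : ℤ)) m, ((T ×ˢ T).filter (fun z =>
      (2 * κ z.1 + u) % ((3 ^ n : ℕ) : ℤ) = (2 * κ z.2) % ((3 ^ n : ℕ) : ℤ))).card :=
        Finset.card_biUnion_le
    _ ≤ ∑ u ∈ Finset.Icc (-(m : ℤ)) m, R.card := Finset.sum_le_sum (fun u _ => hshift u)
    _ = (2 * m + 1) * R.card := by
        rw [Finset.sum_const, smul_eq_mul, Int.card_Icc]
        congr 1
        omega
    _ ≤ (2 * m + 1) * Tq (3 ^ n) m (S.image M) := Nat.mul_le_mul_left _ hRle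

/-- bound for the number of coincidences modulo `q`. -/
theorem Tq_bound (m : ℕ) (hm : 1 ≤ m) (P η : ℝ) (hP : 1 ≤ P) (hη : 0 < η)
    (htp : ∀ (z w u v : ℂ), ‖u‖ = 1 → ‖v‖ = 1 → 1 + u + v = 0 →
      (‖z + w‖ ^ (2 * m) + ‖z + u * w‖ ^ (2 * m) + ‖z + v * w‖ ^ (2 * m)) / 3 ≤
        (1 + η) * (‖z‖ ^ (2 * m / P) + ‖w‖ ^ (2 * m / P)) ^ P)
    (q n : ℕ) (hq : 0 < q) (hqn : q < 3 ^ n) (S : Finset ℕ)
    (hS : ∀ p ∈ S, ((p : ℝ) / q) ∈ cantorSet) :
    (Tq q m S : ℝ) ≤ (2 * m + 1) * ((1 + η) ^ n * (S.card : ℝ) ^ P) := by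
  classical
  have hch : ∀ p : ℕ, ∃ M : ℕ, p ∈ S → (M ∈ dset n ∧
      (3 : ℝ) ^ n * ((p : ℝ) / q) - 2 * M ∈ cantorSet) := by
    intro p
    by_cases hp : p ∈ S
    · obtain ⟨M, hM1, hM2⟩ := cantor_digits (hS p hp) n
      exact ⟨M, fun _ => ⟨hM1, hM2⟩⟩
    · exact ⟨0, fun h => absurd h hp⟩
  choose M hM using hch
  have h1 := transfer q n m hq hqn S M (fun p hp => (hM p hp).2)
  have h2 := Tq_three m hm P η hP hη htp n (S.image M) (by
    intro x hx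
    rw [Finset.mem_image] at hx
    obtain ⟨p, hp, rfl⟩ := hx
    exact (hM p hp).1)
  have h3 : ((S.image M).card : ℝ) ^ P ≤ (S.card : ℝ) ^ P := by
    apply Real.rpow_le_rpow (by positivity) _ (by linarith)
    exact_mod_cast Finset.card_image_le
  calc (Tq q m S : ℝ) ≤ (((2 * m + 1) * Tq (3 ^ n) m (S.image M) : ℕ) : ℝ) := by
        exact_mod_cast h1
    _ = (2 * m + 1) * (Tq (3 ^ n) m (S.image M) : ℝ) := by push_cast; ring
    _ ≤ (2 * m + 1) * ((1 + η) ^ n * (S.card : ℝ) ^ P) := by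
        apply mul_le_mul_of_nonneg_left _ (by positivity)
        refine h2.trans ?_
        exact mul_le_mul_of_nonneg_left h3 (by positivity)

end Pool.Agent.Work.MP_aac176_nt
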